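import Pool.Agent.helper81.NL.Seq

set_option autoImplicit false

/-!
# NG-7b: one NOT gate and `⌈log₂ (N + 1)⌉` more guess bits replace all NOT gates
-/

namespace Pool.Agent.helper81.NL

theorem sharp_neg_nil {V : Type} : negations ([] : List (Gate V)) = 0 := rfl

theorem sharp_neg_cons {V : Type} {e : Gate V} {E : List (Gate V)} (he : e.isNot = false)
    (h : negations E = 0) : negations (e :: E) = 0 := by
  unfold negations at *
  rw [List.countP_cons_of_neg (by simp [he])]
  exact h

theorem sharp_neg_append {V : Type} {E D : List (Gate V)} (h : negations E = 0) :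
    negations (E ++ D) = negations D := by
  unfold negations at *
  rw [List.countP_append, h, Nat.zero_add]

theorem sharp_neg_append0 {V : Type} {E D : List (Gate V)} (h : negations E = 0)
    (h' : negations D = 0) : negations (E ++ D) = 0 := by
  rw [sharp_neg_append h, h']

/-- Conjunction of a list of variables. -/
theorem sharp_all {V : Type} (D : List (Gate V)) (vs : List V) :
    ∃ E : List (Gate V), negations E = 0 ∧ E.length ≤ 2 * vs.length + 1 ∧
      Has1 (E ++ D) fun X => vs.all fun v => X v := by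
  induction vs with
  | nil =>
    refine ⟨[Gate.const true], rfl, by simp, ?_⟩
    simpa using has1_const D true
  | cons v vs ih =>
    obtain ⟨E, hE, hl, hh⟩ := ih
    have h1 : Has1 (Gate.var v :: (E ++ D)) fun X => X v := has1_var _ v
    have h2 : Has1 (Gate.var v :: (E ++ D)) fun X => vs.all fun v => X v :=
      hh.append [Gate.var v]
    obtain ⟨e, he, h3⟩ := h1.and h2
    refine ⟨e :: Gate.var v :: E, sharp_neg_cons he (sharp_neg_cons rfl hE), ?_, ?_⟩
    · simp only [List.length_cons]; omega
    · simpa using h3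

/-- Disjunction of conjunctions of two functions. -/
theorem sharp_any {V : Type} (D : List (Gate V)) (h0 : Has1 D fun _ => false)
    (A B : ℕ → (V → Bool) → Bool) (ws : List ℕ) (h : ∀ w ∈ ws, Has1 D (A w) ∧ Has1 D (B w)) :
    ∃ E : List (Gate V), negations E = 0 ∧ E.length ≤ 2 * ws.length ∧
      Has1 (E ++ D) fun X => ws.any fun w => A w X && B w X := by
  induction ws with
  | nil =>
    refine ⟨[], rfl, by simp, ?_⟩
    simpa using h0
  | cons w ws ih =>
    obtain ⟨E, hE, hl, hh⟩ := ih fun w' hw' => h w' (List.mem_cons_of_mem _ hw')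
    obtain ⟨hA, hB⟩ := h w List.mem_cons_self
    obtain ⟨e, he, h3⟩ := (hA.append E).and (hB.append E)
    obtain ⟨e', he', h4⟩ := h3.or (hh.append [e])
    refine ⟨e' :: e :: E, sharp_neg_cons he' (sharp_neg_cons he hE), ?_, ?_⟩
    · simp only [List.length_cons]; omega
    · simpa using h4

/-- Building a list of things one after the other. -/
theorem sharp_list {V ι : Type} (K : ℕ) (P : List (Gate V) → Prop)
    (hP : ∀ E D, P D → P (E ++ D)) (F : ι → List (Gate V) → Prop)
    (hF : ∀ i E D, F i D → F i (E ++ D))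
    (h : ∀ i D, P D → ∃ E : List (Gate V), negations E = 0 ∧ E.length ≤ K ∧ F i (E ++ D))
    (D : List (Gate V)) (hD : P D) (is : List ι) :
    ∃ E : List (Gate V), negations E = 0 ∧ E.length ≤ is.length * K ∧
      ∀ i ∈ is, F i (E ++ D) := by
  induction is with
  | nil => exact ⟨[], rfl, by simp, by simp⟩
  | cons i is ih =>
    obtain ⟨E, hE, hl, hh⟩ := ih
    obtain ⟨E', hE', hl', hh'⟩ := h i (E ++ D) (hP E D hD)
    refine ⟨E' ++ E, sharp_neg_append0 hE' hE, ?_, ?_⟩
    · rw [List.length_append, List.length_cons, Nat.succ_mul]; omega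
    · intro i' hi'
      rw [List.append_assoc]
      rcases List.mem_cons.1 hi' with rfl | hi'
      · exact hh'
      · exact hF _ _ _ (hh i' hi')

/-- The dual rail representation of a function of `x` and of the first `g` guess bits, given functions
`Tn v` which compute the negations of the variables. -/
def SharpRail {V : Type} {g m : ℕ} (Tn : V → (V ⊕ (Fin (g + m) × Bool) → Bool) → Bool)
    (D : List (Gate (V ⊕ (Fin (g + m) × Bool)))) (f : (V → Bool) → (Fin g → Bool) → Bool) : Prop :=
  ∃ p n : (V ⊕ (Fin (g + m) × Bool) → Bool) → Bool, Has1 D p ∧ Has1 D n ∧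
    ∀ (x : V → Bool) (Y : Fin (g + m) → Bool), (∀ v, Tn v (guessInput x Y) = !(x v)) →
      p (guessInput x Y) = f x (fun i => Y (Fin.castAdd m i)) ∧
      n (guessInput x Y) = !(f x (fun i => Y (Fin.castAdd m i)))

theorem SharpRail.append {V : Type} {g m : ℕ}
    {Tn : V → (V ⊕ (Fin (g + m) × Bool) → Bool) → Bool}
    {D : List (Gate (V ⊕ (Fin (g + m) × Bool)))} {f : (V → Bool) → (Fin g → Bool) → Bool}
    (h : SharpRail Tn D f) (E : List (Gate (V ⊕ (Fin (g + m) × Bool)))) :
    SharpRail Tn (E ++ D) f := by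
  obtain ⟨p, n, hp, hn, h⟩ := h
  exact ⟨p, n, hp.append E, hn.append E, h⟩

theorem SharpRail.and {V : Type} {g m : ℕ}
    {Tn : V → (V ⊕ (Fin (g + m) × Bool) → Bool) → Bool}
    {D : List (Gate (V ⊕ (Fin (g + m) × Bool)))} {f f' : (V → Bool) → (Fin g → Bool) → Bool}
    (h : SharpRail Tn D f) (h' : SharpRail Tn D f') :
    ∃ E : List (Gate (V ⊕ (Fin (g + m) × Bool))), negations E = 0 ∧ E.length ≤ 2 ∧
      SharpRail Tn (E ++ D) fun x y => f x y && f' x y := by
  obtain ⟨p, n, hp, hn, h⟩ := h
  obtain ⟨p', n', hp', hn', h'⟩ := h'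
  obtain ⟨e, he, h1⟩ := hp.and hp'
  obtain ⟨e', he', h2⟩ := (hn.append [e]).or (hn'.append [e])
  refine ⟨[e', e], sharp_neg_cons he' (sharp_neg_cons he rfl), by simp, ?_⟩
  refine ⟨_, _, h1.append [e'], h2, ?_⟩
  intro x Y hY
  obtain ⟨a1, a2⟩ := h x Y hY
  obtain ⟨b1, b2⟩ := h' x Y hY
  simp only [a1, a2, b1, b2, Bool.not_and, and_self]

theorem SharpRail.or {V : Type} {g m : ℕ}
    {Tn : V → (V ⊕ (Fin (g + m) × Bool) → Bool) → Bool}
    {D : List (Gate (V ⊕ (Fin (g + m) × Bool)))} {f f' : (V → Bool) → (Fin g → Bool) → Bool}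
    (h : SharpRail Tn D f) (h' : SharpRail Tn D f') :
    ∃ E : List (Gate (V ⊕ (Fin (g + m) × Bool))), negations E = 0 ∧ E.length ≤ 2 ∧
      SharpRail Tn (E ++ D) fun x y => f x y || f' x y := by
  obtain ⟨p, n, hp, hn, h⟩ := h
  obtain ⟨p', n', hp', hn', h'⟩ := h'
  obtain ⟨e, he, h1⟩ := hp.or hp'
  obtain ⟨e', he', h2⟩ := (hn.append [e]).and (hn'.append [e])
  refine ⟨[e', e], sharp_neg_cons he' (sharp_neg_cons he rfl), by simp, ?_⟩
  refine ⟨_, _, h1.append [e'], h2, ?_⟩
  intro x Y hY
  obtain ⟨a1, a2⟩ := h x Y hY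
  obtain ⟨b1, b2⟩ := h' x Y hY
  simp only [a1, a2, b1, b2, Bool.not_or, and_self]

theorem SharpRail.not {V : Type} {g m : ℕ}
    {Tn : V → (V ⊕ (Fin (g + m) × Bool) → Bool) → Bool}
    {D : List (Gate (V ⊕ (Fin (g + m) × Bool)))} {f : (V → Bool) → (Fin g → Bool) → Bool}
    (h : SharpRail Tn D f) : SharpRail Tn D fun x y => !(f x y) := by
  obtain ⟨p, n, hp, hn, h⟩ := h
  refine ⟨n, p, hn, hp, ?_⟩
  intro x Y hY
  obtain ⟨a1, a2⟩ := h x Y hY
  simp only [a1, a2, Bool.not_not, and_self]

/-- The dual rail simulation of a circuit. -/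
theorem sharp_rail {V : Type} {g m : ℕ}
    (Tn : V → (V ⊕ (Fin (g + m) × Bool) → Bool) → Bool)
    (D : List (Gate (V ⊕ (Fin (g + m) × Bool)))) (h0 : Has1 D fun _ => false)
    (h1 : Has1 D fun _ => true) (hT : ∀ v, Has1 D (Tn v))
    (C : List (Gate (V ⊕ (Fin g × Bool)))) :
    ∃ E : List (Gate (V ⊕ (Fin (g + m) × Bool))), negations E = 0 ∧ E.length ≤ 2 * C.length ∧
      ∀ a, SharpRail Tn (E ++ D) fun x y => (run (guessInput x y) C).getD a false := by
  induction C with
  | nil =>
    refine ⟨[], rfl, by simp, fun a => ⟨_, _, h0, h1, ?_⟩⟩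
    intro x Y _
    simp [run]
  | cons c C ih =>
    obtain ⟨E, hE, hl, hh⟩ := ih
    have key : ∃ E' : List (Gate (V ⊕ (Fin (g + m) × Bool))), negations E' = 0 ∧
        E'.length ≤ 2 ∧ SharpRail Tn (E' ++ (E ++ D)) fun x y =>
          c.val (guessInput x y) (run (guessInput x y) C) := by
      cases c with
      | var u =>
        rcases u with v | ⟨i, b⟩
        · refine ⟨[Gate.var (Sum.inl v)], rfl, by simp, ?_⟩
          refine ⟨_, _, has1_var _ (Sum.inl v), ((hT v).append E).append _, ?_⟩
          intro x Y hY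
          exact ⟨rfl, hY v⟩
        · refine ⟨[Gate.var (Sum.inr (Fin.castAdd m i, !b)), Gate.var (Sum.inr (Fin.castAdd m i, b))],
            rfl, by simp, ?_⟩
          refine ⟨_, _, (has1_var _ (Sum.inr (Fin.castAdd m i, b))).append
            [Gate.var (Sum.inr (Fin.castAdd m i, !b))], has1_var _ (Sum.inr (Fin.castAdd m i, !b)), ?_⟩
          intro x Y hY
          refine ⟨rfl, ?_⟩
          show (Y (Fin.castAdd m i) == !b) = !(Y (Fin.castAdd m i) == b)
          cases Y (Fin.castAdd m i) <;> cases b <;> rfl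
      | const b =>
        refine ⟨[Gate.const (!b), Gate.const b], rfl, by simp, ?_⟩
        refine ⟨_, _, (has1_const _ b).append [Gate.const (!b)], has1_const _ (!b), ?_⟩
        intro x Y hY
        exact ⟨rfl, rfl⟩
      | and a b => exact (hh a).and (hh b)
      | or a b => exact (hh a).or (hh b)
      | not a => exact ⟨[], rfl, by simp, (hh a).not⟩
    obtain ⟨E', hE', hl', hh'⟩ := key
    refine ⟨E' ++ E, sharp_neg_append0 hE' hE, ?_, ?_⟩
    · rw [List.length_append, List.length_cons]; omega
    · intro a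
      rw [List.append_assoc]
      cases a with
      | zero => exact hh'
      | succ a => exact (hh a).append E'

/-- The digits `g, g + 1, …` of the guess are those of `w`. -/
def sharpInd (V : Type) (g m w : ℕ) (X : V ⊕ (Fin (g + m) × Bool) → Bool) : Bool :=
  ((List.finRange m).map fun j : Fin m =>
    (Sum.inr (Fin.natAdd g j, w.testBit j) : V ⊕ (Fin (g + m) × Bool))).all fun v => X v

theorem sharpInd_iff {V : Type} {g m w : ℕ} (x : V → Bool) (Y : Fin (g + m) → Bool) :
    sharpInd V g m w (guessInput x Y) = true ↔ ∀ j : Fin m, Y (Fin.natAdd g j) = w.testBit j := by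
  unfold sharpInd
  rw [List.all_map, List.all_eq_true]
  constructor
  · intro h j
    have := h j (List.mem_finRange j)
    simpa [guessInput] using this
  · intro h j _
    simp [guessInput, h j]

theorem sharpInd_unique {V : Type} {g m w w' : ℕ} (hw : w < 2 ^ m) (hw' : w' < 2 ^ m)
    (x : V → Bool) (Y : Fin (g + m) → Bool) (h : sharpInd V g m w (guessInput x Y) = true)
    (h' : sharpInd V g m w' (guessInput x Y) = true) : w = w' := by
  rw [sharpInd_iff] at h h'
  apply Nat.eq_of_testBit_eq
  intro i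
  by_cases hi : i < m
  · have a := h ⟨i, hi⟩
    have b := h' ⟨i, hi⟩
    exact a.symm.trans b
  · have hp : (2 : ℕ) ^ m ≤ 2 ^ i := Nat.pow_le_pow_right (by norm_num) (not_lt.1 hi)
    rw [Nat.testBit_lt_two_pow (lt_of_lt_of_le hw hp), Nat.testBit_lt_two_pow (lt_of_lt_of_le hw' hp)]

/-- `⋁_{w ≤ N} [z = w] ∧ B w`. -/
def sharpSel (V : Type) (g m N : ℕ) (B : ℕ → (V ⊕ (Fin (g + m) × Bool) → Bool) → Bool)
    (X : V ⊕ (Fin (g + m) × Bool) → Bool) : Bool :=
  (List.range (N + 1)).any fun w => sharpInd V g m w X && B w X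

theorem sharpSel_iff {V : Type} {g m N : ℕ}
    {B : ℕ → (V ⊕ (Fin (g + m) × Bool) → Bool) → Bool} (X : V ⊕ (Fin (g + m) × Bool) → Bool) :
    sharpSel V g m N B X = true ↔ ∃ w ≤ N, sharpInd V g m w X = true ∧ B w X = true := by
  unfold sharpSel
  rw [List.any_eq_true]
  simp only [List.mem_range, Bool.and_eq_true, Nat.lt_succ_iff]

theorem sharpSel_eq {V : Type} {g m N : ℕ} (hN : N < 2 ^ m)
    {B : ℕ → (V ⊕ (Fin (g + m) × Bool) → Bool) → Bool} (x : V → Bool) (Y : Fin (g + m) → Bool)
    {w : ℕ} (hw : w ≤ N) (h : sharpInd V g m w (guessInput x Y) = true) :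
    sharpSel V g m N B (guessInput x Y) = B w (guessInput x Y) := by
  rw [Bool.eq_iff_iff, sharpSel_iff]
  constructor
  · rintro ⟨w', hw', h1, h2⟩
    rw [sharpInd_unique (lt_of_le_of_lt hw hN) (lt_of_le_of_lt hw' hN) x Y h h1]
    exact h2
  · intro h2
    exact ⟨w, hw, h, h2⟩

/-- The threshold functions of variables of `x`. -/
theorem sharp_thr {V : Type} {g : ℕ} (vs : List V) (w : ℕ) (x : V → Bool) (Y : Fin g → Bool) :
    thr (vs.map (Sum.inl : V → V ⊕ (Fin g × Bool))) w (guessInput x Y) =
      decide (w ≤ vs.countP fun v => x v) := by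
  unfold thr
  rw [List.countP_map]
  rfl

/-- PROOF. `N = card V`, `m = Nat.clog 2 (N + 1)`, so `N < 2 ^ m` and `m ≤ N + 1`. The new guess is `(y, z)`: `y` the old guess (the first `g` bits), `z`
(the last `m` bits) is read as a number `w < 2 ^ m` (only `w ≤ N` will be used). `W = Sum.inl '' V` the variables.
`[z = w]` is the conjunction of `m` literals. Put, for a list `vs` of variables of `x`,
`T vs = ⋁_{w ≤ N} [z = w] ∧ thr vs w` and `T⁺ vs = ⋁_{w ≤ N} [z = w] ∧ thr vs (w + 1)`. If `z` is the number `w ≤ N` then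
`T vs = thr vs w`, `T⁺ vs = thr vs (w + 1)`; if `w > N` both are `false`. Let `vs` be the list of all variables and
`vs_v` the same without `v`. If the number of ones of `x` is exactly `w` then `thr vs_v w x = !(x v)`.
Dual rail: from `C` build gates without NOT such that, for each gate `a` of `C`, two functions `p_a` and `n_a` are computed:
`var (inl v)`: `x v` and `T vs_v`; `var (inr (i, b))`: the literal and the opposite literal; `const b`: `b`, `!b`;
`and a b`: `p_a ∧ p_b`, `n_a ∨ n_b`; `or`: dual; `not a`: `n_a`, `p_a` (no gate needed, or one AND gate with equal arguments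
to keep the numbering). If `z` is the number of ones of `x` then `p_a` is the value of gate `a` and `n_a` its negation.
(References beyond the end of `C` mean `false`: `p = false`, `n = true`.) The output is `p_0 ∧ T vs ∧ ¬ T⁺ vs`: it is `true` only if
`z` is the number of ones of `x`, and then it is the value of `C` at `(x, y)`.
Size: `N + 1` threshold tables (`exists_thr` with `W = N + 1`, at most `2 + N (2 N + 5)` gates each), the `(N + 1)` indicators `[z = w]` (at most `2 m + 2` gates each), for each of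
the `N + 2` selections at most `3 (N + 1) + 2` gates, two or three gates per gate of `C`, some more: at most
`4 * C.length + 100 * (N + 1) ^ 3`. -/
theorem sharp {V : Type} [Fintype V] (g : ℕ) (C : List (Gate (V ⊕ (Fin g × Bool)))) :
    ∃ C' : List (Gate (V ⊕ (Fin (g + Nat.clog 2 (Fintype.card V + 1)) × Bool))),
      negations C' ≤ 1 ∧ C'.length ≤ 4 * C.length + 100 * (Fintype.card V + 1) ^ 3 ∧
      ∀ x : V → Bool, Accepts C' x ↔ Accepts C x := by
  classical
  obtain ⟨N, hN⟩ : ∃ N, N = Fintype.card V := ⟨_, rfl⟩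
  obtain ⟨m, hm⟩ : ∃ m, m = Nat.clog 2 (Fintype.card V + 1) := ⟨_, rfl⟩
  rw [← hm, ← hN]
  have hNm : N < 2 ^ m := by
    rw [hm, ← hN]
    exact Nat.lt_of_succ_le (Nat.le_pow_clog (by norm_num) _)
  have hmN : m ≤ N := by
    rw [hm, ← hN]
    exact Nat.clog_le_of_le_pow (Nat.lt_two_pow_self)
  -- the list of the variables
  set L : List V := (Finset.univ : Finset V).toList with hL
  have hLmem : ∀ v, v ∈ L := fun v => by simp [hL]
  have hLlen : L.length = N := by rw [hL, hN]; simp
  -- the constants
  have hc0 : Has1 ([Gate.const false, Gate.const true] : List (Gate (V ⊕ (Fin (g + m) × Bool))))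
      fun _ => false := has1_const _ false
  have hc1 : Has1 ([Gate.const false, Gate.const true] : List (Gate (V ⊕ (Fin (g + m) × Bool))))
      fun _ => true := (has1_const _ true).append [Gate.const false]
  -- the indicators
  obtain ⟨E1, hE1, hl1, hh1⟩ := sharp_list (2 * m + 1)
    (fun _ : List (Gate (V ⊕ (Fin (g + m) × Bool))) => True) (fun _ _ _ => trivial)
    (fun w D => Has1 D (sharpInd V g m w)) (fun i E D h => h.append E)
    (fun w D _ => by
      obtain ⟨E, hE, hl, hh⟩ := sharp_all D ((List.finRange m).map fun j : Fin m =>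
        (Sum.inr (Fin.natAdd g j, w.testBit j) : V ⊕ (Fin (g + m) × Bool)))
      refine ⟨E, hE, ?_, hh⟩
      simpa using hl)
    [Gate.const false, Gate.const true] trivial (List.range (N + 1))
  -- the tables of all variables but one
  obtain ⟨E2, hE2, hl2, hh2⟩ := sharp_list (2 + N * (2 * (N + 1) + 3))
    (fun _ : List (Gate (V ⊕ (Fin (g + m) × Bool))) => True) (fun _ _ _ => trivial)
    (fun (vs : {vs : List V // vs.length ≤ N}) D =>
      ∀ w ≤ N + 1, Has1 D (thr (vs.1.map Sum.inl) w))
    (fun vs E D h w hw => (h w hw).append E)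
    (fun vs D _ => by
      obtain ⟨E, hE, hl, hh⟩ := exists_thr D (vs.1.map Sum.inl) (N + 1)
      refine ⟨E, hE, hl.trans ?_, hh⟩
      rw [List.length_map]
      gcongr
      exact vs.2)
    (E1 ++ [Gate.const false, Gate.const true]) trivial
    ((⟨L, hLlen.le⟩ : {vs : List V // vs.length ≤ N}) :: L.map fun v =>
      ⟨L.erase v, (List.length_erase_le).trans hLlen.le⟩)
  set D2 := E2 ++ (E1 ++ [Gate.const false, Gate.const true]) with hD2
  have hI2 : ∀ w ≤ N, Has1 D2 (sharpInd V g m w) := fun w hw =>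
    (hh1 w (List.mem_range.2 (Nat.lt_succ_of_le hw))).append E2
  have hc02 : Has1 D2 fun _ => false := (hc0.append E1).append E2
  have hc12 : Has1 D2 fun _ => true := (hc1.append E1).append E2
  have hL2 : ∀ w ≤ N + 1, Has1 D2 (thr (L.map Sum.inl) w) := hh2 _ List.mem_cons_self
  have hLv2 : ∀ v, ∀ w ≤ N + 1, Has1 D2 (thr ((L.erase v).map Sum.inl) w) := fun v =>
    hh2 ⟨L.erase v, (List.length_erase_le).trans hLlen.le⟩
      (List.mem_cons_of_mem _ (List.mem_map_of_mem (hLmem v)))
  -- the selections
  obtain ⟨E3, hE3, hl3, hh3⟩ := sharp_list (2 * (N + 1))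
    (fun D => Has1 D (fun _ => false) ∧ (∀ w ≤ N, Has1 D (sharpInd V g m w)) ∧
      (∀ w ≤ N + 1, Has1 D (thr (L.map Sum.inl) w)) ∧
      ∀ v, ∀ w ≤ N + 1, Has1 D (thr ((L.erase v).map Sum.inl) w))
    (fun E D h => ⟨h.1.append E, fun w hw => (h.2.1 w hw).append E,
      fun w hw => (h.2.2.1 w hw).append E, fun v w hw => (h.2.2.2 v w hw).append E⟩)
    (fun (B : Option (Option V)) D => Has1 D (sharpSel V g m N (fun w => match B with
      | some (some v) => thr ((L.erase v).map Sum.inl) w
      | some none => thr (L.map Sum.inl) w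
      | none => thr (L.map Sum.inl) (w + 1)))) (fun B E D h => h.append E)
    (fun B D hD => by
      obtain ⟨E, hE, hl, hh⟩ := sharp_any D hD.1 (sharpInd V g m) (fun w => match B with
        | some (some v) => thr ((L.erase v).map Sum.inl) w
        | some none => thr (L.map Sum.inl) w
        | none => thr (L.map Sum.inl) (w + 1)) (List.range (N + 1)) (by
          intro w hw
          have hw : w ≤ N := Nat.le_of_lt_succ (List.mem_range.1 hw)
          refine ⟨hD.2.1 w hw, ?_⟩
          match B with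
          | some (some v) => exact hD.2.2.2 v w (by omega)
          | some none => exact hD.2.2.1 w (by omega)
          | none => exact hD.2.2.1 (w + 1) (by omega))
      refine ⟨E, hE, ?_, hh⟩
      simpa using hl)
    D2 ⟨hc02, hI2, hL2, hLv2⟩ (none :: some none :: L.map fun v => some (some v))
  -- the dual rail simulation
  obtain ⟨E4, hE4, hl4, hh4⟩ := sharp_rail
    (fun v => sharpSel V g m N (fun w => thr ((L.erase v).map Sum.inl) w)) (E3 ++ D2)
    (hc02.append E3) (hc12.append E3)
    (fun v => hh3 (some (some v)) (List.mem_cons_of_mem _ (List.mem_cons_of_mem _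
      (List.mem_map_of_mem (hLmem v))))) C
  set D4 := E4 ++ (E3 ++ D2) with hD4
  have hT : Has1 D4 (sharpSel V g m N (fun w => thr (L.map Sum.inl) w)) :=
    (hh3 (some none) (List.mem_cons_of_mem _ List.mem_cons_self)).append E4
  have hT' : Has1 D4 (sharpSel V g m N (fun w => thr (L.map Sum.inl) (w + 1))) :=
    (hh3 none List.mem_cons_self).append E4
  obtain ⟨p, n, hp, hn, hpn⟩ := hh4 0
  obtain ⟨e1, hA1⟩ := hT'.not
  obtain ⟨e2, he2, hA2⟩ := (hT.append [e1]).and hA1
  obtain ⟨e3, he3, hA3⟩ := ((hp.append [e1]).append [e2]).and hA2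
  obtain ⟨e4, he4, hA4⟩ := hA3.output
  refine ⟨e4 :: e3 :: e2 :: e1 :: D4, ?_, ?_, ?_⟩
  · have h0 : negations D4 = 0 := by
      rw [hD4, hD2]
      refine sharp_neg_append0 hE4 (sharp_neg_append0 hE3 (sharp_neg_append0 hE2
        (sharp_neg_append0 hE1 rfl)))
    unfold negations at h0 ⊢
    rw [List.countP_cons_of_neg (by simp [he4]), List.countP_cons_of_neg (by simp [he3]),
      List.countP_cons_of_neg (by simp [he2]), List.countP_cons, h0]
    split <;> simp
  · have e1 : (L.map fun v => (some (some v) : Option (Option V))).length = N := by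
      rw [List.length_map, hLlen]
    simp only [List.length_cons, List.length_append, List.length_map, List.length_range, hLlen,
      hD4, hD2, List.length_nil] at hl1 hl2 hl3 hl4 ⊢
    have h1 : (N + 1) * (2 * m + 1) ≤ (N + 1) * (2 * N + 1) := by gcongr
    have h2 : 4 + (2 * C.length + ((N + 1 + 1) * (2 * (N + 1)) + ((N + 1) * (2 + N * (2 * (N + 1) + 3))
        + ((N + 1) * (2 * N + 1) + 2)))) ≤ 4 * C.length + 100 * (N + 1) ^ 3 := by
      nlinarith [Nat.zero_le C.length, Nat.zero_le (N ^ 3), Nat.zero_le (N ^ 2), Nat.zero_le N]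
    omega
  · intro x
    -- the number of ones
    have hk : ∀ v, (L.countP fun v => x v) = ((L.erase v).countP fun v => x v) + if x v then 1 else 0 := by
      intro v
      rw [(List.perm_cons_erase (hLmem v)).countP_eq, List.countP_cons]
    have hkN : (L.countP fun v => x v) ≤ N := (List.countP_le_length).trans hLlen.le
    have hgood : ∀ Y : Fin (g + m) → Bool,
        sharpInd V g m (L.countP fun v => x v) (guessInput x Y) = true →
        p (guessInput x Y) = eval C (guessInput x fun i => Y (Fin.castAdd m i)) := by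
      intro Y hY
      refine (hpn x Y ?_).1
      intro v
      show sharpSel V g m N (fun w => thr ((L.erase v).map Sum.inl) w) (guessInput x Y) = !(x v)
      rw [sharpSel_eq hNm x Y hkN hY, sharp_thr, hk v]
      cases x v <;> simp
    have hA5 : ∀ X, eval (e4 :: e3 :: e2 :: e1 :: D4) X = (p X &&
        (sharpSel V g m N (fun w => thr (L.map Sum.inl) w) X &&
          !sharpSel V g m N (fun w => thr (L.map Sum.inl) (w + 1)) X)) := hA4
    constructor
    · rintro ⟨Y, hY⟩
      rw [hA5] at hY
      simp only [Bool.and_eq_true, Bool.not_eq_true'] at hY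
      obtain ⟨hY1, hY2, hY3⟩ := hY
      obtain ⟨w, hw, hw1, hw2⟩ := (sharpSel_iff _).1 hY2
      rw [sharpSel_eq hNm x Y hw hw1, sharp_thr] at hY3
      rw [sharp_thr] at hw2
      have hw3 : w = L.countP fun v => x v := by
        have := of_decide_eq_true hw2
        have := of_decide_eq_false hY3
        omega
      rw [hw3] at hw1
      exact ⟨_, (hgood Y hw1).symm.trans hY1⟩
    · rintro ⟨y, hy⟩
      obtain ⟨Y, hY⟩ : ∃ Y : Fin (g + m) → Bool, Y = Fin.append y
          (fun j => (L.countP fun v => x v).testBit j) := ⟨_, rfl⟩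
      have hY1 : sharpInd V g m (L.countP fun v => x v) (guessInput x Y) = true := by
        rw [sharpInd_iff]
        intro j
        rw [hY, Fin.append_right]
      have hY2 : (fun i => Y (Fin.castAdd m i)) = y := by
        funext i
        rw [hY, Fin.append_left]
      refine ⟨Y, ?_⟩
      rw [hA5]
      simp only [Bool.and_eq_true, Bool.not_eq_true']
      rw [hgood Y hY1, hY2, sharpSel_eq hNm x Y hkN hY1, sharpSel_eq hNm x Y hkN hY1, sharp_thr,
        sharp_thr]
      exact ⟨hy, by simp, by simp⟩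

end Pool.Agent.helper81.NL
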