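import Pool.Agent.helper81.NL.Guess

set_option autoImplicit false

/-!
# NG-6: the clique problem with guesses and without negations
-/

namespace Pool.Agent.helper81.NL

/-- Monotone formulas. -/
inductive UpperFm (W : Type)
  | var (v : W)
  | const (b : Bool)
  | and (f g : UpperFm W)
  | or (f g : UpperFm W)

namespace UpperFm

variable {W : Type}

/-- The value of a formula. -/
def ev (x : W → Bool) : UpperFm W → Bool
  | var v => x v
  | const b => b
  | and f g => f.ev x && g.ev x
  | or f g => f.ev x || g.ev x

/-- The number of nodes of a formula. -/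
def size : UpperFm W → ℕ
  | var _ => 1
  | const _ => 1
  | and f g => f.size + g.size + 1
  | or f g => f.size + g.size + 1

/-- The circuit of a formula. -/
def comp : UpperFm W → List (Gate W)
  | var v => [Gate.var v]
  | const b => [Gate.const b]
  | and f g => Gate.and 0 g.comp.length :: (g.comp ++ f.comp)
  | or f g => Gate.or 0 g.comp.length :: (g.comp ++ f.comp)

theorem comp_length (f : UpperFm W) : f.comp.length = f.size := by
  induction f with
  | var v => rfl
  | const b => rfl
  | and f g hf hg => simp only [comp, size, List.length_cons, List.length_append, hf, hg]; omega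
  | or f g hf hg => simp only [comp, size, List.length_cons, List.length_append, hf, hg]; omega

theorem comp_negations (f : UpperFm W) : negations f.comp = 0 := by
  induction f with
  | var v => simp [negations, comp, Gate.isNot]
  | const b => simp [negations, comp, Gate.isNot]
  | and f g hf hg =>
    simp only [negations] at hf hg ⊢
    simp only [comp, List.countP_cons, List.countP_append, hf, hg, Gate.isNot]
    simp
  | or f g hf hg =>
    simp only [negations] at hf hg ⊢
    simp only [comp, List.countP_cons, List.countP_append, hf, hg, Gate.isNot]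
    simp

theorem getD_mid (a b : Bool) (t r : List Bool) :
    (a :: (t ++ b :: r)).getD (t.length + 1) false = b := by
  simp [List.getD]

theorem run_comp (x : W → Bool) (f : UpperFm W) : ∀ D : List (Gate W),
    ∃ t : List Bool, run x (f.comp ++ D) = f.ev x :: (t ++ run x D) ∧
      t.length + 1 = f.comp.length := by
  induction f with
  | var v => intro D; exact ⟨[], rfl, rfl⟩
  | const b => intro D; exact ⟨[], rfl, rfl⟩
  | and f g hf hg =>
    intro D
    obtain ⟨t1, h1, l1⟩ := hf D
    obtain ⟨t2, h2, l2⟩ := hg (f.comp ++ D)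
    refine ⟨g.ev x :: (t2 ++ f.ev x :: t1), ?_, ?_⟩
    · simp only [comp, List.cons_append, List.append_assoc, run]
      rw [h2, h1]
      simp only [Gate.val, ← l2, getD_mid, ev]
      simp [Bool.and_comm]
    · simp only [comp, List.length_cons, List.length_append]
      omega
  | or f g hf hg =>
    intro D
    obtain ⟨t1, h1, l1⟩ := hf D
    obtain ⟨t2, h2, l2⟩ := hg (f.comp ++ D)
    refine ⟨g.ev x :: (t2 ++ f.ev x :: t1), ?_, ?_⟩
    · simp only [comp, List.cons_append, List.append_assoc, run]
      rw [h2, h1]
      simp only [Gate.val, ← l2, getD_mid, ev]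
      simp [Bool.or_comm]
    · simp only [comp, List.length_cons, List.length_append]
      omega

theorem eval_comp (x : W → Bool) (f : UpperFm W) : eval f.comp x = f.ev x := by
  obtain ⟨t, h, -⟩ := run_comp x f []
  rw [List.append_nil] at h
  simp [eval, h]

/-- Conjunction of a list. -/
def all (L : List (UpperFm W)) : UpperFm W := L.foldr and (const true)

/-- Disjunction of a list. -/
def any (L : List (UpperFm W)) : UpperFm W := L.foldr or (const false)

theorem ev_all (x : W → Bool) (L : List (UpperFm W)) :
    (all L).ev x = true ↔ ∀ f ∈ L, f.ev x = true := by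
  induction L with
  | nil => simp [all, ev]
  | cons f L ih =>
    have h : (all (f :: L)).ev x = (f.ev x && (all L).ev x) := rfl
    rw [h, Bool.and_eq_true, ih]
    simp

theorem ev_any (x : W → Bool) (L : List (UpperFm W)) :
    (any L).ev x = true ↔ ∃ f ∈ L, f.ev x = true := by
  induction L with
  | nil => simp [any, ev]
  | cons f L ih =>
    have h : (any (f :: L)).ev x = (f.ev x || (any L).ev x) := rfl
    rw [h, Bool.or_eq_true, ih]
    simp

theorem size_all (s : ℕ) (L : List (UpperFm W)) (hs : ∀ f ∈ L, f.size ≤ s) :
    (all L).size ≤ L.length * (s + 1) + 1 := by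
  induction L with
  | nil => simp [all, size]
  | cons f L ih =>
    have h : (all (f :: L)).size = f.size + (all L).size + 1 := rfl
    have h1 := hs f (by simp)
    have h2 := ih fun g hg => hs g (by simp [hg])
    rw [h, List.length_cons]
    nlinarith

theorem size_any (s : ℕ) (L : List (UpperFm W)) (hs : ∀ f ∈ L, f.size ≤ s) :
    (any L).size ≤ L.length * (s + 1) + 1 := by
  induction L with
  | nil => simp [any, size]
  | cons f L ih =>
    have h : (any (f :: L)).size = f.size + (any L).size + 1 := rfl
    have h1 := hs f (by simp)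
    have h2 := ih fun g hg => hs g (by simp [hg])
    rw [h, List.length_cons]
    nlinarith

end UpperFm

open UpperFm

/-- The type of the variables. -/
abbrev UpperW (n k : ℕ) : Type := (Fin n × Fin n) ⊕ (Fin (k * Nat.clog 2 n) × Bool)

/-- The guessed vertex number `i` is `u`. -/
def upperEq (n k : ℕ) (i : Fin k) (u : Fin n) : UpperFm (UpperW n k) :=
  all ((List.finRange (Nat.clog 2 n)).map fun j =>
    var (Sum.inr (finProdFinEquiv (i, j), Nat.testBit u.1 j.1)))

/-- The guessed vertices number `i` and `i'` are adjacent. -/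
def upperAdj (n k : ℕ) (i i' : Fin k) : UpperFm (UpperW n k) :=
  any ((List.finRange n).map fun u => any ((List.finRange n).map fun u' =>
    and (upperEq n k i u) (and (upperEq n k i' u') (var (Sum.inl (u, u'))))))

/-- The formula. -/
def upperForm (n k : ℕ) : UpperFm (UpperW n k) :=
  and (all ((List.finRange k).map fun i => any ((List.finRange n).map fun u => upperEq n k i u)))
    (all ((List.finRange k).map fun i => all ((List.finRange k).map fun i' =>
      if i < i' then upperAdj n k i i' else const true)))

theorem size_upperEq (n k : ℕ) (i : Fin k) (u : Fin n) :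
    (upperEq n k i u).size ≤ Nat.clog 2 n * 2 + 1 := by
  have := size_all 1 ((List.finRange (Nat.clog 2 n)).map fun j =>
    (var (Sum.inr (finProdFinEquiv (i, j), Nat.testBit u.1 j.1)) : UpperFm (UpperW n k)))
    (by
      intro f hf
      obtain ⟨j, -, rfl⟩ := List.mem_map.1 hf
      simp [size])
  rw [List.length_map, List.length_finRange] at this
  exact this

theorem size_upperAdj (n k : ℕ) (i i' : Fin k) :
    (upperAdj n k i i').size ≤ n * (n * (Nat.clog 2 n * 4 + 6) + 2) + 1 := by
  have h1 : ∀ u u' : Fin n,
      (and (upperEq n k i u) (and (upperEq n k i' u') (var (Sum.inl (u, u'))))).size ≤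
        Nat.clog 2 n * 4 + 5 := by
    intro u u'
    have h2 := size_upperEq n k i u
    have h3 := size_upperEq n k i' u'
    simp only [size]
    omega
  have h2 : ∀ u : Fin n, (any ((List.finRange n).map fun u' =>
      and (upperEq n k i u) (and (upperEq n k i' u') (var (Sum.inl (u, u')))))).size ≤
        n * (Nat.clog 2 n * 4 + 6) + 1 := by
    intro u
    have := size_any (Nat.clog 2 n * 4 + 5) ((List.finRange n).map fun u' =>
      (and (upperEq n k i u) (and (upperEq n k i' u') (var (Sum.inl (u, u')))) :
        UpperFm (UpperW n k)))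
      (by
        intro f hf
        obtain ⟨j, -, rfl⟩ := List.mem_map.1 hf
        exact h1 u j)
    rw [List.length_map, List.length_finRange] at this
    exact this
  have := size_any (n * (Nat.clog 2 n * 4 + 6) + 1) ((List.finRange n).map fun u =>
    any ((List.finRange n).map fun u' =>
      (and (upperEq n k i u) (and (upperEq n k i' u') (var (Sum.inl (u, u')))) :
        UpperFm (UpperW n k))))
    (by
      intro f hf
      obtain ⟨j, -, rfl⟩ := List.mem_map.1 hf
      exact h2 j)
  rw [List.length_map, List.length_finRange] at this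
  exact this

theorem size_upperForm (n k : ℕ) :
    (upperForm n k).size ≤ (k * (n * (Nat.clog 2 n * 2 + 2) + 2) + 1) +
      (k * (k * (n * (n * (Nat.clog 2 n * 4 + 6) + 2) + 2) + 2) + 1) + 1 := by
  have h1 : (all ((List.finRange k).map fun i => any ((List.finRange n).map fun u =>
      upperEq n k i u))).size ≤ k * (n * (Nat.clog 2 n * 2 + 2) + 2) + 1 := by
    have := size_all (n * (Nat.clog 2 n * 2 + 2) + 1) ((List.finRange k).map fun i =>
      any ((List.finRange n).map fun u => upperEq n k i u))
      (by
        intro f hf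
        obtain ⟨i, -, rfl⟩ := List.mem_map.1 hf
        have := size_any (Nat.clog 2 n * 2 + 1) ((List.finRange n).map fun u => upperEq n k i u)
          (by
            intro f hf
            obtain ⟨u, -, rfl⟩ := List.mem_map.1 hf
            exact size_upperEq n k i u)
        rw [List.length_map, List.length_finRange] at this
        exact this)
    rw [List.length_map, List.length_finRange] at this
    exact this
  have h2 : (all ((List.finRange k).map fun i => all ((List.finRange k).map fun i' =>
      if i < i' then upperAdj n k i i' else const true))).size ≤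
      k * (k * (n * (n * (Nat.clog 2 n * 4 + 6) + 2) + 2) + 2) + 1 := by
    have := size_all (k * (n * (n * (Nat.clog 2 n * 4 + 6) + 2) + 2) + 1)
      ((List.finRange k).map fun i => all ((List.finRange k).map fun i' =>
        if i < i' then upperAdj n k i i' else const true))
      (by
        intro f hf
        obtain ⟨i, -, rfl⟩ := List.mem_map.1 hf
        have := size_all (n * (n * (Nat.clog 2 n * 4 + 6) + 2) + 1)
          ((List.finRange k).map fun i' =>
            if i < i' then upperAdj n k i i' else const true)
          (by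
            intro f hf
            obtain ⟨i', -, rfl⟩ := List.mem_map.1 hf
            by_cases h : i < i'
            · simp only [h, if_true]
              exact size_upperAdj n k i i'
            · simp only [h, if_false, size]
              omega)
        rw [List.length_map, List.length_finRange] at this
        exact this)
    rw [List.length_map, List.length_finRange] at this
    exact this
  simp only [upperForm, size]
  omega

theorem upper_bound_arith (n k m : ℕ) (hm : m ≤ n) :
    (k * (n * (m * 2 + 2) + 2) + 1) + (k * (k * (n * (n * (m * 4 + 6) + 2) + 2) + 2) + 1) + 1 ≤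
      20 * (n + k + 1) ^ 5 := by
  obtain ⟨s, hs⟩ : ∃ s, s = n + k + 1 := ⟨_, rfl⟩
  have hs1 : 1 ≤ s := by omega
  have hk : k ≤ s := by omega
  have hn : n + 1 ≤ s := by omega
  have hms : m + 1 ≤ s := by omega
  rw [← hs]
  have p1 : n * (m * 2 + 2) + 2 ≤ 2 * s ^ 2 + 2 := by nlinarith
  have q : s ≤ s ^ 2 := by nlinarith
  have q2 : 1 ≤ s ^ 2 := by nlinarith
  have q3 : s ^ 2 ≤ s ^ 3 := by nlinarith
  have q4 : s ^ 3 ≤ s ^ 4 := Nat.pow_le_pow_right hs1 (by norm_num)
  have q5 : s ^ 4 ≤ s ^ 5 := Nat.pow_le_pow_right hs1 (by norm_num)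
  have a1 : k * (n * (m * 2 + 2) + 2) ≤ s * (4 * s ^ 2) :=
    Nat.mul_le_mul hk (by nlinarith)
  have b1 : n * (m * 4 + 6) + 2 ≤ 6 * s ^ 2 := by nlinarith
  have b2 : n * (n * (m * 4 + 6) + 2) + 2 ≤ 6 * s ^ 3 := by
    have : n * (n * (m * 4 + 6) + 2) ≤ (s - 1) * (6 * s ^ 2) := Nat.mul_le_mul (by omega) b1
    have h2 : (s - 1) * (6 * s ^ 2) + 6 * s ^ 2 = 6 * s ^ 3 := by
      obtain ⟨t, rfl⟩ : ∃ t, s = t + 1 := ⟨s - 1, by omega⟩
      simp only [Nat.add_sub_cancel]
      ring
    omega
  have b3 : k * (n * (n * (m * 4 + 6) + 2) + 2) + 2 ≤ 8 * s ^ 4 := by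
    have h1 : k * (n * (n * (m * 4 + 6) + 2) + 2) ≤ s * (6 * s ^ 3) := Nat.mul_le_mul hk b2
    have h2 : s * (6 * s ^ 3) = 6 * s ^ 4 := by ring
    have h3 : 1 ≤ s ^ 4 := Nat.one_le_pow _ _ hs1
    omega
  have b4 : k * (k * (n * (n * (m * 4 + 6) + 2) + 2) + 2) ≤ s * (8 * s ^ 4) :=
    Nat.mul_le_mul hk b3
  have h2 : s * (8 * s ^ 4) = 8 * s ^ 5 := by ring
  have h3 : s * (4 * s ^ 2) = 4 * s ^ 3 := by ring
  have h5 : 1 ≤ s ^ 5 := Nat.one_le_pow _ _ hs1
  omega

theorem upper_digits (n : ℕ) (u u' : Fin n)
    (h : ∀ j : Fin (Nat.clog 2 n), Nat.testBit u.1 j.1 = Nat.testBit u'.1 j.1) : u = u' := by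
  apply Fin.ext
  apply Nat.eq_of_testBit_eq
  intro j
  by_cases hj : j < Nat.clog 2 n
  · exact h ⟨j, hj⟩
  · have h1 : n ≤ 2 ^ Nat.clog 2 n := Nat.le_pow_clog (by norm_num) n
    have h2 : 2 ^ Nat.clog 2 n ≤ 2 ^ j := Nat.pow_le_pow_right (by norm_num) (by omega)
    rw [Nat.testBit_lt_two_pow (by omega : u.1 < 2 ^ j),
      Nat.testBit_lt_two_pow (by omega : u'.1 < 2 ^ j)]

theorem ev_upperEq (n k : ℕ) (x : Fin n × Fin n → Bool) (y : Fin (k * Nat.clog 2 n) → Bool)
    (i : Fin k) (u : Fin n) :
    (upperEq n k i u).ev (guessInput x y) = true ↔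
      ∀ j : Fin (Nat.clog 2 n), y (finProdFinEquiv (i, j)) = Nat.testBit u.1 j.1 := by
  unfold upperEq
  rw [ev_all]
  constructor
  · intro h j
    have := h _ (List.mem_map.2 ⟨j, List.mem_finRange j, rfl⟩)
    simpa [ev, guessInput] using this
  · intro h f hf
    obtain ⟨j, -, rfl⟩ := List.mem_map.1 hf
    simpa [ev, guessInput] using h j

theorem ev_upperAdj (n k : ℕ) (x : Fin n × Fin n → Bool) (y : Fin (k * Nat.clog 2 n) → Bool)
    (i i' : Fin k) :
    (upperAdj n k i i').ev (guessInput x y) = true ↔
      ∃ u u' : Fin n, (upperEq n k i u).ev (guessInput x y) = true ∧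
        (upperEq n k i' u').ev (guessInput x y) = true ∧ x (u, u') = true := by
  unfold upperAdj
  rw [ev_any]
  constructor
  · rintro ⟨f, hf, hv⟩
    obtain ⟨u, -, rfl⟩ := List.mem_map.1 hf
    rw [ev_any] at hv
    obtain ⟨f, hf, hv⟩ := hv
    obtain ⟨u', -, rfl⟩ := List.mem_map.1 hf
    simp only [ev, guessInput, Bool.and_eq_true] at hv
    exact ⟨u, u', hv.1, hv.2.1, hv.2.2⟩
  · rintro ⟨u, u', h1, h2, h3⟩
    refine ⟨_, List.mem_map.2 ⟨u, List.mem_finRange u, rfl⟩, ?_⟩
    rw [ev_any]
    refine ⟨_, List.mem_map.2 ⟨u', List.mem_finRange u', rfl⟩, ?_⟩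
    simp only [ev, guessInput, Bool.and_eq_true]
    exact ⟨h1, h2, h3⟩

theorem ev_upperForm (n k : ℕ) (x : Fin n × Fin n → Bool) (y : Fin (k * Nat.clog 2 n) → Bool) :
    (upperForm n k).ev (guessInput x y) = true ↔
      (∀ i : Fin k, ∃ u : Fin n, (upperEq n k i u).ev (guessInput x y) = true) ∧
      ∀ i i' : Fin k, i < i' → (upperAdj n k i i').ev (guessInput x y) = true := by
  unfold upperForm
  rw [ev, Bool.and_eq_true, ev_all, ev_all]
  constructor
  · rintro ⟨h1, h2⟩
    constructor
    · intro i
      have := h1 _ (List.mem_map.2 ⟨i, List.mem_finRange i, rfl⟩)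
      rw [ev_any] at this
      obtain ⟨f, hf, hv⟩ := this
      obtain ⟨u, -, rfl⟩ := List.mem_map.1 hf
      exact ⟨u, hv⟩
    · intro i i' hi
      have := h2 _ (List.mem_map.2 ⟨i, List.mem_finRange i, rfl⟩)
      rw [ev_all] at this
      have := this _ (List.mem_map.2 ⟨i', List.mem_finRange i', rfl⟩)
      simpa only [hi, if_true] using this
  · rintro ⟨h1, h2⟩
    constructor
    · intro f hf
      obtain ⟨i, -, rfl⟩ := List.mem_map.1 hf
      rw [ev_any]
      obtain ⟨u, hu⟩ := h1 i
      exact ⟨_, List.mem_map.2 ⟨u, List.mem_finRange u, rfl⟩, hu⟩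
    · intro f hf
      obtain ⟨i, -, rfl⟩ := List.mem_map.1 hf
      rw [ev_all]
      intro f hf
      obtain ⟨i', -, rfl⟩ := List.mem_map.1 hf
      by_cases hi : i < i'
      · simpa only [hi, if_true] using h2 i i' hi
      · simp only [hi, if_false, ev]

/-- PROOF. Let `m = Nat.clog 2 n` (`n ≤ 2 ^ m`). The guess is read as `v : Fin k → Fin m → Bool` (via
`finProdFinEquiv`); vertex number `i` is the `u : Fin n` whose binary digits are `v i`
(`Nat.testBit u j = v i j` for `j < m`). The formula is the conjunction over all `i` of the disjunction over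
all `u` of `[v i = u]`, and of the conjunction over all `i < i'` in `Fin k` of the disjunction over all
`u, u'` in `Fin n` of `[v i = u] ∧ [v i' = u'] ∧ x (u, u')`, where `[v i = u]` is the conjunction over
`j < m` of the literal `(inr (…, Nat.testBit u j))`. -/
theorem clique_upper (n k : ℕ) :
    ∃ C : List (Gate ((Fin n × Fin n) ⊕ (Fin (k * Nat.clog 2 n) × Bool))),
      negations C = 0 ∧ C.length ≤ 20 * (n + k + 1) ^ 5 ∧ GuessClique n k (k * Nat.clog 2 n) C := by
  refine ⟨(upperForm n k).comp, comp_negations _, ?_, ?_⟩
  · rw [comp_length]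
    refine (size_upperForm n k).trans (upper_bound_arith n k _ ?_)
    rcases Nat.eq_zero_or_pos n with rfl | hn
    · simp
    · exact Nat.clog_le_of_le_pow (le_of_lt Nat.lt_two_pow_self)
  · intro G _
    unfold Accepts
    constructor
    · rintro ⟨y, hy⟩
      rw [eval_comp, ev_upperForm] at hy
      obtain ⟨h1, h2⟩ := hy
      choose u hu using h1
      have hadj : ∀ i i' : Fin k, i < i' → G.Adj (u i) (u i') := by
        intro i i' hi
        obtain ⟨a, a', ha, ha', hx⟩ := (ev_upperAdj n k _ y i i').1 (h2 i i' hi)
        rw [ev_upperEq] at ha ha'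
        have e1 : a = u i := by
          apply upper_digits
          intro j
          rw [← ha j, ← (ev_upperEq n k _ y i (u i)).1 (hu i) j]
        have e2 : a' = u i' := by
          apply upper_digits
          intro j
          rw [← ha' j, ← (ev_upperEq n k _ y i' (u i')).1 (hu i') j]
        rw [e1, e2] at hx
        simpa using hx
      have hadj' : ∀ i i' : Fin k, i ≠ i' → G.Adj (u i) (u i') := by
        intro i i' hi
        rcases lt_or_gt_of_ne hi with h | h
        · exact hadj i i' h
        · exact (hadj i' i h).symm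
      have hinj : Function.Injective u := by
        intro i i' hi
        by_contra hne
        have := hadj' i i' hne
        rw [hi] at this
        exact G.loopless.irrefl _ this
      intro hfree
      refine hfree (Finset.univ.image u) ?_
      rw [SimpleGraph.isNClique_iff]
      constructor
      · intro a ha b hb hab
        simp only [Finset.coe_image, Finset.coe_univ, Set.image_univ, Set.mem_range] at ha hb
        obtain ⟨i, rfl⟩ := ha
        obtain ⟨i', rfl⟩ := hb
        exact hadj' i i' fun h => hab (by rw [h])
      · rw [Finset.card_image_of_injective _ hinj, Finset.card_univ, Fintype.card_fin]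
    · intro h
      rw [SimpleGraph.CliqueFree] at h
      push Not at h
      obtain ⟨s, hs⟩ := h
      rw [SimpleGraph.isNClique_iff] at hs
      obtain ⟨hc, hcard⟩ := hs
      let e := (Finset.equivFinOfCardEq hcard).symm
      refine ⟨fun p => Nat.testBit (e (finProdFinEquiv.symm p).1).1.1
        (finProdFinEquiv.symm p).2.1, ?_⟩
      rw [eval_comp, ev_upperForm]
      have key : ∀ i : Fin k, (upperEq n k i (e i).1).ev (guessInput
          (fun e => decide (G.Adj e.1 e.2)) (fun p => Nat.testBit (e (finProdFinEquiv.symm p).1).1.1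
            (finProdFinEquiv.symm p).2.1)) = true := by
        intro i
        rw [ev_upperEq]
        intro j
        simp
      refine ⟨fun i => ⟨(e i).1, key i⟩, ?_⟩
      intro i i' hi
      rw [ev_upperAdj]
      refine ⟨(e i).1, (e i').1, key i, key i', ?_⟩
      simp only [decide_eq_true_eq]
      apply hc (e i).2 (e i').2
      intro heq
      have : i = i' := e.injective (Subtype.ext heq)
      exact absurd hi (by rw [this]; exact lt_irrefl _)

end Pool.Agent.helper81.NL
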