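import Pool.Agent.helper81.NL.Lower

set_option autoImplicit false

/-!
# NG-8: the deterministic case (owner helper81)
-/

namespace Pool.Agent.helper81.NL

/-- rename the variables of a gate -/
def Gate.mapV {V W : Type} (f : V → W) : Gate V → Gate W
  | Gate.var v => Gate.var (f v)
  | Gate.const b => Gate.const b
  | Gate.and a b => Gate.and a b
  | Gate.or a b => Gate.or a b
  | Gate.not a => Gate.not a

theorem run_mapV {V W : Type} (f : V → W) (x : W → Bool) (C : List (Gate V)) :
    run x (C.map (Gate.mapV f)) = run (fun v => x (f v)) C := by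
  induction C with
  | nil => rfl
  | cons g C ih =>
    rw [List.map_cons, run, run, ih]
    cases g <;> rfl

theorem eval_mapV {V W : Type} (f : V → W) (x : W → Bool) (C : List (Gate V)) :
    eval (C.map (Gate.mapV f)) x = eval C (fun v => x (f v)) := by
  unfold eval
  rw [run_mapV]

theorem negations_mapV {V W : Type} (f : V → W) (C : List (Gate V)) :
    negations (C.map (Gate.mapV f)) = negations C := by
  unfold negations
  rw [List.countP_map]
  congr 1
  funext g
  cases g <;> rfl

/-- The lower bound for circuits without guess bits (from `lower_exp` with `g = 0`). -/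
theorem main2 (ε : ℝ) (hε : 0 < ε) : ∃ c : ℝ, 0 < c ∧ ∃ n₀ : ℕ, ∀ n ≥ n₀, ∀ k : ℕ,
    (n : ℝ) ^ ε ≤ k → 2 * k ≤ n → ∀ C : List (Gate (Fin n × Fin n)), DecidesClique n k C →
    (negations C : ℝ) ≤ (2 - ε) * Real.logb 2 n → (2 : ℝ) ^ ((n : ℝ) ^ c) ≤ C.length := by
  obtain ⟨c, hc, n₀, h⟩ := lower_exp ε hε
  refine ⟨c, hc, n₀, fun n hn k hk hkn C hC hneg => ?_⟩
  have h1 := h n hn k 0 hk hkn (C.map (Gate.mapV Sum.inl)) (by
    intro G _
    rw [← hC G]
    unfold Accepts
    simp only [eval_mapV]
    constructor
    · rintro ⟨y, hy⟩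
      exact hy
    · intro hy
      exact ⟨fun i => i.elim0, hy⟩) (Or.inl (by
    rw [negations_mapV]
    simpa using hneg))
  rwa [List.length_map] at h1

end Pool.Agent.helper81.NL
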