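import Pool.Agent.helper81.NL.PlantedB

set_option autoImplicit false
set_option synthInstance.maxSize 2000

/-!
# NL-5: the approximation method
-/

namespace Pool.Agent.helper81.NL

open scoped Classical

variable {k ν Q : ℕ} [NeZero Q] {l r : ℕ}

theorem approx_mono_cons {V : Type} {g : Gate V} {C : List (Gate V)} (h : Mono (g :: C)) :
    Mono C ∧ g.isNot = false := by
  unfold Mono negations at h ⊢
  rw [List.countP_eq_zero] at h ⊢
  exact ⟨fun a ha => h a (List.mem_cons_of_mem _ ha), by
    have := h g List.mem_cons_self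
    simpa using this⟩

theorem approx_has_empty (X : Ed k ν → Bool) : Has ∅ X := by
  intro e he
  unfold KS at he
  simp at he

theorem approx_has_pair (e : Ed k ν) (X : Ed k ν → Bool) :
    Has {((false, e.1.1), e.1.2), ((true, e.2.1), e.2.2)} X ↔ X e = true := by
  constructor
  · intro h
    refine h e ?_
    unfold KS
    simp
  · intro h e' he
    unfold KS at he
    rw [Bool.and_eq_true, decide_eq_true_eq, decide_eq_true_eq] at he
    simp only [Finset.mem_insert, Finset.mem_singleton, Prod.mk.injEq, Bool.false_eq_true,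
      Bool.true_eq_false, false_and, or_false, false_or, true_and] at he
    obtain ⟨⟨h1, h2⟩, h3, h4⟩ := he
    have h5 : e' = e := Prod.ext (Prod.ext h1 h2) (Prod.ext h3 h4)
    rw [h5]
    exact h

theorem approx_acc_mono {A B : Finset (Finset (Vx k ν))} (h : A ⊆ B) {X : Ed k ν → Bool}
    (hA : Acc A X) : Acc B X := by
  obtain ⟨S, hS, hX⟩ := hA
  exact ⟨S, h hS, hX⟩

theorem approx_const (hr : 2 ≤ r) (b : Bool) : ∃ A : Finset (Finset (Vx k ν)), Closed Q l r A ∧
    (∀ X, b = true → Acc A X) ∧ (∀ X, Acc A X → b = true) := by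
  cases b with
  | true =>
    refine ⟨_, closed_all, fun X _ => ⟨∅, ?_, approx_has_empty X⟩, fun _ _ => rfl⟩
    simp
  | false =>
    refine ⟨∅, closed_empty (by omega), fun X h => absurd h (by simp), fun X h => ?_⟩
    obtain ⟨S, hS, -⟩ := h
    simp at hS

/-- the new gate -/
theorem approx_gate (hr : 2 ≤ r) (hQ : 2 * l ^ 2 ≤ Q) (hν : 4 * l * r ≤ ν) (hl : 2 ≤ l)
    {V : Type} (σ : V → Bool ⊕ Ed k ν) (C : List (Gate V)) (g : Gate V) (hg : g.isNot = false)
    (Ep : Tr k ν → Prop) (En : (Ed k ν → Fin Q) → Prop) (A : ℕ → Finset (Finset (Vx k ν)))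
    (hA : ∀ a, Closed Q l r (A a) ∧
        (∀ P, ¬ Ep P → (run (subst σ (KP P)) C).getD a false = true → Acc (A a) (KP P)) ∧
        (∀ h, ¬ En h → Acc (A a) (hb h) → (run (subst σ (hb h)) C).getD a false = true)) :
    ∃ (Ep' : Tr k ν → Prop) (En' : (Ed k ν → Fin Q) → Prop) (B : Finset (Finset (Vx k ν))),
      pr Ep' ≤ 4 * (1 / 2) ^ l ∧
      pr En' ≤ ((2 * k * ν + 1 : ℕ) : ℝ) ^ l * (1 / 2) ^ r ∧
      Closed Q l r B ∧
      (∀ P, ¬ Ep P → ¬ Ep' P →
        g.val (subst σ (KP P)) (run (subst σ (KP P)) C) = true → Acc B (KP P)) ∧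
      (∀ h, ¬ En h → ¬ En' h → Acc B (hb h) →
        g.val (subst σ (hb h)) (run (subst σ (hb h)) C) = true) := by
  have e1 : pr (fun _ : Tr k ν => False) ≤ 4 * (1 / 2) ^ l := by
    rw [pr_false fun _ h => h]
    positivity
  have e2 : pr (fun _ : Ed k ν → Fin Q => False) ≤
      ((2 * k * ν + 1 : ℕ) : ℝ) ^ l * (1 / 2) ^ r := by
    rw [pr_false fun _ h => h]
    positivity
  cases g with
  | var v =>
    cases hv : σ v with
    | inl b =>
      obtain ⟨B, hB, hB1, hB2⟩ := approx_const (k := k) (ν := ν) (Q := Q) (l := l) hr b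
      have e3 : ∀ X, subst σ X v = b := fun X => by
        unfold subst
        rw [hv]
      refine ⟨_, _, B, e1, e2, hB, fun P _ _ h => hB1 _ ?_, fun h _ _ hX => ?_⟩
      · change subst σ (KP P) v = true at h
        rwa [e3] at h
      · change subst σ (hb h) v = true
        rw [e3]
        exact hB2 _ hX
    | inr e =>
      have e3 : ∀ X, subst σ X v = X e := fun X => by
        unfold subst
        rw [hv]
      have hcard : ∀ S ∈ ({{((false, e.1.1), e.1.2), ((true, e.2.1), e.2.2)}} :
          Finset (Finset (Vx k ν))), S.card ≤ l := by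
        intro S hS
        rw [Finset.mem_singleton] at hS
        rw [hS]
        exact Finset.card_le_two.trans hl
      obtain ⟨B, hB, hB1, hB2⟩ := exists_closure (Q := Q) (l := l) (r := r) _ hcard
      refine ⟨_, _, B, e1, hB2, hB, fun P _ _ h => ?_, fun h _ hE hX => ?_⟩
      · change subst σ (KP P) v = true at h
        rw [e3] at h
        refine approx_acc_mono hB1 ⟨_, Finset.mem_singleton_self _, ?_⟩
        exact (approx_has_pair e _).2 h
      · change subst σ (hb h) v = true
        rw [e3]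
        by_contra hne
        refine hE ⟨hX, fun hacc => hne ?_⟩
        obtain ⟨S, hS, hS2⟩ := hacc
        rw [Finset.mem_singleton] at hS
        rw [hS] at hS2
        exact (approx_has_pair e _).1 hS2
  | const b =>
    obtain ⟨B, hB, hB1, hB2⟩ := approx_const (k := k) (ν := ν) (Q := Q) (l := l) hr b
    exact ⟨_, _, B, e1, e2, hB, fun P _ _ h => hB1 _ h, fun h _ _ hX => hB2 _ hX⟩
  | and a b =>
    refine ⟨fun P => (∃ S ∈ A a, (∀ S' ∈ A a, S' ⊆ S → S' = S) ∧ l < 2 * S.card ∧ S ⊆ setP P) ∨
      (∃ S ∈ A b, (∀ S' ∈ A b, S' ⊆ S → S' = S) ∧ l < 2 * S.card ∧ S ⊆ setP P), _,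
      A a ∩ A b, ?_, e2, (hA a).1.inter (hA b).1, fun P h1 h2 h3 => ?_, fun h h1 _ h3 => ?_⟩
    · refine (pr_or_le _ _).trans ?_
      have h1 := (hA a).1.pr_big hr hQ hν (by omega)
      have h2 := (hA b).1.pr_big hr hQ hν (by omega)
      linarith
    · change ((run (subst σ (KP P)) C).getD a false && (run (subst σ (KP P)) C).getD b false) = true
        at h3
      rw [Bool.and_eq_true] at h3
      obtain ⟨S, hS, hS1, hS2⟩ := (hA a).1.exists_min ((hA a).2.1 P h1 h3.1)
      obtain ⟨S', hS', hS1', hS2'⟩ := (hA b).1.exists_min ((hA b).2.1 P h1 h3.2)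
      rw [not_or] at h2
      have hc : 2 * S.card ≤ l := by
        by_contra hc
        exact h2.1 ⟨S, hS, hS1, not_le.1 hc, hS2⟩
      have hc' : 2 * S'.card ≤ l := by
        by_contra hc
        exact h2.2 ⟨S', hS', hS1', not_le.1 hc, hS2'⟩
      have hcu : (S ∪ S').card ≤ l := (Finset.card_union_le _ _).trans (by omega)
      refine ⟨S ∪ S', ?_, has_of_subset_setP (Finset.union_subset hS2 hS2')⟩
      rw [Finset.mem_inter]
      exact ⟨(hA a).1.up hS Finset.subset_union_left hcu,
        (hA b).1.up hS' Finset.subset_union_right hcu⟩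
    · change ((run (subst σ (hb h)) C).getD a false && (run (subst σ (hb h)) C).getD b false) = true
      rw [Bool.and_eq_true]
      exact ⟨(hA a).2.2 h h1 (approx_acc_mono Finset.inter_subset_left h3),
        (hA b).2.2 h h1 (approx_acc_mono Finset.inter_subset_right h3)⟩
  | or a b =>
    have hcard : ∀ S ∈ A a ∪ A b, S.card ≤ l := by
      intro S hS
      rw [Finset.mem_union] at hS
      rcases hS with hS | hS
      · exact (hA a).1.1 S hS
      · exact (hA b).1.1 S hS
    obtain ⟨B, hB, hB1, hB2⟩ := exists_closure (Q := Q) (l := l) (r := r) _ hcard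
    refine ⟨_, _, B, e1, hB2, hB, fun P h1 _ h3 => ?_, fun h h1 hE hX => ?_⟩
    · change ((run (subst σ (KP P)) C).getD a false || (run (subst σ (KP P)) C).getD b false) = true
        at h3
      rw [Bool.or_eq_true] at h3
      refine approx_acc_mono hB1 ?_
      rcases h3 with h3 | h3
      · exact approx_acc_mono Finset.subset_union_left ((hA a).2.1 P h1 h3)
      · exact approx_acc_mono Finset.subset_union_right ((hA b).2.1 P h1 h3)
    · change ((run (subst σ (hb h)) C).getD a false || (run (subst σ (hb h)) C).getD b false) = true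
      rw [Bool.or_eq_true]
      by_contra hne
      refine hE ⟨hX, fun hacc => hne ?_⟩
      obtain ⟨S, hS, hS2⟩ := hacc
      rw [Finset.mem_union] at hS
      rcases hS with hS | hS
      · exact Or.inl ((hA a).2.2 h h1 ⟨S, hS, hS2⟩)
      · exact Or.inr ((hA b).2.2 h h1 ⟨S, hS, hS2⟩)
  | not a =>
    exact absurd hg (by simp [Gate.isNot])

/-- Approximators for all gates at once. PROOF: induction on `C`. For the new gate `g :: C` the values
`getD (a + 1)` are those of `C` (keep the families `𝒜 a`); put for the index `0`: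
* `var v` with `σ v = inl b`, or `const b`: the family of all sets of card `≤ l` (`closed_all`) if `b`,
  the empty family (`closed_empty`) if not `b`; no new error.
* `var v` with `σ v = inr e`: `exists_closure` for `A₀ = {{((false, e.1.1), e.1.2), ((true, e.2.1), e.2.2)}}`
  (`Acc A₀ X ↔ X e = true`, since the only edge of this `KS` is `e`); new negative error
  `Acc A (hb h) ∧ ¬ Acc A₀ (hb h)`.
* `or a b`: closure of `𝒜 a ∪ 𝒜 b`; `Acc` of a union is the disjunction.
* `and a b`: `𝒜 a ∩ 𝒜 b` (`Closed.inter`). Negative side: `Acc (A ∩ B) X → Acc A X ∧ Acc B X`. Positive side: add to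
  `Ep` the two events of `Closed.pr_big` for `𝒜 a` and `𝒜 b` (probability `≤ 2 * 2 * (1/2)^l`). Outside, if
  `Acc (𝒜 a) (KP P)` and `Acc (𝒜 b) (KP P)`, take minimal members `S ∈ 𝒜 a`, `S' ∈ 𝒜 b` inside `setP P`
  (`Closed.exists_min`); then `2 * S.card ≤ l`, `2 * S'.card ≤ l`, so `(S ∪ S').card ≤ l`, and `S ∪ S'` is in both
  families by `Closed.up`; `has_of_subset_setP`.
* `not`: impossible by `Mono`.
The base case `[]`: all values are `false`; take all families empty. Indices beyond the length: also `false`. -/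
theorem approx_aux (hr : 2 ≤ r) (hQ : 2 * l ^ 2 ≤ Q) (hν : 4 * l * r ≤ ν) (hl : 2 ≤ l) {V : Type}
    (σ : V → Bool ⊕ Ed k ν) (C : List (Gate V)) (hC : Mono C) :
    ∃ (Ep : Tr k ν → Prop) (En : (Ed k ν → Fin Q) → Prop) (A : ℕ → Finset (Finset (Vx k ν))),
      pr Ep ≤ C.length * (4 * (1 / 2) ^ l) ∧
      pr En ≤ C.length * (((2 * k * ν + 1 : ℕ) : ℝ) ^ l * (1 / 2) ^ r) ∧
      ∀ a, Closed Q l r (A a) ∧
        (∀ P, ¬ Ep P → (run (subst σ (KP P)) C).getD a false = true → Acc (A a) (KP P)) ∧
        (∀ h, ¬ En h → Acc (A a) (hb h) → (run (subst σ (hb h)) C).getD a false = true) := by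
  induction C with
  | nil =>
    refine ⟨fun _ => False, fun _ => False, fun _ => ∅, ?_, ?_, fun a => ⟨closed_empty (by omega),
      fun P _ h => ?_, fun h _ hX => ?_⟩⟩
    · rw [pr_false fun _ h => h]
      simp
    · rw [pr_false fun _ h => h]
      simp
    · exact absurd h (by simp [run])
    · obtain ⟨S, hS, -⟩ := hX
      simp at hS
  | cons g C ih =>
    obtain ⟨hC1, hg⟩ := approx_mono_cons hC
    obtain ⟨Ep, En, A, h1, h2, h3⟩ := ih hC1
    obtain ⟨Ep', En', B, h4, h5, h6, h7, h8⟩ := approx_gate hr hQ hν hl σ C g hg Ep En A h3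
    refine ⟨fun P => Ep P ∨ Ep' P, fun h => En h ∨ En' h, fun a => Nat.casesOn a B A, ?_, ?_,
      fun a => ?_⟩
    · refine (pr_or_le _ _).trans ?_
      rw [List.length_cons]
      push_cast
      linarith
    · refine (pr_or_le _ _).trans ?_
      rw [List.length_cons]
      push_cast at h2 h5 ⊢
      linarith
    · cases a with
      | zero =>
        refine ⟨h6, fun P hP hv => h7 P (fun h => hP (Or.inl h)) (fun h => hP (Or.inr h)) ?_,
          fun h hE hX => ?_⟩
        · simpa [run] using hv
        · have := h8 h (fun h => hE (Or.inl h)) (fun h => hE (Or.inr h)) hX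
          simpa [run] using this
      | succ a =>
        refine ⟨(h3 a).1, fun P hP hv => (h3 a).2.1 P (fun h => hP (Or.inl h)) ?_,
          fun h hE hX => ?_⟩
        · simpa [run] using hv
        · have := (h3 a).2.2 h (fun h => hE (Or.inl h)) hX
          simpa [run] using this

/-- PROOF: from `approx_aux` at the index `0`, `Closed.pr_planted_le` and `av_le_add_pr`. -/
theorem approx (hr : 2 ≤ r) (hQ : 2 * l ^ 2 ≤ Q) (hν : 4 * l * r ≤ ν) (hl : 2 ≤ l) {V : Type}
    (σ : V → Bool ⊕ Ed k ν) (C : List (Gate V)) (hC : Mono C) :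
    av (fun P : Tr k ν => ind (eval C (subst σ (KP P)))) ≤
      av (fun h : Ed k ν → Fin Q => ind (eval C (subst σ (hb h)))) + C.length * err k ν l r := by
  obtain ⟨Ep, En, A, h1, h2, h3⟩ := approx_aux hr hQ hν hl σ C hC
  obtain ⟨hA, hp, hn⟩ := h3 0
  have e1 : av (fun P : Tr k ν => ind (eval C (subst σ (KP P)))) ≤
      pr (fun P : Tr k ν => Acc (A 0) (KP P)) + pr Ep := by
    unfold pr
    refine av_le_add_pr Ep (fun P hP => ?_) (fun P => ind_le_one _) (fun P => ?_)
    · by_cases h : eval C (subst σ (KP P)) = true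
      · rw [if_pos (hp P hP h)]
        exact ind_le_one _
      · rw [Bool.not_eq_true] at h
        rw [h]
        have : ind false = 0 := rfl
        rw [this]
        split_ifs <;> norm_num
    · split_ifs <;> norm_num
  have e2 := hA.pr_planted_le hr hQ hν (by omega)
  have e3 : pr (fun h : Ed k ν → Fin Q => Acc (A 0) (hb h)) ≤
      av (fun h : Ed k ν → Fin Q => ind (eval C (subst σ (hb h)))) + pr En := by
    refine av_le_add_pr En (fun h hE => ?_) (fun h => ?_) (fun h => ind_nonneg _)
    · by_cases hX : Acc (A 0) (hb h)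
      · have h4 : eval C (subst σ (hb h)) = true := hn h hE hX
        rw [h4, if_pos hX]
        exact le_refl (1 : ℝ)
      · rw [if_neg hX]
        exact ind_nonneg _
    · split_ifs <;> norm_num
  unfold err
  rw [mul_add]
  linarith

end Pool.Agent.helper81.NL
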