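import Pool.Agent.helper81.NL.Base

set_option autoImplicit false

/-!
# NL: lemmas on averages
-/

namespace Pool.Agent.helper81.NL

open scoped Classical

variable {α β ι : Type*} [Fintype α] [Fintype β]

theorem av_const [Nonempty α] (c : ℝ) : av (fun _ : α => c) = c := by
  unfold av
  rw [Finset.sum_const, Finset.card_univ, nsmul_eq_mul]
  have : (Fintype.card α : ℝ) ≠ 0 := Nat.cast_ne_zero.2 Fintype.card_ne_zero
  field_simp

theorem av_add (f g : α → ℝ) : av (fun a => f a + g a) = av f + av g := by
  unfold av
  rw [Finset.sum_add_distrib, add_div]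

theorem av_sub (f g : α → ℝ) : av (fun a => f a - g a) = av f - av g := by
  unfold av
  rw [Finset.sum_sub_distrib, sub_div]

theorem av_mul_left (c : ℝ) (f : α → ℝ) : av (fun a => c * f a) = c * av f := by
  unfold av
  rw [← Finset.mul_sum, mul_div_assoc]

theorem av_mul_right (c : ℝ) (f : α → ℝ) : av (fun a => f a * c) = av f * c := by
  unfold av
  rw [← Finset.sum_mul, div_mul_eq_mul_div]

theorem av_sum (s : Finset ι) (f : ι → α → ℝ) :
    av (fun a => ∑ i ∈ s, f i a) = ∑ i ∈ s, av (f i) := by
  unfold av
  rw [Finset.sum_comm, Finset.sum_div]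

theorem av_mono {f g : α → ℝ} (h : ∀ a, f a ≤ g a) : av f ≤ av g := by
  unfold av
  exact div_le_div_of_nonneg_right (Finset.sum_le_sum fun a _ => h a) (Nat.cast_nonneg _)

theorem av_nonneg {f : α → ℝ} (h : ∀ a, 0 ≤ f a) : 0 ≤ av f := by
  unfold av
  exact div_nonneg (Finset.sum_nonneg fun a _ => h a) (Nat.cast_nonneg _)

theorem av_le [Nonempty α] {f : α → ℝ} {c : ℝ} (h : ∀ a, f a ≤ c) : av f ≤ c :=
  (av_mono h).trans_eq (av_const c)

theorem le_av [Nonempty α] {f : α → ℝ} {c : ℝ} (h : ∀ a, c ≤ f a) : c ≤ av f :=
  (av_const (α := α) c).symm.trans_le (av_mono h)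

theorem av_prod (f : α × β → ℝ) : av f = av fun a => av fun b => f (a, b) := by
  unfold av
  rw [Fintype.sum_prod_type, Fintype.card_prod, Nat.cast_mul, ← Finset.sum_div, div_div,
    mul_comm (Fintype.card α : ℝ)]

theorem av_comm (f : α → β → ℝ) :
    av (fun a => av fun b => f a b) = av fun b => av fun a => f a b := by
  unfold av
  rw [← Finset.sum_div, ← Finset.sum_div, Finset.sum_comm, div_div, div_div, mul_comm]

theorem av_equiv (e : α ≃ β) (f : β → ℝ) : av (fun a => f (e a)) = av f := by
  unfold av
  rw [Equiv.sum_comp e f, Fintype.card_congr e]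

theorem av_update [Fintype ι] [DecidableEq ι] (j : ι) (f : (ι → α) → ℝ) :
    av f = av fun x => av fun y => f (Function.update x j y) := by
  rcases isEmpty_or_nonempty α with hα | hα
  · have : IsEmpty (ι → α) := ⟨fun x => hα.elim (x j)⟩
    unfold av
    simp
  · unfold av
    rw [← Finset.sum_div, div_div]
    have hc : (Fintype.card α : ℝ) ≠ 0 := Nat.cast_ne_zero.2 Fintype.card_ne_zero
    have hc' : (Fintype.card (ι → α) : ℝ) ≠ 0 := Nat.cast_ne_zero.2 Fintype.card_ne_zero
    have key : (∑ x : ι → α, ∑ y, f (Function.update x j y)) = Fintype.card α * ∑ x, f x := by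
      have h1 : ∀ x : ι → α, (∑ y, f (Function.update x j y)) =
          ∑ p ∈ (Finset.univ : Finset (ι → α)).filter (fun p => ∀ i, i ≠ j → p i = x i), f p := by
        intro x
        refine Finset.sum_bij' (fun y _ => Function.update x j y) (fun p _ => p j) ?_ ?_ ?_ ?_ ?_
        · intro y _
          rw [Finset.mem_filter]
          exact ⟨Finset.mem_univ _, fun i hi => Function.update_of_ne hi _ _⟩
        · intro p _
          exact Finset.mem_univ _
        · intro y _
          exact Function.update_self _ _ _
        · intro p hp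
          rw [Finset.mem_filter] at hp
          funext i
          by_cases hi : i = j
          · subst hi
            exact Function.update_self _ _ _
          · rw [Function.update_of_ne hi, hp.2 i hi]
        · intro y _
          rfl
      rw [Finset.sum_congr rfl fun x _ => h1 x]
      simp only [Finset.sum_filter]
      rw [Finset.sum_comm, Finset.mul_sum]
      refine Finset.sum_congr rfl fun p _ => ?_
      rw [← Finset.sum_filter, Finset.sum_const, nsmul_eq_mul]
      congr 1
      have : ((Finset.univ : Finset (ι → α)).filter fun x => ∀ i, i ≠ j → p i = x i) =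
          Finset.univ.image fun y => Function.update p j y := by
        ext x
        rw [Finset.mem_filter, Finset.mem_image]
        constructor
        · intro h
          refine ⟨x j, Finset.mem_univ _, ?_⟩
          funext i
          by_cases hi : i = j
          · subst hi
            exact Function.update_self _ _ _
          · rw [Function.update_of_ne hi, h.2 i hi]
        · rintro ⟨y, _, rfl⟩
          exact ⟨Finset.mem_univ _, fun i hi => (Function.update_of_ne hi _ _).symm⟩
      rw [this, Finset.card_image_of_injective _ (Function.update_injective p j), Finset.card_univ]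
    rw [key]
    field_simp

theorem av_pi_prod {ι : Type*} [Fintype ι] [DecidableEq ι] (f : ι → α → ℝ) :
    av (fun x : ι → α => ∏ i, f i (x i)) = ∏ i, av (f i) := by
  unfold av
  rw [Finset.prod_div_distrib, Finset.prod_univ_sum, Fintype.piFinset_univ]
  congr 1
  rw [Fintype.card_pi, Nat.cast_prod]

/-- Swap the coordinates outside `A` of two vectors. -/
def swapE {ι : Type*} [DecidableEq ι] (A : Finset ι) :
    ((ι → α) × (ι → α)) ≃ ((ι → α) × (ι → α)) where
  toFun p := (fun i => if i ∈ A then p.1 i else p.2 i, fun i => if i ∈ A then p.2 i else p.1 i)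
  invFun p := (fun i => if i ∈ A then p.1 i else p.2 i, fun i => if i ∈ A then p.2 i else p.1 i)
  left_inv := by
    rintro ⟨x, y⟩
    ext i <;> by_cases hi : i ∈ A <;> simp [hi]
  right_inv := by
    rintro ⟨x, y⟩
    ext i <;> by_cases hi : i ∈ A <;> simp [hi]

theorem av_piecewise {ι : Type*} [Fintype ι] [DecidableEq ι] [Nonempty α] (A : Finset ι)
    (F : (ι → α) → ℝ) :
    av (fun x : ι → α => av fun y : ι → α => F fun i => if i ∈ A then x i else y i) = av F := by
  rw [← av_prod (f := fun p : (ι → α) × (ι → α) => F fun i => if i ∈ A then p.1 i else p.2 i)]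
  have h := av_equiv (swapE (α := α) A) fun p : (ι → α) × (ι → α) => F p.1
  have h2 : av (fun p : (ι → α) × (ι → α) => F p.1) = av F := by
    rw [av_prod]
    congr 1
    funext x
    exact av_const (α := ι → α) (F x)
  rw [← h2, ← h]
  rfl

/-- Independence: `f` depends only on the coordinates in `A`, `g` only on the other ones. -/
theorem av_mul_of_dep {ι : Type*} [Fintype ι] [DecidableEq ι] [Nonempty α] (A : Finset ι)
    (f g : (ι → α) → ℝ) (hf : ∀ x y : ι → α, (∀ i ∈ A, x i = y i) → f x = f y)
    (hg : ∀ x y : ι → α, (∀ i, i ∉ A → x i = y i) → g x = g y) :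
    av (fun x => f x * g x) = av f * av g := by
  rw [← av_piecewise A fun x => f x * g x]
  have h1 : ∀ x y : ι → α, f (fun i => if i ∈ A then x i else y i) = f x := fun x y =>
    hf _ _ fun i hi => if_pos hi
  have h2 : ∀ x y : ι → α, g (fun i => if i ∈ A then x i else y i) = g y := fun x y =>
    hg _ _ fun i hi => if_neg hi
  simp only [h1, h2]
  have h3 : (fun x : ι → α => av fun y : ι → α => f x * g y) = fun x => f x * av g := by
    funext x
    exact av_mul_left _ _
  rw [h3, av_mul_right]

theorem av_bool (f : Bool → ℝ) : av f = (f true + f false) / 2 := by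
  unfold av
  rw [Fintype.sum_bool, Fintype.card_bool]
  norm_num

theorem av_abs_le_sqrt (f : α → ℝ) :
    av (fun a => |f a|) ≤ Real.sqrt (av fun a => f a ^ 2) := by
  rcases isEmpty_or_nonempty α with hα | hα
  · unfold av
    simp
  · apply Real.le_sqrt_of_sq_le
    have hc : (0 : ℝ) < Fintype.card α := Nat.cast_pos.2 Fintype.card_pos
    unfold av
    rw [div_pow, div_le_div_iff₀ (by positivity) hc]
    have h := sq_sum_le_card_mul_sum_sq (s := (Finset.univ : Finset α)) (f := fun a => |f a|)
    simp only [sq_abs, Finset.card_univ] at h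
    nlinarith [h, hc]

theorem ind_nonneg (b : Bool) : 0 ≤ ind b := by cases b <;> simp [ind]

theorem ind_le_one (b : Bool) : ind b ≤ 1 := by cases b <;> simp [ind]

theorem ind_mono {b c : Bool} (h : b = true → c = true) : ind b ≤ ind c := by
  cases b <;> cases c <;> simp_all [ind]

theorem pr_mono {p q : α → Prop} (h : ∀ a, p a → q a) : pr p ≤ pr q := by
  refine av_mono fun a => ?_
  by_cases hp : p a
  · simp [hp, h a hp]
  · by_cases hq : q a <;> simp [hp, hq]

theorem pr_congr {p q : α → Prop} (h : ∀ a, p a ↔ q a) : pr p = pr q :=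
  le_antisymm (pr_mono fun a => (h a).1) (pr_mono fun a => (h a).2)

theorem pr_nonneg (p : α → Prop) : 0 ≤ pr p :=
  av_nonneg fun a => by by_cases hp : p a <;> simp [hp]

theorem pr_le_one (p : α → Prop) : pr p ≤ 1 := by
  rcases isEmpty_or_nonempty α with hα | hα
  · unfold pr av
    simp
  · exact av_le fun a => by by_cases hp : p a <;> simp [hp]

theorem pr_or_le (p q : α → Prop) : pr (fun a => p a ∨ q a) ≤ pr p + pr q := by
  unfold pr
  rw [← av_add]
  refine av_mono fun a => ?_
  by_cases hp : p a <;> by_cases hq : q a <;> simp [hp, hq]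

theorem pr_exists_le (s : Finset ι) (p : ι → α → Prop) :
    pr (fun a => ∃ i ∈ s, p i a) ≤ ∑ i ∈ s, pr (p i) := by
  unfold pr
  rw [← av_sum]
  refine av_mono fun a => ?_
  by_cases h : ∃ i ∈ s, p i a
  · obtain ⟨i, hi, hp⟩ := h
    rw [if_pos ⟨i, hi, hp⟩]
    have h1 : (if p i a then (1 : ℝ) else 0) = 1 := if_pos hp
    have h2 := Finset.single_le_sum (f := fun i => if p i a then (1 : ℝ) else 0)
      (fun j _ => by by_cases hj : p j a <;> simp [hj]) hi
    exact h1.symm.trans_le h2
  · rw [if_neg h]
    exact Finset.sum_nonneg fun j _ => by by_cases hj : p j a <;> simp [hj]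

theorem pr_true [Nonempty α] {p : α → Prop} (h : ∀ a, p a) : pr p = 1 := by
  have h1 : pr p = av fun _ : α => (1 : ℝ) := by
    unfold pr
    congr 1
    funext a
    simp [h a]
  rw [h1, av_const]

theorem pr_not [Nonempty α] (p : α → Prop) : pr (fun a => ¬ p a) = 1 - pr p := by
  have h1 : pr (fun a => ¬ p a) + pr p = av fun _ : α => (1 : ℝ) := by
    unfold pr
    rw [← av_add]
    congr 1
    funext a
    by_cases hp : p a <;> simp [hp]
  rw [av_const] at h1
  linarith

theorem pr_false {p : α → Prop} (h : ∀ a, ¬ p a) : pr p = 0 := by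
  unfold pr
  have : (fun a => if p a then (1 : ℝ) else 0) = fun _ => 0 := by
    funext a
    simp [h a]
  rw [this]
  unfold av
  simp

theorem pr_eq_card (p : α → Prop) :
    pr p = ((Finset.univ.filter p).card : ℝ) / Fintype.card α := by
  unfold pr av
  rw [Finset.sum_boole]

theorem pr_equiv (e : α ≃ β) (p : β → Prop) : pr (fun a => p (e a)) = pr p :=
  av_equiv e fun b => if p b then (1 : ℝ) else 0

/-- If `f ≤ g` outside an event, and `f ≤ 1`, `0 ≤ g`, then `av f ≤ av g + pr`. -/
theorem av_le_add_pr {f g : α → ℝ} (p : α → Prop) (h : ∀ a, ¬ p a → f a ≤ g a)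
    (hf : ∀ a, f a ≤ 1) (hg : ∀ a, 0 ≤ g a) : av f ≤ av g + pr p := by
  unfold pr
  rw [← av_add]
  refine av_mono fun a => ?_
  by_cases hp : p a
  · simp only [hp, if_true]
    linarith [hf a, hg a]
  · simp only [hp, if_false, add_zero]
    exact h a hp

end Pool.Agent.helper81.NL
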