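import Pool.Agent.helper81.NL.Defs

set_option autoImplicit false

/-!
# NL: uniform averages, blocks, closed families (definitions used by all modules)
-/

namespace Pool.Agent.helper81.NL

open scoped Classical

/-- The average of a function on a finite type. -/
noncomputable def av {α : Type*} [Fintype α] (f : α → ℝ) : ℝ := (∑ a, f a) / Fintype.card α

/-- The probability (for the uniform distribution on a finite type). -/
noncomputable def pr {α : Type*} [Fintype α] (p : α → Prop) : ℝ := av fun a => if p a then 1 else 0

/-- `0` or `1`. -/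
def ind (b : Bool) : ℝ := if b then 1 else 0

/-- A circuit without NOT gates. -/
def Mono {V : Type} (C : List (Gate V)) : Prop := negations C = 0

/-- The edges of a block: pairs of a left vertex and a right vertex; a vertex is a part (`Fin k`) together
with a point of this part (`Fin ν`). -/
abbrev Ed (k ν : ℕ) : Type := (Fin k × Fin ν) × (Fin k × Fin ν)

/-- The parts of a block: `(false, i)` left parts, `(true, i)` right parts. -/
abbrev Pt (k : ℕ) : Type := Bool × Fin k

/-- The vertices of a block. -/
abbrev Vx (k ν : ℕ) : Type := Pt k × Fin ν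

/-- A transversal: a point in each of the `2 k` parts. -/
abbrev Tr (k ν : ℕ) : Type := Pt k → Fin ν

/-- The complete bipartite graph on a set of vertices. -/
def KS {k ν : ℕ} (S : Finset (Vx k ν)) (e : Ed k ν) : Bool :=
  decide (((false, e.1.1), e.1.2) ∈ S) && decide (((true, e.2.1), e.2.2) ∈ S)

/-- The complete bipartite graph on a transversal. -/
def KP {k ν : ℕ} (P : Tr k ν) (e : Ed k ν) : Bool :=
  decide (P (false, e.1.1) = e.1.2) && decide (P (true, e.2.1) = e.2.2)

/-- The set of vertices of a transversal. -/
def setP {k ν : ℕ} (P : Tr k ν) : Finset (Vx k ν) := Finset.univ.image fun i => (i, P i)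

/-- A random layer: the edge `e` is present iff `h e ≠ 0` (so with probability `1 - 1/Q`). -/
def hb {k ν Q : ℕ} [NeZero Q] (h : Ed k ν → Fin Q) (e : Ed k ν) : Bool := decide (h e ≠ 0)

/-- `X` contains the complete bipartite graph on `S`. -/
def Has {k ν : ℕ} (S : Finset (Vx k ν)) (X : Ed k ν → Bool) : Prop := ∀ e, KS S e = true → X e = true

/-- The approximator given by a family of vertex sets. -/
def Acc {k ν : ℕ} (A : Finset (Finset (Vx k ν))) (X : Ed k ν → Bool) : Prop := ∃ S ∈ A, Has S X

/-- Closed families (of sets with at most `l` elements): a set `S` belongs to the family as soon as the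
approximator accepts the union of a random layer with `KS S` with probability more than `1 - 2^(-r)`. -/
def Closed {k ν : ℕ} (Q : ℕ) [NeZero Q] (l r : ℕ) (A : Finset (Finset (Vx k ν))) : Prop :=
  (∀ S ∈ A, S.card ≤ l) ∧
  ∀ S : Finset (Vx k ν), S.card ≤ l →
    pr (fun h : Ed k ν → Fin Q => ¬ Acc A fun e => hb h e || KS S e) ≤ (1 / 2) ^ r → S ∈ A

/-- Substitution: every variable of the circuit is a constant or a variable of the block. -/
def subst {V E : Type} (σ : V → Bool ⊕ E) (X : E → Bool) (v : V) : Bool :=
  match σ v with
  | Sum.inl b => b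
  | Sum.inr e => X e

/-- The graph of level `i`: the union of the layers `0, …, i`. -/
def lev {k ν Q T : ℕ} [NeZero Q] (hs : Fin T → Ed k ν → Fin Q) (i : ℕ) (e : Ed k ν) : Bool :=
  decide (∃ j : Fin T, j.1 ≤ i ∧ hs j e ≠ 0)

/-- `X` contains the complete bipartite graph on some transversal. -/
def Bic {k ν : ℕ} (X : Ed k ν → Bool) : Prop := ∃ P : Tr k ν, ∀ e, KP P e = true → X e = true

/-- The randomness of one block: `T` layers and a transversal. -/
abbrev Om (k ν Q T : ℕ) : Type := (Fin T → Ed k ν → Fin Q) × Tr k ν

/-- A block with the bit `b`, at level `i`: the layers up to `i`, together with the planted transversal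
if `b`. -/
def blk {k ν Q T : ℕ} [NeZero Q] (b : Bool) (i : ℕ) (ω : Om k ν Q T) (e : Ed k ν) : Bool :=
  lev ω.1 i e || (b && KP ω.2 e)

/-- The names of the blocks: tribes `Fin L × Fin L`, and `w` blocks in each tribe. -/
abbrev Bk (L w : ℕ) : Type := (Fin L × Fin L) × Fin w

/-- Tribes: some tribe has only ones. -/
def tribes {L w : ℕ} (b : Bk L w → Bool) : Bool := decide (∃ i, ∀ j, b (i, j) = true)

/-- The level used in the block with bit `b` and shift variable `ρ : Fin T`: `ρ` if `b`, and `ρ + 1`
modulo `T` if not `b`. -/
def shf {T : ℕ} (b : Bool) (ρ : Fin T) : ℕ := if b then ρ.1 else (ρ.1 + 1) % T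

/-- The average of `g` over the coordinates in `J`, the other ones being those of `b`. -/
noncomputable def avJ {B : Type*} [Fintype B] [DecidableEq B] (J : Finset B) (g : (B → Bool) → ℝ)
    (b : B → Bool) : ℝ :=
  av fun b' : B → Bool => g fun i => if i ∈ J then b' i else b i

/-- The discrete derivative. -/
def dd {B : Type*} [DecidableEq B] (j : B) (f : (B → Bool) → ℝ) (b : B → Bool) : ℝ :=
  f (Function.update b j true) - f (Function.update b j false)

/-- The input of all blocks: `b` the bits, `ρ` the shift variables, `ω` the randomness. -/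
def inp {k ν Q T L w : ℕ} [NeZero Q] (b : Bk L w → Bool) (ρ : Bk L w → Fin T)
    (ω : Bk L w → Om k ν Q T) (p : Bk L w × Ed k ν) : Bool :=
  blk (b p.1) (shf (b p.1) (ρ p.1)) (ω p.1) p.2

/-- The blocks which are not revealed: the shift variable is not the last one. -/
def hid {T L w : ℕ} (ρ : Bk L w → Fin T) : Finset (Bk L w) :=
  Finset.univ.filter fun j => (ρ j).1 + 1 ≠ T

/-- The error per gate in the approximation method. -/
noncomputable def err (k ν l r : ℕ) : ℝ :=
  4 * (1 / 2) ^ l + ((2 * k * ν + 1 : ℕ) : ℝ) ^ l * (1 / 2) ^ r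

end Pool.Agent.helper81.NL
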