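import Pool.Agent.helper81.NL.Avg

set_option autoImplicit false
set_option synthInstance.maxSize 2000

/-!
# NL-10: no biclique in the unplanted blocks
-/

namespace Pool.Agent.helper81.NL

open scoped Classical

variable {k ν Q T : ℕ} [NeZero Q]

theorem bic_planted (i : ℕ) (ω : Om k ν Q T) : Bic (blk true i ω) := by
  refine ⟨ω.2, fun e he => ?_⟩
  unfold blk
  rw [he]
  simp

/-- the event for a transversal -/
def BicM_ev (P : Tr k ν) (hs : Fin T → Ed k ν → Fin Q) : Prop :=
  ∀ e, KP P e = true → ∃ j, hs j e ≠ 0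

theorem BicM_pr_one : pr (fun z : Fin T → Fin Q => ∃ j, z j ≠ 0) = 1 - (1 / (Q : ℝ)) ^ T := by
  have h1 : pr (fun z : Fin T → Fin Q => ∃ j, z j ≠ 0) =
      pr (fun z : Fin T → Fin Q => ¬ ∀ j, z j = 0) :=
    pr_congr fun z => by rw [not_forall]
  rw [h1, pr_not, pr_eq_card]
  have h2 : ∀ inst : DecidablePred fun z : Fin T → Fin Q => ∀ j, z j = 0,
      @Finset.filter (Fin T → Fin Q) (fun z => ∀ j, z j = 0) inst Finset.univ = {fun _ => 0} := by
    intro inst
    ext z
    rw [Finset.mem_filter, Finset.mem_singleton]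
    constructor
    · intro h
      funext j
      exact h.2 j
    · rintro rfl
      exact ⟨Finset.mem_univ _, fun _ => rfl⟩
  have h3 : Fintype.card (Fin T → Fin Q) = Q ^ T := by
    rw [Fintype.card_fun, Fintype.card_fin, Fintype.card_fin]
  rw [h2, Finset.card_singleton, h3]
  push_cast
  rw [one_div, one_div, inv_pow]

theorem BicM_card (P : Tr k ν) :
    ((Finset.univ : Finset (Ed k ν)).filter fun e => KP P e = true).card = k ^ 2 := by
  have h : ((Finset.univ : Finset (Ed k ν)).filter fun e => KP P e = true) =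
      (Finset.univ : Finset (Fin k × Fin k)).image
        fun q => ((q.1, P (false, q.1)), (q.2, P (true, q.2))) := by
    ext e
    rw [Finset.mem_filter, Finset.mem_image]
    unfold KP
    constructor
    · rintro ⟨-, h⟩
      rw [Bool.and_eq_true, decide_eq_true_eq, decide_eq_true_eq] at h
      exact ⟨(e.1.1, e.2.1), Finset.mem_univ _, by rw [h.1, h.2]⟩
    · rintro ⟨q, -, rfl⟩
      exact ⟨Finset.mem_univ _, by simp⟩
  rw [h, Finset.card_image_of_injective, Finset.card_univ, Fintype.card_prod, Fintype.card_fin, sq]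
  intro q q' hq
  have h1 : q.1 = q'.1 := congrArg (fun e => e.1.1) hq
  have h2 : q.2 = q'.2 := congrArg (fun e => e.2.1) hq
  exact Prod.ext h1 h2

/-- the event for one edge -/
def BicM_R (P : Tr k ν) (e : Ed k ν) (z : Fin T → Fin Q) : Prop :=
  KP P e = true → ∃ j, z j ≠ 0

theorem BicM_pr_ev (P : Tr k ν) :
    pr (fun hs : Fin T → Ed k ν → Fin Q => BicM_ev P hs) = (1 - (1 / (Q : ℝ)) ^ T) ^ (k ^ 2) := by
  have h1 : pr (fun hs : Fin T → Ed k ν → Fin Q => BicM_ev P hs) =
      pr (fun y : Ed k ν → Fin T → Fin Q => ∀ e, BicM_R P e (y e)) :=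
    pr_equiv (Equiv.piComm fun (_ : Fin T) (_ : Ed k ν) => Fin Q)
      (fun y : Ed k ν → Fin T → Fin Q => ∀ e, BicM_R P e (y e))
  rw [h1]
  have h2 : pr (fun y : Ed k ν → Fin T → Fin Q => ∀ e, BicM_R P e (y e)) =
      av (fun y : Ed k ν → Fin T → Fin Q =>
        ∏ e, (fun (e : Ed k ν) (z : Fin T → Fin Q) => if BicM_R P e z then (1 : ℝ) else 0)
          e (y e)) := by
    unfold pr
    congr 1
    funext y
    by_cases h : ∀ e, BicM_R P e (y e)
    · rw [if_pos h, Finset.prod_eq_one]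
      intro e _
      exact if_pos (h e)
    · rw [if_neg h]
      obtain ⟨e, he⟩ := not_forall.1 h
      exact (Finset.prod_eq_zero (Finset.mem_univ e) (if_neg he)).symm
  rw [h2, av_pi_prod (fun (e : Ed k ν) (z : Fin T → Fin Q) =>
    if BicM_R P e z then (1 : ℝ) else 0)]
  have h3 : ∀ e : Ed k ν, av (fun z : Fin T → Fin Q =>
      if BicM_R P e z then (1 : ℝ) else 0) =
      if KP P e = true then 1 - (1 / (Q : ℝ)) ^ T else 1 := by
    intro e
    by_cases he : KP P e = true
    · rw [if_pos he, ← BicM_pr_one]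
      exact pr_congr (p := BicM_R P e) fun z => ⟨fun h => h he, fun h _ => h⟩
    · rw [if_neg he]
      exact pr_true (p := BicM_R (T := T) (Q := Q) P e) fun z h => absurd h he
  rw [Finset.prod_congr rfl fun e _ => h3 e, Finset.prod_ite, Finset.prod_const_one, mul_one,
    Finset.prod_const, BicM_card]

/-- PROOF: `blk false i ω e = true` implies `∃ j, ω.1 j e ≠ 0`. Union bound over the transversals
`P : Tr k ν` (`card = ν^(2k)`): the event `∀ e, KP P e = true → ∃ j, hs j e ≠ 0` has probability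
`(1 - (1/Q)^T)^(k^2)`: the `k^2` edges of `KP P` are independent (swap `Fin T → Ed → Fin Q` to
`Ed → Fin T → Fin Q`, `av_pi_prod` over the edges), and for one edge
`pr (∃ j, y j ≠ 0) = 1 - (1/Q)^T` for `y : Fin T → Fin Q`. -/
theorem pr_bic (hν : 1 ≤ ν) (i : ℕ) :
    pr (fun ω : Om k ν Q T => Bic (blk false i ω)) ≤
      (ν : ℝ) ^ (2 * k) * (1 - (1 / (Q : ℝ)) ^ T) ^ (k ^ 2) := by
  have hne : Nonempty (Fin ν) := ⟨⟨0, hν⟩⟩
  have h1 : pr (fun ω : Om k ν Q T => Bic (blk false i ω)) ≤
      pr (fun ω : Om k ν Q T => ∃ P ∈ (Finset.univ : Finset (Tr k ν)), BicM_ev P ω.1) := by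
    refine pr_mono fun ω => ?_
    rintro ⟨P, hP⟩
    refine ⟨P, Finset.mem_univ _, fun e he => ?_⟩
    have h2 := hP e he
    unfold blk lev at h2
    rw [Bool.false_and, Bool.or_false, decide_eq_true_eq] at h2
    obtain ⟨j, -, hj⟩ := h2
    exact ⟨j, hj⟩
  refine h1.trans ((pr_exists_le _ _).trans ?_)
  have h2 : ∀ P : Tr k ν, pr (fun ω : Om k ν Q T => BicM_ev P ω.1) =
      (1 - (1 / (Q : ℝ)) ^ T) ^ (k ^ 2) := by
    intro P
    rw [← BicM_pr_ev P]
    unfold pr
    rw [av_prod]
    congr 1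
    funext hs
    exact av_const (α := Tr k ν) (if BicM_ev P hs then (1 : ℝ) else 0)
  rw [Finset.sum_congr rfl fun P _ => h2 P, Finset.sum_const, nsmul_eq_mul, Finset.card_univ]
  have h3 : Fintype.card (Tr k ν) = ν ^ (2 * k) := by
    rw [Fintype.card_fun, Fintype.card_fin, Fintype.card_prod, Fintype.card_bool, Fintype.card_fin]
  rw [h3]
  push_cast
  exact le_rfl

end Pool.Agent.helper81.NL
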