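import Pool.Agent.helper81.NL.Avg

set_option autoImplicit false

/-!
# NL-7: telescoping on the Boolean cube
-/

namespace Pool.Agent.helper81.NL

variable {B : Type*} [Fintype B] [DecidableEq B]

/-- One coordinate. PROOF: `av_update` at `j` and `av_bool`: for `b` fixed off `j`, with the values
`g₁, g₀, φ₁, φ₀`, `((g₁ - (g₁+g₀)/2) φ₁ + (g₀ - (g₁+g₀)/2) φ₀)/2 = (g₁-g₀)(φ₁-φ₀)/4`. -/
theorem av_sub_flip (j : B) (g φ : (B → Bool) → ℝ) :
    av (fun b => (g b - (g (Function.update b j true) + g (Function.update b j false)) / 2) * φ b) =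
      av (fun b => dd j g b * dd j φ b) / 4 := by
  have h1 : av (fun b => dd j g b * dd j φ b) / 4 =
      av (fun b => dd j g b * dd j φ b * (1 / 4)) := by
    rw [av_mul_right]
    ring
  rw [h1, av_update j]
  congr 1
  funext x
  rw [av_bool]
  simp only [Function.update_idem, dd]
  ring

/-- PROOF: in the definition of `avJ` for `insert j J` average first over the coordinate `j` of `b'`
(`av_update` at `j`, `av_bool`). -/
theorem avJ_insert (J : Finset B) (j : B) (hj : j ∉ J) (g : (B → Bool) → ℝ) (b : B → Bool) :
    avJ (insert j J) g b =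
      (avJ J g (Function.update b j true) + avJ J g (Function.update b j false)) / 2 := by
  have key : ∀ (x : B → Bool) (y : Bool),
      (fun i => if i ∈ insert j J then Function.update x j y i else b i) =
        fun i => if i ∈ J then x i else Function.update b j y i := by
    intro x y
    funext i
    by_cases hi : i = j
    · subst hi
      rw [if_pos (Finset.mem_insert_self _ _), if_neg hj, Function.update_self,
        Function.update_self]
    · rw [Function.update_of_ne hi, Function.update_of_ne hi]
      by_cases hJ : i ∈ J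
      · rw [if_pos (Finset.mem_insert_of_mem hJ), if_pos hJ]
      · rw [if_neg hJ, if_neg]
        rw [Finset.mem_insert, not_or]
        exact ⟨hi, hJ⟩
  unfold avJ
  rw [av_update j, ← av_add]
  have h2 : ∀ a : ℝ, a / 2 = a * (1 / 2) := fun a => by ring
  rw [h2, ← av_mul_right]
  congr 1
  funext x
  rw [av_bool, key, key]
  ring

theorem tele_dd_avJ (J : Finset B) (g : (B → Bool) → ℝ) (j : B) (b : B → Bool) :
    dd j (avJ J g) b = if j ∈ J then 0 else
      av fun b' : B → Bool => dd j g fun i => if i ∈ J then b' i else b i := by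
  unfold dd avJ
  rw [← av_sub]
  split_ifs with hj
  · have h1 : ∀ (x : B → Bool) (y : Bool), (fun i => if i ∈ J then x i else
        Function.update b j y i) = fun i => if i ∈ J then x i else b i := by
      intro x y
      funext i
      by_cases hi : i = j
      · subst hi
        rw [if_pos hj, if_pos hj]
      · rw [Function.update_of_ne hi]
    simp only [h1, sub_self]
    exact av_const (α := B → Bool) 0
  · have h1 : ∀ (x : B → Bool) (y : Bool), (fun i => if i ∈ J then x i else
        Function.update b j y i) =
        Function.update (fun i => if i ∈ J then x i else b i) j y := by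
      intro x y
      funext i
      by_cases hi : i = j
      · subst hi
        rw [if_neg hj, Function.update_self, Function.update_self]
      · rw [Function.update_of_ne hi, Function.update_of_ne hi]
    simp only [h1]

/-- The derivatives of `avJ J g` are averages of derivatives of `g`, or `0`. -/
theorem dd_avJ_nonneg (J : Finset B) (g : (B → Bool) → ℝ) (hg : ∀ j b, 0 ≤ dd j g b) (j : B)
    (b : B → Bool) : 0 ≤ dd j (avJ J g) b := by
  rw [tele_dd_avJ]
  split_ifs with hj
  · exact le_rfl
  · exact av_nonneg fun _ => hg _ _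

theorem dd_avJ_le_one (J : Finset B) (g : (B → Bool) → ℝ) (hg : ∀ j b, dd j g b ≤ 1) (j : B)
    (b : B → Bool) : dd j (avJ J g) b ≤ 1 := by
  rw [tele_dd_avJ]
  split_ifs with hj
  · exact zero_le_one
  · exact av_le fun _ => hg _ _

theorem avJ_empty (g : (B → Bool) → ℝ) : avJ ∅ g = g := by
  funext b
  unfold avJ
  simp only [Finset.notMem_empty, if_false]
  exact av_const (α := B → Bool) (g b)

theorem avJ_univ (g : (B → Bool) → ℝ) (b : B → Bool) : avJ Finset.univ g b = av g := by
  unfold avJ
  simp only [Finset.mem_univ, if_true]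

theorem tele_split (g φ : (B → Bool) → ℝ) (J : Finset B) (j : B) (hj : j ∉ J) :
    av (fun b => (g b - avJ (insert j J) g b) * φ b) =
      av (fun b => (g b - avJ J g b) * φ b) +
        av (fun b => dd j (avJ J g) b * dd j φ b) / 4 := by
  rw [← av_sub_flip, ← av_add]
  congr 1
  funext b
  rw [avJ_insert J j hj]
  ring

/-- PROOF: induction on `J`: `g - avJ (insert j J) g = (g - avJ J g) + (avJ J g - avJ (insert j J) g)` and
`av_sub_flip` for `avJ J g` (with `avJ_insert`): the second term gives
`av (dd j (avJ J g) * dd j φ) / 4 ≤ δ / 4`, since `0 ≤ dd j (avJ J g) ≤ 1` and `dd j φ ≤ δ`, `0 ≤ δ`. -/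
theorem tele (g φ : (B → Bool) → ℝ) (J : Finset B) (δ : ℝ) (hδ : 0 ≤ δ)
    (h0 : ∀ j b, 0 ≤ dd j g b) (h1 : ∀ j b, dd j g b ≤ 1) (hφ : ∀ j ∈ J, ∀ b, dd j φ b ≤ δ) :
    av (fun b => (g b - avJ J g b) * φ b) ≤ J.card * (δ / 4) := by
  induction J using Finset.induction_on with
  | empty =>
    rw [avJ_empty]
    simp only [sub_self, zero_mul, Finset.card_empty, Nat.cast_zero]
    exact (av_const (α := B → Bool) 0).le
  | insert j J hj ih =>
    rw [tele_split g φ J j hj, Finset.card_insert_of_notMem hj]
    have h2 := ih fun i hi b => hφ i (Finset.mem_insert_of_mem hi) b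
    have h3 : av (fun b => dd j (avJ J g) b * dd j φ b) ≤ δ := by
      refine av_le fun b => ?_
      have e0 := dd_avJ_nonneg J g h0 j b
      have e1 := dd_avJ_le_one J g h1 j b
      have e2 := hφ j (Finset.mem_insert_self _ _) b
      calc dd j (avJ J g) b * dd j φ b ≤ dd j (avJ J g) b * δ := mul_le_mul_of_nonneg_left e2 e0
        _ ≤ 1 * δ := mul_le_mul_of_nonneg_right e1 hδ
        _ = δ := one_mul δ
    push_cast
    linarith

/-- Harris. PROOF: the same telescoping with `0 ≤ dd j φ`, for all `J`, then `J = univ`
(`avJ_univ`). -/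
theorem harris (g φ : (B → Bool) → ℝ) (h0 : ∀ j b, 0 ≤ dd j g b) (hφ : ∀ j b, 0 ≤ dd j φ b) :
    0 ≤ av (fun b => (g b - av g) * φ b) := by
  have key : ∀ J : Finset B, 0 ≤ av (fun b => (g b - avJ J g b) * φ b) := by
    intro J
    induction J using Finset.induction_on with
    | empty =>
      rw [avJ_empty]
      simp only [sub_self, zero_mul]
      exact (av_const (α := B → Bool) 0).ge
    | insert j J hj ih =>
      rw [tele_split g φ J j hj]
      have h3 : 0 ≤ av (fun b => dd j (avJ J g) b * dd j φ b) :=
        av_nonneg fun b => mul_nonneg (dd_avJ_nonneg J g h0 j b) (hφ j b)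
      linarith
  have h := key Finset.univ
  simpa only [avJ_univ] using h

end Pool.Agent.helper81.NL
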