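import Pool.Agent.helper81.NL.Avg

set_option autoImplicit false
set_option synthInstance.maxSize 2000

/-!
# NL-8: Tribes under random restrictions
-/

namespace Pool.Agent.helper81.NL

variable {L w T : ℕ}

theorem dd_tribes_nonneg (j : Bk L w) (b : Bk L w → Bool) :
    0 ≤ dd j (fun b => ind (tribes b)) b := by
  unfold dd
  rw [sub_nonneg]
  apply ind_mono
  intro h
  unfold tribes at h ⊢
  rw [decide_eq_true_iff] at h ⊢
  obtain ⟨i, hi⟩ := h
  refine ⟨i, fun j' => ?_⟩
  have h1 := hi j'
  by_cases hj : (i, j') = j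
  · rw [hj, Function.update_self]
  · rw [Function.update_of_ne hj] at h1 ⊢
    exact h1

theorem dd_tribes_le_one (j : Bk L w) (b : Bk L w → Bool) :
    dd j (fun b => ind (tribes b)) b ≤ 1 := by
  unfold dd
  have h1 := ind_le_one (tribes (Function.update b j true))
  have h2 := ind_nonneg (tribes (Function.update b j false))
  linarith

theorem TribesM_prod_ind {ι : Type*} [Fintype ι] (c : ι → Bool) :
    ∏ j, ind (c j) = if ∀ j, c j = true then 1 else 0 := by
  split_ifs with h
  · exact Finset.prod_eq_one fun j _ => by rw [h j]; rfl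
  · push Not at h
    obtain ⟨j, hj⟩ := h
    refine Finset.prod_eq_zero (Finset.mem_univ j) ?_
    rw [Bool.eq_false_iff.2 hj]
    rfl

/-- `1 - ind (tribes b) = ∏ i, (1 - ∏ j, ind (b (i, j)))`. -/
theorem one_sub_tribes (b : Bk L w → Bool) :
    1 - ind (tribes b) = ∏ i : Fin L × Fin L, (1 - ∏ j : Fin w, ind (b (i, j))) := by
  by_cases h : ∃ i, ∀ j, b (i, j) = true
  · have h1 : tribes b = true := by
      unfold tribes
      rw [decide_eq_true_iff]
      exact h
    obtain ⟨i, hi⟩ := h
    rw [h1]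
    symm
    have h2 : (1 : ℝ) - ind true = 0 := by simp [ind]
    rw [h2]
    refine Finset.prod_eq_zero (Finset.mem_univ i) ?_
    rw [TribesM_prod_ind, if_pos hi, sub_self]
  · have h1 : tribes b = false := by
      unfold tribes
      rw [decide_eq_false_iff_not]
      exact h
    rw [h1]
    symm
    have h2 : (1 : ℝ) - ind false = 1 := by simp [ind]
    rw [h2]
    refine Finset.prod_eq_one fun i _ => ?_
    rw [TribesM_prod_ind, if_neg fun hi => h ⟨i, hi⟩, sub_zero]

theorem TribesM_curry (F : (Fin L × Fin L) → (Fin w → Bool) → ℝ) :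
    av (fun b : Bk L w → Bool => ∏ i, F i (fun j => b (i, j))) = ∏ i, av (F i) := by
  rw [← av_pi_prod F]
  exact av_equiv (Equiv.curry (Fin L × Fin L) (Fin w) Bool)
    (fun x : Fin L × Fin L → Fin w → Bool => ∏ i, F i (x i))

/-- PROOF: `one_sub_tribes`, curry (`av_equiv` with `Equiv.curry`), `av_pi_prod` twice. -/
theorem av_tribes (hL : L * L = 2 ^ w) :
    av (fun b : Bk L w → Bool => ind (tribes b)) = 1 - (1 - (1 / 2) ^ w) ^ (2 ^ w) := by
  have h1 : (fun b : Bk L w → Bool => ind (tribes b)) =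
      fun b => 1 - ∏ i : Fin L × Fin L, (1 - ∏ j : Fin w, ind (b (i, j))) := by
    funext b
    rw [← one_sub_tribes, sub_sub_cancel]
  rw [h1, av_sub, av_const, TribesM_curry (fun _ x => 1 - ∏ j : Fin w, ind (x j))]
  congr 1
  have h2 : av (fun x : Fin w → Bool => 1 - ∏ j : Fin w, ind (x j)) = 1 - (1 / 2) ^ w := by
    rw [av_sub, av_const, av_pi_prod (fun _ : Fin w => ind)]
    congr 1
    rw [Finset.prod_const, Finset.card_univ, Fintype.card_fin, av_bool]
    simp [ind]
  rw [h2, Finset.prod_const, Finset.card_univ, Fintype.card_prod, Fintype.card_fin, hL]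

/-- PROOF: `1 - avJ J g b = ∏ i, (1 - ∏ j, m)` with `m = 1/2` if `(i, j) ∈ J` and `m = ind (b (i, j))` if not
(`one_sub_tribes` and `av_pi_prod` for the average over `b'`). -/
theorem one_sub_avJ_tribes (J : Finset (Bk L w)) (b : Bk L w → Bool) :
    1 - avJ J (fun b => ind (tribes b)) b =
      ∏ i : Fin L × Fin L, (1 - ∏ j : Fin w, if (i, j) ∈ J then (1 / 2 : ℝ) else ind (b (i, j))) := by
  unfold avJ
  have h0 : (1 : ℝ) = av (fun _ : Bk L w → Bool => (1 : ℝ)) := (av_const _).symm
  have h1 : 1 - av (fun b' : Bk L w → Bool =>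
      ind (tribes fun i => if i ∈ J then b' i else b i)) =
      av (fun b' : Bk L w → Bool => ∏ i : Fin L × Fin L, (1 - ∏ j : Fin w,
        ind (if (i, j) ∈ J then b' (i, j) else b (i, j)))) := by
    conv_lhs => rw [h0]
    rw [← av_sub]
    congr 1
    funext b'
    exact one_sub_tribes _
  rw [h1, TribesM_curry (fun i x => 1 - ∏ j : Fin w, ind (if (i, j) ∈ J then x j else b (i, j)))]
  refine Finset.prod_congr rfl fun i _ => ?_
  rw [av_sub, av_const]
  congr 1
  rw [av_pi_prod (fun (j : Fin w) (y : Bool) => ind (if (i, j) ∈ J then y else b (i, j)))]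
  refine Finset.prod_congr rfl fun j _ => ?_
  by_cases h : (i, j) ∈ J
  · simp only [h, if_true]
    rw [av_bool]
    simp [ind]
  · simp only [h, if_false]
    exact av_const _

end Pool.Agent.helper81.NL
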