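import Pool.Agent.helper81.NL.Cov
import Pool.Agent.helper81.NL.Tele
import Pool.Agent.helper81.NL.TribesM
import Pool.Agent.helper81.NL.BicM

set_option autoImplicit false
set_option synthInstance.maxSize 2000

/-!
# NL-11b: the covariance with a monotone circuit is nonnegative; the clique function
-/

namespace Pool.Agent.helper81.NL

open scoped Classical

variable {k ν Q T L w : ℕ} [NeZero Q] {l r : ℕ}

/-! ### Circuits without NOT gates are monotone -/

theorem CoreB_getD_mono {l l' : List Bool} (h : List.Forall₂ (fun a b => a = true → b = true) l l')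
    (n : ℕ) : l.getD n false = true → l'.getD n false = true := by
  induction h generalizing n with
  | nil => exact id
  | cons h1 _ ih =>
    cases n with
    | zero => simpa using h1
    | succ n => simpa using ih n

theorem CoreB_run_mono {V : Type} {x y : V → Bool} (h : ∀ v, x v = true → y v = true)
    (C : List (Gate V)) (hC : Mono C) :
    List.Forall₂ (fun a b => a = true → b = true) (run x C) (run y C) := by
  induction C with
  | nil => exact List.Forall₂.nil
  | cons g C ih =>
    have hC1 : negations C = 0 := by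
      unfold Mono negations at hC
      rw [List.countP_cons] at hC
      unfold negations
      omega
    have hg : g.isNot = false := by
      unfold Mono negations at hC
      rw [List.countP_cons] at hC
      by_contra hcon
      rw [Bool.not_eq_false] at hcon
      rw [if_pos hcon] at hC
      omega
    have ih' := ih hC1
    refine List.Forall₂.cons ?_ ih'
    cases g with
    | var v => exact h v
    | const b => exact id
    | and a b =>
      simp only [Gate.val, Bool.and_eq_true]
      exact fun hab => ⟨CoreB_getD_mono ih' a hab.1, CoreB_getD_mono ih' b hab.2⟩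
    | or a b =>
      simp only [Gate.val, Bool.or_eq_true]
      exact fun hab => hab.imp (CoreB_getD_mono ih' a) (CoreB_getD_mono ih' b)
    | not a => simp [Gate.isNot] at hg

theorem CoreB_eval_mono {V : Type} {x y : V → Bool} (h : ∀ v, x v = true → y v = true)
    (C : List (Gate V)) (hC : Mono C) (he : eval C x = true) : eval C y = true :=
  CoreB_getD_mono (CoreB_run_mono h C hC) 0 he

theorem CoreB_subst_mono {V E : Type} (σ : V → Bool ⊕ E) {x y : E → Bool}
    (h : ∀ e, x e = true → y e = true) (v : V) : subst σ x v = true → subst σ y v = true := by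
  unfold subst
  cases σ v with
  | inl b => exact id
  | inr e => exact h e

/-! ### The shift -/

/-- the rotation of `Fin T` -/
def CoreB_rot (hT : 1 ≤ T) : Fin T ≃ Fin T :=
  haveI : NeZero T := ⟨by omega⟩
  Equiv.addRight (1 : Fin T)

theorem CoreB_rot_val (hT : 1 ≤ T) (i : Fin T) : (CoreB_rot hT i).1 = (i.1 + 1) % T := by
  have _ : NeZero T := ⟨by omega⟩
  unfold CoreB_rot
  rw [Equiv.coe_addRight, Fin.val_add, Fin.val_one']
  simp

/-- the shift of the variables in the blocks with bit `false` -/
def CoreB_sh (hT : 1 ≤ T) (b : Bk L w → Bool) : (Bk L w → Fin T) ≃ (Bk L w → Fin T) :=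
  Equiv.piCongrRight fun j => if b j then Equiv.refl _ else CoreB_rot hT

theorem CoreB_sh_val (hT : 1 ≤ T) (b : Bk L w → Bool) (ρ : Bk L w → Fin T) (j : Bk L w) :
    (CoreB_sh hT b ρ j).1 = shf (b j) (ρ j) := by
  unfold CoreB_sh shf
  rw [Equiv.piCongrRight_apply]
  cases h : b j
  · simp [h, CoreB_rot_val]
  · simp [h]

/-- the input with the level `ρ` in all blocks -/
def CoreB_inq (b : Bk L w → Bool) (ρ : Bk L w → Fin T) (ω : Bk L w → Om k ν Q T)
    (p : Bk L w × Ed k ν) : Bool :=
  blk (b p.1) (ρ p.1).1 (ω p.1) p.2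

theorem CoreB_inp_eq (hT : 1 ≤ T) (b : Bk L w → Bool) (ρ : Bk L w → Fin T)
    (ω : Bk L w → Om k ν Q T) : inp b ρ ω = CoreB_inq b (CoreB_sh hT b ρ) ω := by
  funext p
  unfold inp CoreB_inq
  rw [CoreB_sh_val]

/-- PROOF: for every `b`, the average over `ρ, ω` of `F (inp b ρ ω)` equals the average over `ρ, ω` of
`F (fun p => blk (b p.1) (ρ p.1).1 (ω p.1) p.2)`: for the blocks with `b j = false`, `ρ j ↦ (ρ j + 1) mod T` is a
bijection of `Fin T` (`av_equiv` with `Equiv.piCongrRight`). For fixed `ρ, ω` the latter is increasing in `b` (a circuit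
without NOT gates is monotone), so `φ b` has `0 ≤ dd j φ`; `harris`. -/
theorem cov_mono_nonneg (hT : 1 ≤ T) {V : Type}
    (σ : V → Bool ⊕ (Bk L w × Ed k ν)) (C : List (Gate V)) (hC : Mono C) :
    0 ≤ cov (T := T) (Q := Q) (fun x => ind (eval C (subst σ x))) := by
  set g : (Bk L w → Bool) → ℝ := fun b => ind (tribes b) with hg
  set F : (Bk L w × Ed k ν → Bool) → ℝ := fun x => ind (eval C (subst σ x)) with hF
  have h1 : cov (T := T) (Q := Q) F = av fun b : Bk L w → Bool => av fun ρ : Bk L w → Fin T =>
      av fun ω : Bk L w → Om k ν Q T => (g b - av g) * F (inp b ρ ω) := by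
    unfold cov
    rw [av_comm]
    have e : (fun ρ : Bk L w → Fin T => av fun ω : Bk L w → Om k ν Q T =>
        av fun b : Bk L w → Bool => (g b - av g) * F (inp b ρ ω)) =
        fun ρ => av fun b : Bk L w → Bool => av fun ω : Bk L w → Om k ν Q T =>
          (g b - av g) * F (inp b ρ ω) := by
      funext ρ
      rw [av_comm]
    rw [← av_comm, e, av_comm]
  have h2 : ∀ b : Bk L w → Bool, (av fun ρ : Bk L w → Fin T =>
      av fun ω : Bk L w → Om k ν Q T => (g b - av g) * F (inp b ρ ω)) =
      av fun ρ : Bk L w → Fin T =>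
        av fun ω : Bk L w → Om k ν Q T => (g b - av g) * F (CoreB_inq b ρ ω) := by
    intro b
    rw [← av_equiv (CoreB_sh hT b) fun ρ : Bk L w → Fin T =>
      av fun ω : Bk L w → Om k ν Q T => (g b - av g) * F (CoreB_inq b ρ ω)]
    simp only [CoreB_inp_eq hT b]
  rw [h1]
  simp only [h2]
  rw [av_comm]
  refine av_nonneg fun ρ => ?_
  rw [av_comm]
  refine av_nonneg fun ω => ?_
  refine harris g (fun b => F (CoreB_inq b ρ ω)) (fun j b => dd_tribes_nonneg j b) ?_
  intro j b
  unfold dd
  rw [sub_nonneg]
  refine ind_mono fun h => ?_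
  refine CoreB_eval_mono (fun v => CoreB_subst_mono σ (fun p => ?_) v) C hC h
  unfold CoreB_inq
  by_cases hp : p.1 = j
  · rw [hp, Function.update_self, Function.update_self]
    unfold blk
    simp only [Bool.false_and, Bool.or_false, Bool.true_and, Bool.or_eq_true]
    exact Or.inl
  · rw [Function.update_of_ne hp, Function.update_of_ne hp]
    exact id

/-- a function of one coordinate -/
theorem CoreB_pr_coord {ι α : Type*} [Fintype ι] [DecidableEq ι] [Fintype α] [Nonempty α]
    (j : ι) (p : α → Prop) : pr (fun x : ι → α => p (x j)) = pr p := by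
  unfold pr
  rw [av_update j]
  simp only [Function.update_self]
  exact av_const _

/-- PROOF: if the circuit decides `∃ i, ∀ j, Bic (block (i, j))`, its value at `inp b ρ ω` is `tribes b` unless
`Bic (blk false _ (ω j))` for some `j` with `b j = false`; for fixed `b, ρ` this has probability at most
`L * L * w * η` (union bound over `j`, `pr_bic`; a function of `ω j` only: `av_update`). So
`cov F ≥ av (g - av g) g - L * L * w * η = av g * (1 - av g) - …`. -/
theorem cov_clique_ge (hν : 1 ≤ ν) {V : Type} (σ : V → Bool ⊕ (Bk L w × Ed k ν))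
    (C : List (Gate V))
    (hT : 1 ≤ T)
    (hC : ∀ x : Bk L w × Ed k ν → Bool,
      eval C (subst σ x) = true ↔ ∃ i, ∀ j, Bic fun e => x ((i, j), e)) :
    (1 - av fun b : Bk L w → Bool => ind (tribes b)) * (av fun b : Bk L w → Bool => ind (tribes b)) -
      (L * L * w : ℕ) * ((ν : ℝ) ^ (2 * k) * (1 - (1 / (Q : ℝ)) ^ T) ^ (k ^ 2)) ≤
    cov (T := T) (Q := Q) (fun x => ind (eval C (subst σ x))) := by
  have _ : Nonempty (Fin T) := ⟨⟨0, by omega⟩⟩
  have _ : Nonempty (Fin ν) := ⟨⟨0, by omega⟩⟩
  have _ : Nonempty (Fin Q) := ⟨0⟩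
  set g : (Bk L w → Bool) → ℝ := fun b => ind (tribes b) with hg
  set F : (Bk L w × Ed k ν → Bool) → ℝ := fun x => ind (eval C (subst σ x)) with hF
  set η : ℝ := (ν : ℝ) ^ (2 * k) * (1 - (1 / (Q : ℝ)) ^ T) ^ (k ^ 2) with hη
  have hg0 : ∀ b, 0 ≤ g b := fun b => ind_nonneg _
  have hg1 : ∀ b, g b ≤ 1 := fun b => ind_le_one _
  have ha0 : 0 ≤ av g := av_nonneg hg0
  have ha1 : av g ≤ 1 := av_le hg1
  -- the bad event
  set bad : (Bk L w → Bool) → (Bk L w → Fin T) → (Bk L w → Om k ν Q T) → Prop :=
    fun b ρ ω => ∃ j ∈ (Finset.univ : Finset (Bk L w)), Bic (blk false (shf (b j) (ρ j)) (ω j))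
    with hbad
  -- lower bound
  have hlow : ∀ (b : Bk L w → Bool) (ρ : Bk L w → Fin T) (ω : Bk L w → Om k ν Q T), g b ≤ F (inp b ρ ω) := by
    intro b ρ ω
    refine ind_mono fun h => ?_
    rw [hC]
    unfold tribes at h
    rw [decide_eq_true_eq] at h
    obtain ⟨i, hi⟩ := h
    refine ⟨i, fun j => ?_⟩
    have e : (fun e => inp b ρ ω ((i, j), e)) =
        blk true (shf (b (i, j)) (ρ (i, j))) (ω (i, j)) := by
      funext e
      unfold inp
      simp only [hi j]
    rw [e]
    exact bic_planted _ _
  -- upper bound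
  have hup : ∀ (b : Bk L w → Bool) (ρ : Bk L w → Fin T) (ω : Bk L w → Om k ν Q T),
      F (inp b ρ ω) - g b ≤ if bad b ρ ω then 1 else 0 := by
    intro b ρ ω
    by_cases hb : bad b ρ ω
    · rw [if_pos hb]
      have h1 : F (inp b ρ ω) ≤ 1 := ind_le_one _
      linarith [hg0 b]
    · rw [if_neg hb]
      have h1 : F (inp b ρ ω) ≤ g b := by
        refine ind_mono fun h => ?_
        rw [hC] at h
        obtain ⟨i, hi⟩ := h
        unfold tribes
        rw [decide_eq_true_eq]
        refine ⟨i, fun j => ?_⟩
        by_contra hcon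
        rw [Bool.not_eq_true] at hcon
        apply hb
        refine ⟨(i, j), Finset.mem_univ _, ?_⟩
        have e : (fun e => inp b ρ ω ((i, j), e)) =
            blk false (shf (b (i, j)) (ρ (i, j))) (ω (i, j)) := by
          funext e
          unfold inp
          simp only [hcon]
        rw [← e]
        exact hi j
      linarith
  -- pointwise
  have hpt : ∀ (b : Bk L w → Bool) (ρ : Bk L w → Fin T) (ω : Bk L w → Om k ν Q T),
      (g b - av g) * g b - (if bad b ρ ω then 1 else 0) ≤
      (g b - av g) * F (inp b ρ ω) := by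
    intro b ρ ω
    have h1 := hlow b ρ ω
    have h2 := hup b ρ ω
    have h3 := hg0 b
    have h4 := hg1 b
    nlinarith [mul_nonneg (sub_nonneg.2 h1) (show (0 : ℝ) ≤ 1 + (g b - av g) by linarith)]
  have hsum : av (fun b => (g b - av g) * g b) = (1 - av g) * av g := by
    have e : (fun b => (g b - av g) * g b) = fun b => (1 - av g) * g b := by
      funext b
      have : g b * g b = g b := by
        simp only [hg, ind]
        split_ifs <;> norm_num
      linear_combination this
    rw [e, av_mul_left]
  -- the probability of the bad event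
  have hpr : (av fun ρ : Bk L w → Fin T => av fun ω : Bk L w → Om k ν Q T =>
      av fun b : Bk L w → Bool => if bad b ρ ω then (1 : ℝ) else 0) ≤ (L * L * w : ℕ) * η := by
    refine av_le fun ρ => ?_
    rw [av_comm]
    refine av_le fun b => ?_
    have e : (av fun ω : Bk L w → Om k ν Q T => if bad b ρ ω then (1 : ℝ) else 0) =
        pr (fun ω => bad b ρ ω) := by
      unfold pr
      congr 1
      funext a
      by_cases h : bad b ρ a
      · rw [if_pos h, if_pos h]
      · rw [if_neg h, if_neg h]
    rw [e]
    refine (pr_exists_le Finset.univ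
      fun (j : Bk L w) (ω : Bk L w → Om k ν Q T) => Bic (blk false (shf (b j) (ρ j)) (ω j))).trans ?_
    have hcard : (Finset.univ : Finset (Bk L w)).card = L * L * w := by
      rw [Finset.card_univ, Fintype.card_prod, Fintype.card_prod, Fintype.card_fin,
        Fintype.card_fin]
    rw [← hcard, ← nsmul_eq_mul]
    refine Finset.sum_le_card_nsmul _ _ _ fun j _ => ?_
    rw [CoreB_pr_coord j fun y : Om k ν Q T => Bic (blk false (shf (b j) (ρ j)) y)]
    exact pr_bic hν _
  have hcov : (av fun ρ : Bk L w → Fin T => av fun ω : Bk L w → Om k ν Q T =>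
      av fun b : Bk L w → Bool => ((g b - av g) * g b - (if bad b ρ ω then (1 : ℝ) else 0))) ≤
      cov (T := T) (Q := Q) F := by
    unfold cov
    exact av_mono fun ρ => av_mono fun ω => av_mono fun b => hpt b ρ ω
  refine le_trans ?_ hcov
  simp only [av_sub, av_const, hsum]
  linarith

end Pool.Agent.helper81.NL
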