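import Pool.Agent.helper81.NL.Avg

set_option autoImplicit false

/-!
# NL-9: a circuit with `t` NOT gates is a sum of `2^t` differences of monotone circuits
-/

namespace Pool.Agent.helper81.NL

theorem Split_getD {V : Type} (x : V → Bool) (E D : List (Gate V)) (a : ℕ) :
    (run x (E ++ D)).getD (E.length + a) false = (run x D).getD a false := by
  induction E with
  | nil => simp
  | cons g E ih =>
    rw [List.cons_append, run, List.length_cons,
      show E.length + 1 + a = (E.length + a) + 1 by ring, List.getD_cons_succ, ih]

/-- gates computing a conjunction -/
def Split_all {V : Type} : List ℕ → List (Gate V)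
  | [] => [Gate.const true]
  | p :: ps => Gate.and 0 ((ps.length + 1) + p) :: Split_all ps

/-- gates computing a disjunction -/
def Split_any {V : Type} : List ℕ → List (Gate V)
  | [] => [Gate.const false]
  | p :: ps => Gate.or 0 ((ps.length + 1) + p) :: Split_any ps

theorem Split_all_length {V : Type} (ps : List ℕ) :
    (Split_all ps : List (Gate V)).length = ps.length + 1 := by
  induction ps with
  | nil => rfl
  | cons p ps ih => rw [Split_all, List.length_cons, ih, List.length_cons]

theorem Split_any_length {V : Type} (ps : List ℕ) :
    (Split_any ps : List (Gate V)).length = ps.length + 1 := by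
  induction ps with
  | nil => rfl
  | cons p ps ih => rw [Split_any, List.length_cons, ih, List.length_cons]

theorem Split_all_mono {V : Type} (ps : List ℕ) : negations (Split_all ps : List (Gate V)) = 0 := by
  induction ps with
  | nil => rfl
  | cons p ps ih =>
    unfold negations at ih ⊢
    rw [Split_all, List.countP_cons, ih]
    rfl

theorem Split_any_mono {V : Type} (ps : List ℕ) : negations (Split_any ps : List (Gate V)) = 0 := by
  induction ps with
  | nil => rfl
  | cons p ps ih =>
    unfold negations at ih ⊢
    rw [Split_any, List.countP_cons, ih]
    rfl

theorem Split_eval_cons {V : Type} (x : V → Bool) (g : Gate V) (C : List (Gate V)) :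
    eval (g :: C) x = g.val x (run x C) := rfl

theorem Split_all_eval {V : Type} (x : V → Bool) (ps : List ℕ) (D : List (Gate V)) :
    eval (Split_all ps ++ D) x = ps.all fun p => (run x D).getD p false := by
  induction ps with
  | nil => rfl
  | cons p ps ih =>
    rw [Split_all, List.cons_append, Split_eval_cons, Gate.val, List.all_cons,
      ← Split_all_length (V := V) ps, Split_getD, ← ih, Bool.and_comm]
    rfl

theorem Split_any_eval {V : Type} (x : V → Bool) (ps : List ℕ) (D : List (Gate V)) :
    eval (Split_any ps ++ D) x = ps.any fun p => (run x D).getD p false := by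
  induction ps with
  | nil => rfl
  | cons p ps ih =>
    rw [Split_any, List.cons_append, Split_eval_cons, Gate.val, List.any_cons,
      ← Split_any_length (V := V) ps, Split_getD, ← ih, Bool.or_comm]
    rfl

/-- replace a NOT gate by a guess -/
def Split_g {V : Type} (z : Finset ℕ) (m : ℕ) : Gate V → Gate V
  | Gate.not _ => Gate.const (decide (m ∈ z))
  | Gate.var v => Gate.var v
  | Gate.const b => Gate.const b
  | Gate.and a b => Gate.and a b
  | Gate.or a b => Gate.or a b

/-- replace all NOT gates by guesses -/
def Split_strip {V : Type} (z : Finset ℕ) : List (Gate V) → List (Gate V)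
  | [] => []
  | g :: C => Split_g z C.length g :: Split_strip z C

def Split_ga {V : Type} (z : Finset ℕ) (m : ℕ) : Gate V → List ℕ
  | Gate.not a => if m ∈ z then [] else [a + 1]
  | _ => []

def Split_gb {V : Type} (z : Finset ℕ) (m : ℕ) : Gate V → List ℕ
  | Gate.not a => if m ∈ z then [a + 1] else []
  | _ => []

/-- arguments of the NOT gates which are guessed to be false -/
def Split_A {V : Type} (z : Finset ℕ) : List (Gate V) → List ℕ
  | [] => []
  | g :: C => Split_ga z C.length g ++ (Split_A z C).map (· + 1)

/-- arguments of the NOT gates which are guessed to be true -/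
def Split_B {V : Type} (z : Finset ℕ) : List (Gate V) → List ℕ
  | [] => []
  | g :: C => Split_gb z C.length g ++ (Split_B z C).map (· + 1)

/-- the positions of the NOT gates -/
def Split_N {V : Type} : List (Gate V) → Finset ℕ
  | [] => ∅
  | g :: C => if g.isNot then insert C.length (Split_N C) else Split_N C

theorem Split_N_lt {V : Type} (C : List (Gate V)) : ∀ m ∈ Split_N C, m < C.length := by
  induction C with
  | nil => intro m hm; simp [Split_N] at hm
  | cons g C ih =>
    intro m hm
    rw [Split_N] at hm
    rw [List.length_cons]
    split_ifs at hm with h
    · rcases Finset.mem_insert.1 hm with h1 | h1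
      · omega
      · have := ih m h1
        omega
    · have := ih m hm
      omega

theorem Split_N_card {V : Type} (C : List (Gate V)) : (Split_N C).card = negations C := by
  induction C with
  | nil => rfl
  | cons g C ih =>
    rw [Split_N]
    unfold negations at ih ⊢
    rw [List.countP_cons]
    split_ifs with h
    · rw [Finset.card_insert_of_notMem, ih]
      intro h1
      exact lt_irrefl _ (Split_N_lt C _ h1)
    · rw [ih, add_zero]

theorem Split_strip_length {V : Type} (z : Finset ℕ) (C : List (Gate V)) :
    (Split_strip z C).length = C.length := by
  induction C with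
  | nil => rfl
  | cons g C ih => rw [Split_strip, List.length_cons, List.length_cons, ih]

theorem Split_strip_mono {V : Type} (z : Finset ℕ) (C : List (Gate V)) :
    negations (Split_strip z C) = 0 := by
  induction C with
  | nil => rfl
  | cons g C ih =>
    rw [Split_strip]
    unfold negations at ih ⊢
    rw [List.countP_cons, ih]
    cases g <;> rfl

theorem Split_AB_length {V : Type} (z : Finset ℕ) (C : List (Gate V)) :
    (Split_A z C).length + (Split_B z C).length = negations C := by
  induction C with
  | nil => rfl
  | cons g C ih =>
    rw [Split_A, Split_B]
    unfold negations at ih ⊢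
    rw [List.countP_cons, List.length_append, List.length_append, List.length_map,
      List.length_map, ← ih]
    cases g with
    | not a =>
      unfold Split_ga Split_gb
      by_cases h : C.length ∈ z
      · simp only [if_pos h, List.length_nil, List.length_cons, Gate.isNot, if_true]
        omega
      · simp only [if_neg h, List.length_nil, List.length_cons, Gate.isNot, if_true]
        omega
    | _ =>
      simp only [Split_ga, Split_gb, List.length_nil, Gate.isNot]
      simp

theorem Split_congr {V : Type} (z z' : Finset ℕ) (C : List (Gate V))
    (h : ∀ m < C.length, m ∈ z ↔ m ∈ z') :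
    Split_strip z C = Split_strip z' C ∧ Split_A z C = Split_A z' C ∧
      Split_B z C = Split_B z' C := by
  induction C with
  | nil => exact ⟨rfl, rfl, rfl⟩
  | cons g C ih =>
    rw [List.length_cons] at h
    obtain ⟨h1, h2, h3⟩ := ih fun m hm => h m (by omega)
    have h4 := h C.length (by omega)
    rw [Split_strip, Split_A, Split_B, Split_strip, Split_A, Split_B, h1, h2, h3]
    cases g with
    | not a =>
      unfold Split_g Split_ga Split_gb
      by_cases h5 : C.length ∈ z
      · simp [h5, h4.1 h5]
      · simp [h5, mt h4.2 h5]
    | _ => exact ⟨rfl, rfl, rfl⟩

/-- consistency of the guesses -/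
def Split_con {V : Type} (z : Finset ℕ) (C : List (Gate V)) (x : V → Bool) : Bool :=
  ((Split_A z C).all fun p => (run x (Split_strip z C)).getD p false) &&
    !((Split_B z C).any fun p => (run x (Split_strip z C)).getD p false)

theorem Split_con_mem {V : Type} (z : Finset ℕ) (C : List (Gate V)) (x : V → Bool) (a : ℕ)
    (h : C.length ∈ z) : Split_con z (Gate.not a :: C) x =
      (Split_con z C x && !((run x (Split_strip z C)).getD a false)) := by
  unfold Split_con
  rw [Split_A, Split_B, Split_strip, run]
  unfold Split_ga Split_gb
  simp only [if_pos h, List.nil_append, List.cons_append, List.all_map, List.any_map,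
    List.any_cons, Function.comp_def, List.getD_cons_succ, Bool.not_or]
  rw [← Bool.and_assoc, Bool.and_right_comm]

theorem Split_con_not_mem {V : Type} (z : Finset ℕ) (C : List (Gate V)) (x : V → Bool) (a : ℕ)
    (h : C.length ∉ z) : Split_con z (Gate.not a :: C) x =
      (Split_con z C x && ((run x (Split_strip z C)).getD a false)) := by
  unfold Split_con
  rw [Split_A, Split_B, Split_strip, run]
  unfold Split_ga Split_gb
  simp only [if_neg h, List.nil_append, List.cons_append, List.all_map, List.any_map,
    List.all_cons, Function.comp_def, List.getD_cons_succ]
  rw [Bool.and_assoc, Bool.and_comm]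

theorem Split_con_other {V : Type} (z : Finset ℕ) (C : List (Gate V)) (x : V → Bool) (g : Gate V)
    (h : g.isNot = false) : Split_con z (g :: C) x = Split_con z C x := by
  unfold Split_con
  rw [Split_A, Split_B, Split_strip, run]
  cases g with
  | not a => cases h
  | _ =>
    simp only [Split_ga, Split_gb, List.nil_append, List.all_map, List.any_map,
      Function.comp_def, List.getD_cons_succ]

theorem Split_sum {V : Type} (C : List (Gate V)) (x : V → Bool) : ∀ F : List Bool → ℝ,
    ∑ z ∈ (Split_N C).powerset, (if Split_con z C x then F (run x (Split_strip z C)) else 0)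
      = F (run x C) := by
  induction C with
  | nil =>
    intro F
    rw [Split_N, Finset.powerset_empty, Finset.sum_singleton]
    rfl
  | cons g C ih =>
    intro F
    have hrest : ∀ g' : Gate V, g'.isNot = false → (∀ z m, Split_g z m g' = g') →
        ∑ z ∈ (Split_N (g' :: C)).powerset, (if Split_con z (g' :: C) x then
          F (run x (Split_strip z (g' :: C))) else 0) = F (run x (g' :: C)) := by
      intro g' h1 h2
      rw [Split_N, h1]
      simp only [Bool.false_eq_true, if_false]
      rw [run, ← ih fun l => F (g'.val x l :: l)]
      refine Finset.sum_congr rfl fun z _ => ?_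
      rw [Split_con_other z C x g' h1, Split_strip, h2, run]
    cases g with
    | not a =>
      have hN : C.length ∉ Split_N C := fun h => lt_irrefl _ (Split_N_lt C _ h)
      rw [Split_N]
      simp only [Gate.isNot, if_true]
      rw [Finset.sum_powerset_insert hN, run, ← ih fun l => F ((Gate.not a).val x l :: l),
        ← Finset.sum_add_distrib]
      refine Finset.sum_congr rfl fun z hz => ?_
      have hz1 : C.length ∉ z := fun h => hN (Finset.mem_powerset.1 hz h)
      have hz2 : C.length ∈ insert C.length z := Finset.mem_insert_self _ _
      obtain ⟨h1, h2, h3⟩ := Split_congr (insert C.length z) z C fun m hm => by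
        rw [Finset.mem_insert]
        constructor
        · rintro (h | h)
          · omega
          · exact h
        · exact Or.inr
      have h4 : Split_con (insert C.length z) C x = Split_con z C x := by
        unfold Split_con
        rw [h1, h2, h3]
      rw [Split_con_mem _ _ _ _ hz2, Split_con_not_mem _ _ _ _ hz1, h4, Split_strip, Split_strip,
        h1, run, run]
      simp only [Split_g, hz1, hz2, decide_true, decide_false, Gate.val]
      by_cases h5 : Split_con z C x = true
      · cases h6 : (run x (Split_strip z C)).getD a false <;> simp [h5]
      · simp [h5]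
    | var v => exact hrest _ rfl fun _ _ => rfl
    | const b => exact hrest _ rfl fun _ _ => rfl
    | and a b => exact hrest _ rfl fun _ _ => rfl
    | or a b => exact hrest _ rfl fun _ _ => rfl

/-- the circuit for `⋁` -/
def Split_cB {V : Type} (C : List (Gate V)) (z : Finset ℕ) : List (Gate V) :=
  Split_any (Split_B z C) ++ Split_strip z C

/-- the circuit for `(⋀ ∧ output) ∨ ⋁` -/
def Split_cM {V : Type} (C : List (Gate V)) (z : Finset ℕ) : List (Gate V) :=
  Gate.or 0 (((Split_A z C).length + 1) + 1) ::
    Gate.and 0 (((Split_A z C).length + 1) + ((Split_B z C).length + 1)) ::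
      (Split_all ((Split_A z C).map (((Split_B z C).length + 1) + ·)) ++ Split_cB C z)

theorem Split_cB_mono {V : Type} (C : List (Gate V)) (z : Finset ℕ) :
    negations (Split_cB C z) = 0 := by
  have h1 := Split_any_mono (V := V) (Split_B z C)
  have h2 := Split_strip_mono z C
  unfold negations at *
  rw [Split_cB, List.countP_append, h1, h2]

theorem Split_cM_mono {V : Type} (C : List (Gate V)) (z : Finset ℕ) :
    negations (Split_cM C z) = 0 := by
  have h1 := Split_all_mono (V := V) ((Split_A z C).map (((Split_B z C).length + 1) + ·))
  have h2 := Split_cB_mono C z
  unfold negations at *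
  rw [Split_cM, List.countP_cons, List.countP_cons, List.countP_append, h1, h2]
  rfl

theorem Split_cM_length {V : Type} (C : List (Gate V)) (z : Finset ℕ) :
    (Split_cM C z).length ≤ C.length + 2 * negations C + 5 := by
  have h := Split_AB_length z C
  rw [Split_cM, List.length_cons, List.length_cons, List.length_append, Split_all_length,
    Split_cB, List.length_append, Split_any_length, Split_strip_length, List.length_map]
  omega

theorem Split_cB_eval {V : Type} (C : List (Gate V)) (z : Finset ℕ) (x : V → Bool) :
    eval (Split_cB C z) x = (Split_B z C).any fun p => (run x (Split_strip z C)).getD p false := by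
  rw [Split_cB, Split_any_eval]

theorem Split_cM_eval {V : Type} (C : List (Gate V)) (z : Finset ℕ) (x : V → Bool) :
    eval (Split_cM C z) x = ((((Split_A z C).all fun p => (run x (Split_strip z C)).getD p false)
      && eval (Split_strip z C) x) || eval (Split_cB C z) x) := by
  have hl : (Split_all ((Split_A z C).map (((Split_B z C).length + 1) + ·)) : List (Gate V)).length
      = (Split_A z C).length + 1 := by rw [Split_all_length, List.length_map]
  have hlB : (Split_any (Split_B z C) : List (Gate V)).length = (Split_B z C).length + 1 :=
    Split_any_length _
  have e1 : ∀ p : ℕ, (run x (Split_cB C z)).getD (((Split_B z C).length + 1) + p) false =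
      (run x (Split_strip z C)).getD p false := by
    intro p
    rw [Split_cB, ← hlB, Split_getD]
  have e2 := Split_all_eval x ((Split_A z C).map (((Split_B z C).length + 1) + ·)) (Split_cB C z)
  rw [List.all_map] at e2
  simp only [Function.comp_def, e1] at e2
  have e3 : (run x (Split_all ((Split_A z C).map (((Split_B z C).length + 1) + ·)) ++
      Split_cB C z)).getD (((Split_A z C).length + 1) + ((Split_B z C).length + 1)) false =
      eval (Split_strip z C) x := by
    rw [← hl, Split_getD]
    exact e1 0
  have e4 : (run x (Split_all ((Split_A z C).map (((Split_B z C).length + 1) + ·)) ++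
      Split_cB C z)).getD ((Split_A z C).length + 1) false = eval (Split_cB C z) x := by
    rw [← hl]
    exact Split_getD x _ _ 0
  rw [Split_cM, Split_eval_cons, Gate.val, run, List.getD_cons_succ, List.getD_cons_zero, e4,
    Gate.val, e3, ← e2]
  rfl

/-- PROOF. For a set `Z` of positions let `strip Z C` be the circuit in which the NOT gate `not a :: C'` (position
`C'.length`) is replaced by `const (decide (C'.length ∈ Z))`. It has no NOT gates and the same length. Let
`N` be the set of the positions of the NOT gates (`N.card = negations C`) and `𝒵 = N.powerset`. For an input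
`x` and `Z ∈ 𝒵` call `Z` consistent if for every NOT gate at position `p` with argument gate `a`, the value
of gate `a` in `strip Z C` at `x` is the negation of `decide (p ∈ Z)`. By induction on `C`: for every `x`
there is exactly one consistent `Z`, namely the set of the positions of the NOT gates with value
`true` in `run x C`; and if `Z` is consistent then `run x (strip Z C) = run x C`.
Let `h p` be the value in `strip Z C` of the argument of the NOT gate at position `p`. `Z` is consistent iff
`Aₓ = ⋀_{p ∈ N \ Z} h p` is true and `Bₓ = ⋁_{p ∈ Z} h p` is false. Let `B Z` be a circuit which extends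
`strip Z C` by gates computing `⋁`, and `M Z` one which computes `(⋀ ∧ output) ∨ ⋁`
(output = gate `0` of `strip Z C`; `false` if `C = []`). Both have at most `C.length + 2 * negations C + 5` gates:
lemma: for a circuit `C` and a list `ps` of positions (indices into `run x C`) there is a list `ex` of at
most `ps.length + 1` AND (OR) gates and one constant such that `eval (ex ++ C) x` is the conjunction (disjunction)
of the values `(run x C).getD p false`, `p ∈ ps`, and `(run x (ex ++ C)).getD (ex.length + a) false =
(run x C).getD a false`. Then `ind (eval (M Z) x) - ind (eval (B Z) x)` is `ind (eval C x)` if `Z` is consistent and `0`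
if not (`M Z` is implied by `B Z`), so the sum over `𝒵` is `ind (eval C x)`. -/
theorem split {V : Type} (C : List (Gate V)) :
    ∃ (M B : Finset ℕ → List (Gate V)) (Z : Finset (Finset ℕ)), Z.card = 2 ^ negations C ∧
      (∀ z ∈ Z, Mono (M z) ∧ Mono (B z) ∧ (M z).length ≤ C.length + 2 * negations C + 5) ∧
      ∀ x : V → Bool, ind (eval C x) = ∑ z ∈ Z, (ind (eval (M z) x) - ind (eval (B z) x)) := by
  refine ⟨Split_cM C, Split_cB C, (Split_N C).powerset, ?_, ?_, ?_⟩
  · rw [Finset.card_powerset, Split_N_card]
  · exact fun z _ => ⟨Split_cM_mono C z, Split_cB_mono C z, Split_cM_length C z⟩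
  · intro x
    have h := Split_sum C x fun l => ind (l.getD 0 false)
    rw [show eval C x = (run x C).getD 0 false from rfl, ← h]
    refine Finset.sum_congr rfl fun z _ => ?_
    rw [Split_cM_eval, show (run x (Split_strip z C)).getD 0 false = eval (Split_strip z C) x
      from rfl]
    unfold Split_con
    rw [← Split_cB_eval]
    cases ((Split_A z C).all fun p => (run x (Split_strip z C)).getD p false) <;>
      cases eval (Split_strip z C) x <;> cases eval (Split_cB C z) x <;> simp [ind]

end Pool.Agent.helper81.NL
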