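import Pool.Agent.helper81.NL.Approx
import Pool.Agent.helper81.NL.BicM
import Pool.Agent.helper81.NL.CoreB
import Pool.Agent.helper81.NL.Split

set_option autoImplicit false
set_option synthInstance.maxSize 2000

/-!
# NG-2: the chain argument (owner helper81)

The blocks are numbered; at time `i` the blocks with number less than `i` carry dense random layers and the
others are empty (`cX i`); in between, a transversal is planted in the block with number `i` (`cY`). A circuit
without NOT gates increases in expectation along the chain, up to the error of the approximation method, so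
the sum of the increments from `cX (cidx j)` to `cY j` is at most `1 + …`; but for the biclique
function every increment is (almost) `1`.
-/

namespace Pool.Agent.helper81.NL

open scoped Classical

variable {k ν Q L : ℕ} [NeZero Q] {l r : ℕ}

/-- the number of a block -/
noncomputable def cidx (j : Bk L 1) : ℕ := (Fintype.equivFin (Bk L 1) j).1

theorem cidx_inj {i j : Bk L 1} (h : cidx i = cidx j) : i = j :=
  (Fintype.equivFin (Bk L 1)).injective (Fin.ext h)

/-- the blocks with number `< i` carry their layers, the others are empty -/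
noncomputable def cX (i : ℕ) (h : Bk L 1 → Ed k ν → Fin Q) (p : Bk L 1 × Ed k ν) : Bool :=
  decide (cidx p.1 < i) && hb (h p.1) p.2

/-- the same at time `cidx j`, with a planted transversal in the block `j` -/
noncomputable def cY (j : Bk L 1) (h : Bk L 1 → Ed k ν → Fin Q) (P : Tr k ν)
    (p : Bk L 1 × Ed k ν) : Bool :=
  if p.1 = j then KP P p.2 else cX (cidx j) h p

/-- the substitution in the block `j`, the other blocks being fixed -/
noncomputable def cSub {V : Type} (σ : V → Bool ⊕ (Bk L 1 × Ed k ν)) (j : Bk L 1)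
    (h : Bk L 1 → Ed k ν → Fin Q) (v : V) : Bool ⊕ Ed k ν :=
  match σ v with
  | Sum.inl c => Sum.inl c
  | Sum.inr p => if p.1 = j then Sum.inr p.2 else Sum.inl (cX (cidx j) h p)

theorem cSub_Y {V : Type} (σ : V → Bool ⊕ (Bk L 1 × Ed k ν)) (j : Bk L 1)
    (h : Bk L 1 → Ed k ν → Fin Q) (P : Tr k ν) :
    subst σ (cY j h P) = subst (cSub σ j h) (KP P) := by
  funext v
  unfold subst cSub
  cases hv : σ v with
  | inl c => rfl
  | inr p =>
    by_cases hp : p.1 = j
    · simp only [cY, hp, if_true]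
    · simp only [cY, if_neg hp]

theorem cSub_X {V : Type} (σ : V → Bool ⊕ (Bk L 1 × Ed k ν)) (j : Bk L 1)
    (h : Bk L 1 → Ed k ν → Fin Q) (y : Ed k ν → Fin Q) :
    subst σ (cX (cidx j + 1) (Function.update h j y)) = subst (cSub σ j h) (hb y) := by
  funext v
  unfold subst cSub
  cases hv : σ v with
  | inl c => rfl
  | inr p =>
    by_cases hp : p.1 = j
    · simp only [cX, hp, if_true, Function.update_self]
      simp
    · simp only [cX, if_neg hp, Function.update_of_ne hp]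
      have h1 : cidx p.1 ≠ cidx j := fun h => hp (cidx_inj h)
      have h2 : (cidx p.1 < cidx j + 1) ↔ (cidx p.1 < cidx j) := by omega
      simp only [h2]

theorem cX_le_cY (j : Bk L 1) (h : Bk L 1 → Ed k ν → Fin Q) (P : Tr k ν) (p : Bk L 1 × Ed k ν)
    (hp : cX (cidx j) h p = true) : cY j h P p = true := by
  unfold cY
  by_cases h1 : p.1 = j
  · unfold cX at hp
    rw [h1] at hp
    simp at hp
  · rw [if_neg h1]
    exact hp

/-- the value of a circuit as a real function of the input -/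
noncomputable def cF {V : Type} (σ : V → Bool ⊕ (Bk L 1 × Ed k ν)) (C : List (Gate V))
    (x : Bk L 1 × Ed k ν → Bool) : ℝ := ind (eval C (subst σ x))

theorem cF_mono {V : Type} (σ : V → Bool ⊕ (Bk L 1 × Ed k ν)) (C : List (Gate V)) (hC : Mono C)
    (j : Bk L 1) (h : Bk L 1 → Ed k ν → Fin Q) (P : Tr k ν) :
    cF σ C (cX (cidx j) h) ≤ cF σ C (cY j h P) :=
  ind_mono (CoreB_eval_mono (fun v => CoreB_subst_mono σ (fun p => cX_le_cY j h P p) v) C hC)

theorem cF_step (hr : 2 ≤ r) (hQ : 2 * l ^ 2 ≤ Q) (hν : 4 * l * r ≤ ν) (hl : 2 ≤ l) {V : Type}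
    (σ : V → Bool ⊕ (Bk L 1 × Ed k ν)) (C : List (Gate V)) (hC : Mono C) (j : Bk L 1) :
    av (fun h : Bk L 1 → Ed k ν → Fin Q => av fun P : Tr k ν => cF σ C (cY j h P)) ≤
      av (fun h : Bk L 1 → Ed k ν → Fin Q => cF σ C (cX (cidx j + 1) h)) +
        C.length * err k ν l r := by
  rw [av_update j fun h : Bk L 1 → Ed k ν → Fin Q => cF σ C (cX (cidx j + 1) h)]
  have h1 : ∀ h : Bk L 1 → Ed k ν → Fin Q, (av fun P : Tr k ν => cF σ C (cY j h P)) ≤
      (av fun y : Ed k ν → Fin Q => cF σ C (cX (cidx j + 1) (Function.update h j y))) +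
        C.length * err k ν l r := by
    intro h
    unfold cF
    simp only [cSub_Y, cSub_X]
    exact approx hr hQ hν hl (cSub σ j h) C hC
  refine (av_mono h1).trans_eq ?_
  rw [av_add, av_const]

/-- the sum of the increments -/
noncomputable def cD (k ν Q L : ℕ) [NeZero Q] (F : (Bk L 1 × Ed k ν → Bool) → ℝ) : ℝ :=
  ∑ j : Bk L 1, ((av fun h : Bk L 1 → Ed k ν → Fin Q => av fun P : Tr k ν => F (cY j h P)) -
    av fun h : Bk L 1 → Ed k ν → Fin Q => F (cX (cidx j) h))

theorem sum_cidx (f : ℕ → ℝ) :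
    ∑ j : Bk L 1, f (cidx j) = ∑ i ∈ Finset.range (Fintype.card (Bk L 1)), f i := by
  rw [← Fin.sum_univ_eq_sum_range]
  exact Equiv.sum_comp (Fintype.equivFin (Bk L 1)) fun i => f i.1

theorem cD_nonneg (hν : 1 ≤ ν) {V : Type} (σ : V → Bool ⊕ (Bk L 1 × Ed k ν)) (C : List (Gate V))
    (hC : Mono C) : 0 ≤ cD k ν Q L (cF σ C) := by
  have hne : Nonempty (Fin ν) := ⟨⟨0, hν⟩⟩
  refine Finset.sum_nonneg fun j _ => ?_
  rw [sub_nonneg]
  exact av_mono fun h => le_av fun P => cF_mono σ C hC j h P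

theorem cD_le (hr : 2 ≤ r) (hQ : 2 * l ^ 2 ≤ Q) (hν : 4 * l * r ≤ ν) (hl : 2 ≤ l) {V : Type}
    (σ : V → Bool ⊕ (Bk L 1 × Ed k ν)) (C : List (Gate V)) (hC : Mono C) :
    cD k ν Q L (cF σ C) ≤ 1 + (L * L : ℕ) * (C.length * err k ν l r) := by
  set a : ℕ → ℝ := fun i => av fun h : Bk L 1 → Ed k ν → Fin Q => cF σ C (cX i h) with ha
  have hcard : Fintype.card (Bk L 1) = L * L := by
    simp only [Fintype.card_prod, Fintype.card_fin, mul_one]
  have h1 : cD k ν Q L (cF σ C) ≤
      ∑ j : Bk L 1, ((a (cidx j + 1) + C.length * err k ν l r) - a (cidx j)) :=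
    Finset.sum_le_sum fun j _ => sub_le_sub_right (cF_step hr hQ hν hl σ C hC j) _
  have h2 := sum_cidx (L := L) fun i => (a (i + 1) + C.length * err k ν l r) - a i
  have h3 : ∑ i ∈ Finset.range (Fintype.card (Bk L 1)),
      ((a (i + 1) + C.length * err k ν l r) - a i) =
      a (Fintype.card (Bk L 1)) - a 0 + (L * L : ℕ) * (C.length * err k ν l r) := by
    have h4 : ∀ i, (a (i + 1) + C.length * err k ν l r) - a i =
        (a (i + 1) - a i) + C.length * err k ν l r := fun i => by ring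
    simp only [h4]
    rw [Finset.sum_add_distrib, Finset.sum_range_sub, Finset.sum_const, Finset.card_range,
      nsmul_eq_mul, hcard]
  have h5 : a (Fintype.card (Bk L 1)) ≤ 1 := av_le fun h => ind_le_one _
  have h6 : 0 ≤ a 0 := av_nonneg fun h => ind_nonneg _
  linarith [h1.trans_eq (h2.trans h3)]

/-- no circuit with few NOT gates increases much -/
theorem cD_circuit (hr : 2 ≤ r) (hQ : 2 * l ^ 2 ≤ Q) (hν : 4 * l * r ≤ ν) (hl : 2 ≤ l) {V : Type}
    (σ : V → Bool ⊕ (Bk L 1 × Ed k ν)) (C : List (Gate V)) :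
    cD k ν Q L (cF σ C) ≤ 2 ^ negations C * (1 +
        (L * L : ℕ) * ((C.length + 2 * negations C + 5 : ℕ) * err k ν l r)) := by
  have hν1 : 1 ≤ ν := by
    have h1 : 0 < l * r := Nat.mul_pos (by omega) (by omega)
    have h2 : 4 * l * r = 4 * (l * r) := by ring
    omega
  have herr : 0 ≤ err k ν l r := by
    unfold err
    positivity
  obtain ⟨M, B, Z, hZ, hMB, hsum⟩ := split C
  have h1 : cD k ν Q L (cF σ C) = ∑ z ∈ Z, (cD k ν Q L (cF σ (M z)) - cD k ν Q L (cF σ (B z))) := by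
    have e1 : cF σ C = fun x => ∑ z ∈ Z, (cF σ (M z) x - cF σ (B z) x) := by
      funext x
      exact hsum _
    rw [e1]
    unfold cD
    simp only [← Finset.sum_sub_distrib]
    rw [Finset.sum_comm]
    refine Finset.sum_congr rfl fun j _ => ?_
    have e2 : ∀ h : Bk L 1 → Ed k ν → Fin Q,
        (av fun P : Tr k ν => ∑ z ∈ Z, (cF σ (M z) (cY j h P) - cF σ (B z) (cY j h P))) =
        ∑ z ∈ Z, ((av fun P : Tr k ν => cF σ (M z) (cY j h P)) -
          av fun P : Tr k ν => cF σ (B z) (cY j h P)) := by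
      intro h
      rw [av_sum]
      exact Finset.sum_congr rfl fun z _ => av_sub _ _
    simp only [e2]
    rw [av_sum, av_sum, ← Finset.sum_sub_distrib]
    refine Finset.sum_congr rfl fun z _ => ?_
    rw [av_sub, av_sub]
    ring
  rw [h1]
  have h2 : ∀ z ∈ Z, cD k ν Q L (cF σ (M z)) - cD k ν Q L (cF σ (B z)) ≤
      1 + (L * L : ℕ) * ((C.length + 2 * negations C + 5 : ℕ) * err k ν l r) := by
    intro z hz
    obtain ⟨hM, hB, hlen⟩ := hMB z hz
    have h3 := cD_le hr hQ hν hl σ (M z) hM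
    have h4 := cD_nonneg (Q := Q) hν1 σ (B z) hB
    have h5 : ((M z).length : ℝ) * err k ν l r ≤
        (C.length + 2 * negations C + 5 : ℕ) * err k ν l r :=
      mul_le_mul_of_nonneg_right (by exact_mod_cast hlen) herr
    have h6 : ((L * L : ℕ) : ℝ) * (((M z).length : ℝ) * err k ν l r) ≤
        (L * L : ℕ) * ((C.length + 2 * negations C + 5 : ℕ) * err k ν l r) :=
      mul_le_mul_of_nonneg_left h5 (Nat.cast_nonneg _)
    linarith
  refine (Finset.sum_le_card_nsmul _ _ _ h2).trans_eq ?_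
  rw [nsmul_eq_mul, hZ]
  push_cast
  ring

/-- the probability that a dense block contains a biclique -/
theorem pr_bic_one (hν : 1 ≤ ν) : pr (fun h : Ed k ν → Fin Q => Bic (hb h)) ≤
    (ν : ℝ) ^ (2 * k) * (1 - 1 / (Q : ℝ)) ^ (k ^ 2) := by
  have hne : Nonempty (Fin ν) := ⟨⟨0, hν⟩⟩
  have h1 := pr_bic (k := k) (Q := Q) (T := 1) hν 0
  rw [pow_one] at h1
  refine le_trans (le_of_eq ?_) h1
  have e : ∀ ω : Om k ν Q 1, Bic (blk false 0 ω) ↔ Bic (hb (ω.1 0)) := by
    intro ω
    have : blk false 0 ω = hb (ω.1 0) := by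
      funext e
      unfold blk lev hb
      simp only [Bool.false_and, Bool.or_false]
      apply decide_eq_decide.2
      constructor
      · rintro ⟨j, _, hj⟩
        rw [Subsingleton.elim j 0] at hj
        exact hj
      · intro hj
        exact ⟨0, le_rfl, hj⟩
    rw [this]
  rw [pr_congr e, ← CoreB_pr_coord (0 : Fin 1) fun h : Ed k ν → Fin Q => Bic (hb h)]
  unfold pr
  rw [av_prod]
  congr 1
  funext a
  exact (av_const (α := Tr k ν) (if Bic (hb (a 0)) then (1 : ℝ) else 0)).symm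

/-- some dense block contains a biclique -/
def cBad (h : Bk L 1 → Ed k ν → Fin Q) : Prop :=
  ∃ j ∈ (Finset.univ : Finset (Bk L 1)), Bic (hb (h j))

theorem pr_bad (hν : 1 ≤ ν) :
    pr (fun h : Bk L 1 → Ed k ν → Fin Q => cBad h) ≤
      (L * L : ℕ) * ((ν : ℝ) ^ (2 * k) * (1 - 1 / (Q : ℝ)) ^ (k ^ 2)) := by
  refine (pr_exists_le Finset.univ
    fun (j : Bk L 1) (h : Bk L 1 → Ed k ν → Fin Q) => Bic (hb (h j))).trans ?_
  have hcard : (Finset.univ : Finset (Bk L 1)).card = L * L := by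
    rw [Finset.card_univ]
    simp only [Fintype.card_prod, Fintype.card_fin, mul_one]
  rw [← hcard, ← nsmul_eq_mul]
  refine Finset.sum_le_card_nsmul _ _ _ fun j _ => ?_
  rw [CoreB_pr_coord j fun h : Ed k ν → Fin Q => Bic (hb h)]
  exact pr_bic_one hν

section Guess

variable {V Y : Type} [Fintype Y] (σ : Y → V → Bool ⊕ (Bk L 1 × Ed k ν)) (C : List (Gate V))
    (hC : ∀ x : Bk L 1 × Ed k ν → Bool,
      (∃ y, eval C (subst (σ y) x) = true) ↔ ∃ i, ∀ j, Bic fun e => x ((i, j), e))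

include hC

theorem one_le_sum_Y (j : Bk L 1) (h : Bk L 1 → Ed k ν → Fin Q) (P : Tr k ν) :
    1 ≤ ∑ y, cF (σ y) C (cY j h P) := by
  have h1 : ∃ i, ∀ j', Bic fun e => cY j h P ((i, j'), e) := by
    refine ⟨j.1, fun j' => ?_⟩
    have h2 : (j.1, j') = j := Prod.ext rfl (Subsingleton.elim _ _)
    rw [h2]
    refine ⟨P, fun e he => ?_⟩
    have h3 : cY j h P (j, e) = KP P e := if_pos rfl
    exact h3.trans he
  obtain ⟨y, hy⟩ := (hC _).2 h1
  have h3 : cF (σ y) C (cY j h P) = 1 := by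
    unfold cF ind
    rw [if_pos hy]
  rw [← h3]
  exact Finset.single_le_sum (f := fun y => cF (σ y) C (cY j h P)) (fun y _ => ind_nonneg _)
    (Finset.mem_univ y)

theorem sum_X_le (i : ℕ) (h : Bk L 1 → Ed k ν → Fin Q) :
    ∑ y, cF (σ y) C (cX i h) ≤ Fintype.card Y * (if cBad h then (1 : ℝ) else 0) := by
  by_cases hb1 : cBad h
  · rw [if_pos hb1, mul_one]
    refine (Finset.sum_le_card_nsmul _ _ 1 fun y _ => ind_le_one _).trans_eq ?_
    rw [Finset.card_univ, nsmul_eq_mul, mul_one]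
  · rw [if_neg hb1, mul_zero]
    refine (Finset.sum_eq_zero fun y _ => ?_).le
    unfold cF ind
    rw [if_neg]
    intro hy
    obtain ⟨i', hi'⟩ := (hC _).1 ⟨y, hy⟩
    obtain ⟨P, hP⟩ := hi' 0
    refine hb1 ⟨(i', 0), Finset.mem_univ _, P, fun e he => ?_⟩
    have h1 := hP e he
    unfold cX at h1
    rw [Bool.and_eq_true] at h1
    exact h1.2

theorem av_X_le (hν : 1 ≤ ν) (i : ℕ) :
    ∑ y, av (fun h : Bk L 1 → Ed k ν → Fin Q => cF (σ y) C (cX i h)) ≤ Fintype.card Y *
      ((L * L : ℕ) * ((ν : ℝ) ^ (2 * k) * (1 - 1 / (Q : ℝ)) ^ (k ^ 2))) := by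
  rw [← av_sum]
  have h1 : av (fun h : Bk L 1 → Ed k ν → Fin Q => ∑ y, cF (σ y) C (cX i h)) ≤
      Fintype.card Y * pr (fun h : Bk L 1 → Ed k ν → Fin Q => cBad h) := by
    unfold pr
    rw [← av_mul_left]
    exact av_mono fun h => sum_X_le σ C hC i h
  exact h1.trans (mul_le_mul_of_nonneg_left (pr_bad hν) (Nat.cast_nonneg _))

theorem one_le_av_Y (hν : 1 ≤ ν) (j : Bk L 1) :
    1 ≤ ∑ y, av (fun h : Bk L 1 → Ed k ν → Fin Q => av fun P : Tr k ν => cF (σ y) C (cY j h P)) := by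
  have hne : Nonempty (Fin ν) := ⟨⟨0, hν⟩⟩
  rw [← av_sum]
  refine le_av fun h => ?_
  rw [← av_sum]
  exact le_av fun P => one_le_sum_Y σ C hC j h P

/-- The inequality for circuits with guesses (`Y` is the set of the guesses, `σ y` substitutes the guess). -/
theorem chain_ineq (hr : 2 ≤ r) (hQ : 2 * l ^ 2 ≤ Q) (hν : 4 * l * r ≤ ν) (hl : 2 ≤ l) :
    ((L * L : ℕ) : ℝ) ≤ Fintype.card Y * (2 ^ negations C * (1 +
        (L * L : ℕ) * ((C.length + 2 * negations C + 5 : ℕ) * err k ν l r)) +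
      (L * L : ℕ) * ((L * L : ℕ) * ((ν : ℝ) ^ (2 * k) * (1 - 1 / (Q : ℝ)) ^ (k ^ 2)))) := by
  have hν1 : 1 ≤ ν := by
    have h1 : 0 < l * r := Nat.mul_pos (by omega) (by omega)
    have h2 : 4 * l * r = 4 * (l * r) := by ring
    omega
  set η : ℝ := (ν : ℝ) ^ (2 * k) * (1 - 1 / (Q : ℝ)) ^ (k ^ 2) with hη
  have hcard : (Finset.univ : Finset (Bk L 1)).card = L * L := by
    rw [Finset.card_univ]
    simp only [Fintype.card_prod, Fintype.card_fin, mul_one]
  have h0 : ∀ y, cD k ν Q L (cF (σ y) C) ≤ 2 ^ negations C * (1 +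
        (L * L : ℕ) * ((C.length + 2 * negations C + 5 : ℕ) * err k ν l r)) :=
    fun y => cD_circuit hr hQ hν hl (σ y) C
  generalize 2 ^ negations C * (1 +
        (L * L : ℕ) * ((C.length + 2 * negations C + 5 : ℕ) * err k ν l r)) = K at h0 ⊢
  have h1 : ∑ y, cD k ν Q L (cF (σ y) C) ≤ Fintype.card Y * K := by
    have h1' := Finset.sum_le_card_nsmul Finset.univ (fun y => cD k ν Q L (cF (σ y) C)) K
      fun y _ => h0 y
    rwa [Finset.card_univ, nsmul_eq_mul] at h1'
  have h2 : ((L * L : ℕ) : ℝ) * (1 - Fintype.card Y * ((L * L : ℕ) * η)) ≤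
      ∑ y, cD k ν Q L (cF (σ y) C) := by
    unfold cD
    rw [Finset.sum_comm]
    have h5 : ∀ j ∈ (Finset.univ : Finset (Bk L 1)),
        1 - (Fintype.card Y : ℝ) * ((L * L : ℕ) * η) ≤
        ∑ y, ((av fun h : Bk L 1 → Ed k ν → Fin Q => av fun P : Tr k ν =>
          cF (σ y) C (cY j h P)) -
            av fun h : Bk L 1 → Ed k ν → Fin Q => cF (σ y) C (cX (cidx j) h)) := by
      intro j _
      rw [Finset.sum_sub_distrib]
      have h3 := one_le_av_Y (Q := Q) σ C hC hν1 j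
      have h4 := av_X_le (Q := Q) σ C hC hν1 (cidx j)
      linarith
    have h6 := Finset.card_nsmul_le_sum _ _ _ h5
    rwa [hcard, nsmul_eq_mul] at h6
  nlinarith [h1, h2]

end Guess

/-- Without NOT gates. -/
theorem chain_mono {V Y : Type} [Fintype Y]
    (hr : 2 ≤ r) (hQ : 2 * l ^ 2 ≤ Q) (hν : 4 * l * r ≤ ν) (hl : 2 ≤ l)
    (σ : Y → V → Bool ⊕ (Bk 1 1 × Ed k ν)) (C : List (Gate V)) (hM : negations C = 0)
    (hC : ∀ x : Bk 1 1 × Ed k ν → Bool,
      (∃ y, eval C (subst (σ y) x) = true) ↔ ∃ i, ∀ j, Bic fun e => x ((i, j), e)) :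
    1 ≤ (Fintype.card Y : ℝ) * ((ν : ℝ) ^ (2 * k) * (1 - 1 / (Q : ℝ)) ^ (k ^ 2) +
      C.length * err k ν l r) := by
  have hν1 : 1 ≤ ν := by
    have h1 : 0 < l * r := Nat.mul_pos (by omega) (by omega)
    have h2 : 4 * l * r = 4 * (l * r) := by ring
    omega
  have j : Bk 1 1 := ((0, 0), 0)
  have h1 := one_le_av_Y (Q := Q) σ C hC hν1 j
  have h2 := av_X_le (Q := Q) σ C hC hν1 (cidx j + 1)
  have h3 : ∑ y, av (fun h : Bk 1 1 → Ed k ν → Fin Q => av fun P : Tr k ν =>
      cF (σ y) C (cY j h P)) ≤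
      ∑ y, (av (fun h : Bk 1 1 → Ed k ν → Fin Q => cF (σ y) C (cX (cidx j + 1) h)) +
        C.length * err k ν l r) := by
    apply Finset.sum_le_sum
    intro y _
    exact cF_step hr hQ hν hl (σ y) C hM j
  rw [Finset.sum_add_distrib, Finset.sum_const, Finset.card_univ, nsmul_eq_mul] at h3
  have h4 : ((1 * 1 : ℕ) : ℝ) = 1 := by norm_num
  rw [h4, one_mul] at h2
  rw [mul_add]
  linarith

end Pool.Agent.helper81.NL
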