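import Pool.Agent.helper81.NL.Lower
import Pool.Agent.helper81.NL.Upper
import Pool.Agent.helper96.NLG.PreLower

set_option autoImplicit false

/-!
# NG-9: the hierarchy (owner helper81)
-/

namespace Pool.Agent.helper81.NL

open Pool.Agent.helper96.NLG

/-- the size of the cliques -/
noncomputable def hK (b : ℝ) (n : ℕ) : ℕ := ⌈(n : ℝ) ^ b⌉₊

theorem hK_ge (b : ℝ) (n : ℕ) : (n : ℝ) ^ b ≤ hK b n := Nat.le_ceil _

theorem hK_le (b : ℝ) (n : ℕ) : (hK b n : ℝ) ≤ (n : ℝ) ^ b + 1 :=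
  (Nat.ceil_lt_add_one (Real.rpow_nonneg (Nat.cast_nonneg n) b)).le

theorem hK_half {b : ℝ} (hb : b ≤ 1 / 2) : ∀ n ≥ 16, 2 * hK b n ≤ n := by
  intro n hn
  have hn1 : (16 : ℝ) ≤ n := by exact_mod_cast hn
  have h1 : (n : ℝ) ^ b ≤ (n : ℝ) ^ (1 / 2 : ℝ) :=
    Real.rpow_le_rpow_of_exponent_le (by linarith) hb
  have h2 := hK_le b n
  rw [← Real.sqrt_eq_rpow] at h1
  have h3 : (2 * hK b n : ℝ) ≤ n := by
    have h4 : Real.sqrt n * Real.sqrt n = n := Real.mul_self_sqrt (by linarith)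
    have h5 : (4 : ℝ) ≤ Real.sqrt n := by
      rw [show (4 : ℝ) = Real.sqrt 16 by
        rw [show (16 : ℝ) = 4 ^ 2 by norm_num, Real.sqrt_sq (by norm_num)]]
      exact Real.sqrt_le_sqrt hn1
    nlinarith
  exact_mod_cast h3

/-- `(n^b + 1) (log₂ n + 1) ≤ n^(2b)` for large `n` -/
theorem hK_guess {b : ℝ} (hb : 0 < b) : ∃ n₀ : ℕ, ∀ n ≥ n₀,
    ((hK b n * Nat.clog 2 n : ℕ) : ℝ) ≤ (n : ℝ) ^ (2 * b) := by
  have h1 : Filter.Tendsto (fun n : ℕ => Real.log (n : ℝ) / (n : ℝ) ^ b) Filter.atTop (nhds 0) := by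
    have h := (isLittleO_log_rpow_atTop hb).tendsto_div_nhds_zero
    exact h.comp tendsto_natCast_atTop_atTop
  have h2 : Filter.Tendsto (fun n : ℕ => (n : ℝ) ^ b) Filter.atTop Filter.atTop :=
    (tendsto_rpow_atTop hb).comp tendsto_natCast_atTop_atTop
  obtain ⟨n1, hn1⟩ := (h1.eventually (gt_mem_nhds (show (0 : ℝ) < 1 / 16 by norm_num))).exists_forall_of_atTop
  obtain ⟨n2, hn2⟩ := (h2.eventually_ge_atTop 16).exists_forall_of_atTop
  refine ⟨max (max n1 n2) 2, fun n hn => ?_⟩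
  have hn3 : 2 ≤ n := le_trans (le_max_right _ _) hn
  have hnr : (2 : ℝ) ≤ n := by exact_mod_cast hn3
  have h3 := hn1 n (le_trans (le_trans (le_max_left _ _) (le_max_left _ _)) hn)
  have h4 := hn2 n (le_trans (le_trans (le_max_right _ _) (le_max_left _ _)) hn)
  set X := (n : ℝ) ^ b with hX
  have hX0 : 0 < X := by linarith
  rw [div_lt_iff₀ hX0] at h3
  have h5 : (Nat.clog 2 n : ℝ) ≤ 2 * Real.log n + 1 := by
    have h6 : Nat.clog 2 n ≤ Nat.log 2 n + 1 := by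
      apply Nat.clog_le_of_le_pow
      exact (Nat.lt_pow_succ_log_self (by norm_num) n).le
    have h7 : (Nat.log 2 n : ℝ) * Real.log 2 ≤ Real.log n := by
      rw [← Real.log_pow]
      apply Real.log_le_log (by positivity)
      exact_mod_cast Nat.pow_log_le_self 2 (by omega)
    have h8 : (Nat.clog 2 n : ℝ) ≤ Nat.log 2 n + 1 := by exact_mod_cast h6
    have h9 := Real.log_two_gt_d9
    have h10 : (0 : ℝ) ≤ Nat.log 2 n := Nat.cast_nonneg _
    nlinarith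
  have h11 := hK_le b n
  have h12 : (n : ℝ) ^ (2 * b) = X * X := by
    rw [hX, ← Real.rpow_add (by linarith)]
    congr 1
    ring
  rw [h12]
  push_cast
  have h13 : (0 : ℝ) ≤ hK b n := Nat.cast_nonneg _
  have h14 : (hK b n : ℝ) ≤ 2 * X := by linarith
  have h15 : (Nat.clog 2 n : ℝ) ≤ X / 4 := by linarith
  have h16 : (0 : ℝ) ≤ Nat.clog 2 n := Nat.cast_nonneg _
  nlinarith [mul_le_mul h14 h15 h16 (by linarith)]

/-- For every `b > 0` there is a family of clique problems which is decided with `n ^ b` guess bits in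
polynomial size without NOT gates, but neither with `a log₂ n` guess bits and `s log₂ n` NOT gates
(`a + s < 2`) nor with `s log₂ n` NOT gates (`s < 2`) before the guesses and `n ^ c` guess bits. -/
theorem hierarchy (b : ℝ) (hb : 0 < b) : ∃ k : ℕ → ℕ,
    (∃ n₀ : ℕ, ∀ n ≥ n₀, ∃ g : ℕ, ∃ C : List (Gate ((Fin n × Fin n) ⊕ (Fin g × Bool))),
      GuessClique n (k n) g C ∧ (g : ℝ) ≤ (n : ℝ) ^ b ∧ negations C = 0 ∧ C.length ≤ n ^ 7) ∧
    (∀ a s : ℝ, a + s < 2 → ∃ c : ℝ, 0 < c ∧ ∃ n₀ : ℕ, ∀ n ≥ n₀, ∀ (g : ℕ)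
      (C : List (Gate ((Fin n × Fin n) ⊕ (Fin g × Bool)))), GuessClique n (k n) g C →
      (g : ℝ) ≤ a * Real.logb 2 n → (negations C : ℝ) ≤ s * Real.logb 2 n →
      (2 : ℝ) ^ ((n : ℝ) ^ c) ≤ C.length) ∧
    (∀ s : ℝ, s < 2 → ∃ c : ℝ, 0 < c ∧ ∃ n₀ : ℕ, ∀ n ≥ n₀, ∀ (g : ℕ)
      (C : List (Gate ((Fin n × Fin n) ⊕ (Fin g × Bool)))), GuessClique n (k n) g C →
      NotsFirst C → (g : ℝ) ≤ (n : ℝ) ^ c → (negations C : ℝ) ≤ s * Real.logb 2 n →
      (2 : ℝ) ^ ((n : ℝ) ^ c) ≤ C.length) := by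
  obtain ⟨β, hβ0, hβ1, hβ2⟩ : ∃ β : ℝ, 0 < β ∧ β ≤ 1 / 2 ∧ 2 * β ≤ b := by
    refine ⟨min b 1 / 2, by positivity, ?_, ?_⟩
    · have := min_le_right b 1
      linarith
    · have := min_le_left b 1
      linarith
  have hlog : ∀ n : ℕ, 16 ≤ n → 0 ≤ Real.logb 2 n := fun n hn =>
    Real.logb_nonneg (by norm_num) (by
      have : (16 : ℝ) ≤ n := by exact_mod_cast hn
      linarith)
  have hexp : ∀ (ε : ℝ) (n : ℕ), ε ≤ β → 16 ≤ n → (n : ℝ) ^ ε ≤ hK β n := by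
    intro ε n hε hn
    have hn1 : (16 : ℝ) ≤ n := by exact_mod_cast hn
    exact (Real.rpow_le_rpow_of_exponent_le (by linarith) hε).trans (hK_ge β n)
  refine ⟨hK β, ?_, ?_, ?_⟩
  · obtain ⟨n₀, hn₀⟩ := hK_guess hβ0
    refine ⟨max n₀ 42, fun n hn => ?_⟩
    have hn1 : n₀ ≤ n := le_trans (le_max_left _ _) hn
    have hn2 : 42 ≤ n := le_trans (le_max_right _ _) hn
    obtain ⟨C, hC1, hC2, hC3⟩ := clique_upper n (hK β n)
    refine ⟨_, C, hC3, ?_, hC1, ?_⟩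
    · refine (hn₀ n hn1).trans (Real.rpow_le_rpow_of_exponent_le ?_ hβ2)
      have : (42 : ℝ) ≤ n := by exact_mod_cast hn2
      linarith
    · refine hC2.trans ?_
      have h1 := hK_half hβ1 n (by omega)
      calc 20 * (n + hK β n + 1) ^ 5 ≤ 20 * (2 * n) ^ 5 :=
            Nat.mul_le_mul_left _ (Nat.pow_le_pow_left (by omega) _)
        _ = 640 * n ^ 5 := by ring
        _ ≤ (n * n) * n ^ 5 := Nat.mul_le_mul_right _ (by nlinarith)
        _ = n ^ 7 := by ring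
  · intro a s has
    obtain ⟨c, hc, n₀, h⟩ := lower_exp (min β (2 - a - s)) (lt_min hβ0 (by linarith))
    refine ⟨c, hc, max n₀ 16, fun n hn g C hC hg hs => ?_⟩
    have hn1 : n₀ ≤ n := le_trans (le_max_left _ _) hn
    have hn2 : 16 ≤ n := le_trans (le_max_right _ _) hn
    refine h n hn1 _ g (hexp _ n (min_le_left _ _) hn2) (hK_half hβ1 n hn2) C hC (Or.inl ?_)
    have h1 := hlog n hn2
    have h2 : a + s ≤ 2 - min β (2 - a - s) := by
      have := min_le_right β (2 - a - s)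
      linarith
    calc (g : ℝ) + negations C ≤ (a + s) * Real.logb 2 n := by linarith
      _ ≤ _ := mul_le_mul_of_nonneg_right h2 h1
  · intro s hs2
    obtain ⟨c, hc, n₀, h⟩ := pre_lower (min β (2 - s)) (lt_min hβ0 (by linarith))
    refine ⟨c, hc, max n₀ 16, fun n hn g C hC hN hg hs => ?_⟩
    have hn1 : n₀ ≤ n := le_trans (le_max_left _ _) hn
    have hn2 : 16 ≤ n := le_trans (le_max_right _ _) hn
    refine h n hn1 _ g (hexp _ n (min_le_left _ _) hn2) (hK_half hβ1 n hn2) C hC hN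
      (hs.trans ?_) hg
    refine mul_le_mul_of_nonneg_right ?_ (hlog n hn2)
    have := min_le_right β (2 - s)
    linarith

end Pool.Agent.helper81.NL
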