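import Pool.Agent.helper81.NL.Avg

set_option autoImplicit false

/-!
# NL-2: probabilities for one random layer
-/

namespace Pool.Agent.helper81.NL

open scoped Classical

variable {k ν Q : ℕ} [NeZero Q]

/-- the indicator function of a proposition -/
noncomputable def LayerI (p : Prop) : ℝ := if p then 1 else 0

theorem Layer_pr {α : Type*} [Fintype α] (p : α → Prop) : pr p = av fun a => LayerI (p a) := rfl

theorem Layer_congr {p q : Prop} (h : p ↔ q) : LayerI p = LayerI q := by
  rw [propext h]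

theorem Layer_and (p q : Prop) : LayerI (p ∧ q) = LayerI p * LayerI q := by
  unfold LayerI
  by_cases hp : p
  · by_cases hq : q
    · rw [if_pos ⟨hp, hq⟩, if_pos hp, if_pos hq, mul_one]
    · rw [if_neg fun h => hq h.2, if_neg hq, mul_zero]
  · rw [if_neg fun h => hp h.1, if_neg hp, zero_mul]

theorem Layer_pr_zero (e : Ed k ν) : pr (fun h : Ed k ν → Fin Q => h e = 0) = 1 / Q := by
  rw [Layer_pr, av_update e]
  have h1 : (av fun x : Ed k ν → Fin Q => av fun y : Fin Q =>
      LayerI ((Function.update x e y) e = 0)) =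
      av fun _ : Ed k ν → Fin Q => pr fun y : Fin Q => y = 0 := by
    congr 1
    funext x
    rw [Layer_pr]
    congr 1
    funext y
    rw [Function.update_self]
  rw [h1, av_const, pr_eq_card, Fintype.card_fin]
  have h2 : ∀ (inst : DecidablePred fun y : Fin Q => y = 0),
      (@Finset.filter _ (fun y : Fin Q => y = 0) inst Finset.univ) = {0} := by
    intro inst
    ext y
    simp
  rw [h2, Finset.card_singleton, Nat.cast_one]

theorem Layer_card (S : Finset (Vx k ν)) :
    (Finset.univ.filter fun e : Ed k ν => KS S e = true).card ≤ S.card ^ 2 := by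
  rw [pow_two, ← Finset.card_product]
  apply Finset.card_le_card_of_injOn
    (fun e : Ed k ν => ((((false, e.1.1), e.1.2), ((true, e.2.1), e.2.2)) : Vx k ν × Vx k ν))
  · intro e he
    have h1 := (Finset.mem_filter.1 he).2
    unfold KS at h1
    rw [Bool.and_eq_true, decide_eq_true_eq, decide_eq_true_eq] at h1
    exact Finset.mem_product.2 h1
  · intro e _ e' _ hee
    simp only [Prod.mk.injEq, true_and] at hee
    obtain ⟨⟨h1, h2⟩, h3, h4⟩ := hee
    exact Prod.ext (Prod.ext h1 h2) (Prod.ext h3 h4)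

theorem Layer_hb (h : Ed k ν → Fin Q) (e : Ed k ν) : ¬ hb h e = true ↔ h e = 0 := by
  unfold hb
  rw [decide_eq_true_eq, not_not]

theorem Layer_not_has (l : ℕ) (hQ : 2 * l ^ 2 ≤ Q) (S : Finset (Vx k ν)) (hS : S.card ≤ l) :
    pr (fun h : Ed k ν → Fin Q => ¬ Has S (hb h)) ≤ 1 / 2 := by
  have hQ0 : (0 : ℝ) < Q := Nat.cast_pos.2 (Nat.pos_of_ne_zero (NeZero.ne Q))
  calc pr (fun h : Ed k ν → Fin Q => ¬ Has S (hb h)) ≤
      pr (fun h : Ed k ν → Fin Q => ∃ e ∈ Finset.univ.filter fun e : Ed k ν => KS S e = true,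
        h e = 0) := by
        refine pr_mono fun h hh => ?_
        unfold Has at hh
        push Not at hh
        obtain ⟨e, he, he'⟩ := hh
        exact ⟨e, Finset.mem_filter.2 ⟨Finset.mem_univ _, he⟩, (Layer_hb h e).1 (by simpa using he')⟩
    _ ≤ ∑ e ∈ Finset.univ.filter fun e : Ed k ν => KS S e = true,
        pr (fun h : Ed k ν → Fin Q => h e = 0) := pr_exists_le _ _
    _ = (Finset.univ.filter fun e : Ed k ν => KS S e = true).card * (1 / Q : ℝ) := by
        rw [Finset.sum_congr rfl fun e _ => Layer_pr_zero e, Finset.sum_const, nsmul_eq_mul]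
    _ ≤ 1 / 2 := by
        rw [mul_one_div, div_le_div_iff₀ hQ0 (by norm_num)]
        have h1 := Layer_card S
        have h2 : S.card ^ 2 ≤ l ^ 2 := Nat.pow_le_pow_left hS 2
        have h3 : (Finset.univ.filter fun e : Ed k ν => KS S e = true).card * 2 ≤ 1 * Q := by omega
        exact_mod_cast h3

/-- PROOF: `¬ Has S (hb h)` means that some edge `e` with `KS S e` has `h e = 0`; union bound
(`pr_exists_le`): at most `#{e | KS S e} / Q`, where `pr (h e = 0) = 1 / Q`
(`av_update` at `e`, or `pr_eq_card`), and `#{e | KS S e} ≤ S.card ^ 2 ≤ l ^ 2` (the map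
`e ↦ (((false, e.1.1), e.1.2), ((true, e.2.1), e.2.2))` is injective into `S ×ˢ S`). Then `pr_not`. -/
theorem half_le_pr_has (l : ℕ) (hQ : 2 * l ^ 2 ≤ Q) (S : Finset (Vx k ν)) (hS : S.card ≤ l) :
    1 / 2 ≤ pr fun h : Ed k ν → Fin Q => Has S (hb h) := by
  have h1 := Layer_not_has l hQ S hS
  rw [pr_not] at h1
  linarith

theorem Layer_bad (S Y : Finset (Vx k ν)) (h : Ed k ν → Fin Q) :
    (¬ Has S fun e => hb h e || KS Y e) ↔
      ∃ e ∈ Finset.univ.filter fun e : Ed k ν => KS S e = true ∧ ¬ KS Y e = true, h e = 0 := by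
  unfold Has
  constructor
  · intro hh
    push Not at hh
    obtain ⟨e, he, he'⟩ := hh
    simp only [ne_eq, Bool.or_eq_true, not_or] at he'
    exact ⟨e, Finset.mem_filter.2 ⟨Finset.mem_univ _, he, he'.2⟩, (Layer_hb h e).1 he'.1⟩
  · rintro ⟨e, he, he0⟩ hh
    obtain ⟨-, h1, h2⟩ := Finset.mem_filter.1 he
    have h3 := hh e h1
    rw [Bool.or_eq_true] at h3
    rcases h3 with h3 | h3
    · exact (Layer_hb h e).2 he0 h3
    · exact h2 h3

theorem Layer_dep (S Y : Finset (Vx k ν)) (x y : Ed k ν → Fin Q)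
    (hxy : ∀ e ∈ Finset.univ.filter fun e : Ed k ν => KS S e = true ∧ ¬ KS Y e = true,
      x e = y e) :
    (¬ Has S fun e => hb x e || KS Y e) ↔ ¬ Has S fun e => hb y e || KS Y e := by
  rw [Layer_bad, Layer_bad]
  constructor
  · rintro ⟨e, he, h0⟩
    exact ⟨e, he, by rw [← hxy e he]; exact h0⟩
  · rintro ⟨e, he, h0⟩
    exact ⟨e, he, by rw [hxy e he]; exact h0⟩

/-- Petals are independent. PROOF: for `S ∈ D` let `A S = {e | KS S e ∧ ¬ KS Y e}`. The sets `A S` are
pairwise disjoint: an edge in `A S ∩ A S'`, `S ≠ S'`, has both ends in `S ∩ S' = Y`, so `KS Y e`.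
The event `¬ Has S (fun e => hb h e || KS Y e)` says `∃ e ∈ A S, h e = 0`, so it depends only on the
coordinates in `A S`, and its probability is at most `1/2` (it implies `¬ Has S (hb h)`, use
`half_le_pr_has`). Induction on `D` (`Finset.induction_on`) with `av_mul_of_dep` (with
`A = A S₀` for the new member `S₀`) for the product of the indicator functions. -/
theorem pr_petals (l : ℕ) (hQ : 2 * l ^ 2 ≤ Q) (D : Finset (Finset (Vx k ν))) (Y : Finset (Vx k ν))
    (hD : ∀ S ∈ D, S.card ≤ l) (hY : ∀ S ∈ D, ∀ S' ∈ D, S ≠ S' → S ∩ S' = Y) :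
    pr (fun h : Ed k ν → Fin Q => ∀ S ∈ D, ¬ Has S fun e => hb h e || KS Y e) ≤
      (1 / 2) ^ D.card := by
  revert hD hY
  refine Finset.induction_on D ?_ ?_
  · intro _ _
    rw [Finset.card_empty, pow_zero]
    exact pr_le_one _
  · intro S₀ D' hS₀ ih hD hY
    have ih' := ih (fun S hS => hD S (Finset.mem_insert_of_mem hS))
      (fun S hS S' hS' hne => hY S (Finset.mem_insert_of_mem hS) S' (Finset.mem_insert_of_mem hS') hne)
    have h1 : pr (fun h : Ed k ν → Fin Q => ∀ S ∈ insert S₀ D', ¬ Has S fun e => hb h e || KS Y e) =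
        av (fun h : Ed k ν → Fin Q => LayerI (¬ Has S₀ fun e => hb h e || KS Y e) *
          LayerI (∀ S ∈ D', ¬ Has S fun e => hb h e || KS Y e)) := by
      rw [Layer_pr]
      congr 1
      funext h
      rw [← Layer_and]
      exact Layer_congr (Finset.forall_mem_insert _ _ _)
    have h2 := av_mul_of_dep
      (Finset.univ.filter fun e : Ed k ν => KS S₀ e = true ∧ ¬ KS Y e = true)
      (fun h : Ed k ν → Fin Q => LayerI (¬ Has S₀ fun e => hb h e || KS Y e))
      (fun h : Ed k ν → Fin Q => LayerI (∀ S ∈ D', ¬ Has S fun e => hb h e || KS Y e))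
      (fun x y hxy => Layer_congr (Layer_dep S₀ Y x y hxy)) (by
        intro x y hxy
        have key : ∀ S ∈ D', ∀ e ∈ Finset.univ.filter fun e : Ed k ν =>
            KS S e = true ∧ ¬ KS Y e = true, x e = y e := by
          intro S hS e he
          apply hxy
          intro he0
          obtain ⟨-, a1, a2⟩ := Finset.mem_filter.1 he
          obtain ⟨-, b1, -⟩ := Finset.mem_filter.1 he0
          apply a2
          have hne : S ≠ S₀ := by
            rintro rfl
            exact hS₀ hS
          have hYe := hY S (Finset.mem_insert_of_mem hS) S₀ (Finset.mem_insert_self _ _) hne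
          unfold KS at a1 b1 ⊢
          rw [Bool.and_eq_true, decide_eq_true_eq, decide_eq_true_eq] at a1 b1 ⊢
          rw [← hYe]
          exact ⟨Finset.mem_inter.2 ⟨a1.1, b1.1⟩, Finset.mem_inter.2 ⟨a1.2, b1.2⟩⟩
        refine Layer_congr ⟨fun hc S hS => (Layer_dep S Y x y (key S hS)).1 (hc S hS),
          fun hc S hS => (Layer_dep S Y x y (key S hS)).2 (hc S hS)⟩)
    have h3 : av (fun h : Ed k ν → Fin Q => LayerI (¬ Has S₀ fun e => hb h e || KS Y e)) ≤ 1 / 2 := by
      rw [← Layer_pr]
      refine le_trans (pr_mono (q := fun h : Ed k ν → Fin Q => ¬ Has S₀ (hb h)) ?_)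
        (Layer_not_has l hQ S₀ (hD S₀ (Finset.mem_insert_self _ _)))
      intro h hh hc
      apply hh
      intro e he
      simp only [hc e he, Bool.true_or]
    rw [Layer_pr] at ih'
    rw [h1, h2, Finset.card_insert_of_notMem hS₀, pow_succ, mul_comm]
    refine mul_le_mul ih' h3 ?_ (by positivity)
    rw [← Layer_pr]
    exact pr_nonneg _

end Pool.Agent.helper81.NL
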