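import Mathlib

set_option autoImplicit false

/-!
# NL-1: the sunflower lemma of Erdős and Rado
-/

namespace Pool.Agent.helper81.NL

/-- Sunflower lemma. PROOF: induction on `j` (for all `F`). `j = 0`: all members are `∅`, so
`F.card ≤ 1`, but the hypothesis says `1 < F.card`. Step `j + 1`: let `D ⊆ F` be a pairwise disjoint
subfamily of maximal cardinality. If `r ≤ D.card` take `r` members of `D` and `Y = ∅` (card `0 < j + 1`).
Otherwise `U = D.biUnion id` has at most `(r - 1) * (j + 1)` elements, and every member of `F` meets `U`
(maximality). So some `u ∈ U` lies in more than `j! * (r - 1)^j` members of `F` (pigeonhole: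
`Finset.exists_lt_card_fiber_of_mul_lt_card_of_maps_to` or a sum over `U`); apply the induction
hypothesis to `F' = ((F.filter (u ∈ ·)).image (·.erase u))` (erase `u` is injective on the sets
containing `u`) and add `u` to all members of the sunflower and to `Y`. -/
theorem sunflower {α : Type*} [DecidableEq α] (r : ℕ) (hr : 2 ≤ r) (j : ℕ) (F : Finset (Finset α))
    (hF : ∀ S ∈ F, S.card = j) (hc : j.factorial * (r - 1) ^ j < F.card) :
    ∃ D ⊆ F, D.card = r ∧ ∃ Y : Finset α, Y.card < j ∧
      (∀ S ∈ D, Y ⊆ S) ∧ ∀ S ∈ D, ∀ S' ∈ D, S ≠ S' → S ∩ S' = Y := by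
  classical
  induction j generalizing F with
  | zero =>
    exfalso
    have h1 : F ⊆ {∅} := fun S hS => by
      rw [Finset.mem_singleton]
      exact Finset.card_eq_zero.1 (hF S hS)
    have h2 := Finset.card_le_card h1
    simp only [Nat.factorial_zero, pow_zero, mul_one, Finset.card_singleton] at hc h2
    omega
  | succ j ih =>
    -- a maximal disjoint subfamily
    obtain ⟨D, hD, hmax⟩ := Finset.exists_max_image
      (F.powerset.filter fun D => ∀ S ∈ D, ∀ S' ∈ D, S ≠ S' → Disjoint S S') Finset.card
      ⟨∅, by simp⟩
    rw [Finset.mem_filter, Finset.mem_powerset] at hD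
    obtain ⟨hDF, hDd⟩ := hD
    by_cases hr2 : r ≤ D.card
    · obtain ⟨D', hD', hcard⟩ := Finset.exists_subset_card_eq hr2
      refine ⟨D', hD'.trans hDF, hcard, ∅, by simp, fun S _ => Finset.empty_subset S, ?_⟩
      intro S hS S' hS' hne
      exact Finset.disjoint_iff_inter_eq_empty.1 (hDd S (hD' hS) S' (hD' hS') hne)
    · rw [not_le] at hr2
      set U := D.biUnion id with hU
      have hUc : U.card ≤ (r - 1) * (j + 1) := by
        calc U.card ≤ ∑ S ∈ D, (id S).card := Finset.card_biUnion_le
          _ = ∑ S ∈ D, (j + 1) := Finset.sum_congr rfl fun S hS => hF S (hDF hS)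
          _ = D.card * (j + 1) := by rw [Finset.sum_const, smul_eq_mul]
          _ ≤ (r - 1) * (j + 1) := Nat.mul_le_mul_right _ (by omega)
      have hmeet : ∀ S ∈ F, ∃ u, u ∈ S ∧ u ∈ U := by
        intro S hS
        by_contra hcon
        push Not at hcon
        have hSne : S.Nonempty := Finset.card_pos.1 (by rw [hF S hS]; omega)
        have hSD : S ∉ D := by
          intro h
          obtain ⟨u, hu⟩ := hSne
          exact hcon u hu (Finset.mem_biUnion.2 ⟨S, h, hu⟩)
        have hdis : ∀ A ∈ D, Disjoint S A := by
          intro A hA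
          rw [Finset.disjoint_left]
          intro u hu huA
          exact hcon u hu (Finset.mem_biUnion.2 ⟨A, hA, huA⟩)
        have hmem : insert S D ∈ F.powerset.filter
            fun D => ∀ S ∈ D, ∀ S' ∈ D, S ≠ S' → Disjoint S S' := by
          rw [Finset.mem_filter, Finset.mem_powerset]
          refine ⟨Finset.insert_subset hS hDF, ?_⟩
          intro A hA B hB hne
          rw [Finset.mem_insert] at hA hB
          rcases hA with rfl | hA
          · rcases hB with rfl | hB
            · exact absurd rfl hne
            · exact hdis B hB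
          · rcases hB with rfl | hB
            · exact (hdis A hA).symm
            · exact hDd A hA B hB hne
        have h3 := hmax _ hmem
        rw [Finset.card_insert_of_notMem hSD] at h3
        omega
      have hne : ∀ S : Finset α, ∃ u : Option α, S ∈ F → ∃ v, u = some v ∧ v ∈ S ∧ v ∈ U := by
        intro S
        by_cases hS : S ∈ F
        · obtain ⟨u, hu, hu2⟩ := hmeet S hS
          exact ⟨some u, fun _ => ⟨u, rfl, hu, hu2⟩⟩
        · exact ⟨none, fun h => absurd h hS⟩
      choose f hf using hne
      have hmaps : ∀ S ∈ F, f S ∈ U.image some := by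
        intro S hS
        obtain ⟨v, hv, _, hvU⟩ := hf S hS
        rw [hv]
        exact Finset.mem_image_of_mem _ hvU
      have hlt : (U.image some).card * (j.factorial * (r - 1) ^ j) < F.card := by
        refine lt_of_le_of_lt ?_ hc
        calc (U.image some).card * (j.factorial * (r - 1) ^ j)
            ≤ ((r - 1) * (j + 1)) * (j.factorial * (r - 1) ^ j) :=
              Nat.mul_le_mul_right _ (Finset.card_image_le.trans hUc)
          _ = (j + 1).factorial * (r - 1) ^ (j + 1) := by
              rw [Nat.factorial_succ, pow_succ]
              ring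
      obtain ⟨y, hy, hycard⟩ := Finset.exists_lt_card_fiber_of_mul_lt_card_of_maps_to hmaps hlt
      obtain ⟨u, huU, rfl⟩ := Finset.mem_image.1 hy
      set F1 := F.filter (fun S => f S = some u) with hF1
      have hF1u : ∀ S ∈ F1, u ∈ S := by
        intro S hS
        rw [hF1, Finset.mem_filter] at hS
        obtain ⟨v, hv, hvS, _⟩ := hf S hS.1
        rw [hS.2] at hv
        rw [Option.some_injective _ hv]
        exact hvS
      have hinj : Set.InjOn (fun S : Finset α => S.erase u) (F1 : Set (Finset α)) := by
        intro A hA B hB hAB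
        have h4 : insert u (A.erase u) = insert u (B.erase u) := congrArg (insert u) hAB
        rwa [Finset.insert_erase (hF1u A hA), Finset.insert_erase (hF1u B hB)] at h4
      have hcard' : (F1.image (fun S => S.erase u)).card = F1.card :=
        Finset.card_image_of_injOn hinj
      obtain ⟨D', hD'F, hD'c, Y, hYc, hY1, hY2⟩ := ih (F1.image (fun S => S.erase u))
        (by
          intro S hS
          obtain ⟨A, hA, rfl⟩ := Finset.mem_image.1 hS
          have h5 := hF A (Finset.mem_filter.1 hA).1
          rw [Finset.card_erase_of_mem (hF1u A hA), h5, Nat.add_sub_cancel])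
        (by rw [hcard']; exact hycard)
      have hnot : ∀ S ∈ D', u ∉ S := by
        intro S hS
        obtain ⟨A, _, rfl⟩ := Finset.mem_image.1 (hD'F hS)
        exact Finset.notMem_erase u A
      refine ⟨D'.image (fun S => insert u S), ?_, ?_, insert u Y, ?_, ?_, ?_⟩
      · intro S hS
        obtain ⟨A, hA, rfl⟩ := Finset.mem_image.1 hS
        obtain ⟨B, hB, rfl⟩ := Finset.mem_image.1 (hD'F hA)
        rw [Finset.insert_erase (hF1u B hB)]
        exact (Finset.mem_filter.1 hB).1
      · rw [Finset.card_image_of_injOn, hD'c]
        intro A hA B hB hAB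
        have h6 : (insert u A).erase u = (insert u B).erase u := congrArg (fun S => S.erase u) hAB
        rwa [Finset.erase_insert (hnot A hA), Finset.erase_insert (hnot B hB)] at h6
      · exact (Finset.card_insert_le u Y).trans_lt (by omega)
      · intro S hS
        obtain ⟨A, hA, rfl⟩ := Finset.mem_image.1 hS
        exact Finset.insert_subset_insert u (hY1 A hA)
      · intro S hS S' hS' hne
        obtain ⟨A, hA, rfl⟩ := Finset.mem_image.1 hS
        obtain ⟨B, hB, rfl⟩ := Finset.mem_image.1 hS'
        have hAB : A ≠ B := fun h => hne (by rw [h])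
        have h7 := hY2 A hA B hB hAB
        rw [← Finset.insert_inter_distrib, h7]

end Pool.Agent.helper81.NL
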