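import Pool.Agent.helper81.NL.Avg
import Pool.Agent.helper81.NL.Sunflower
import Pool.Agent.helper81.NL.Layer

set_option autoImplicit false

/-!
# NL-3: closed families
-/

namespace Pool.Agent.helper81.NL

open scoped Classical

variable {k ν Q : ℕ} [NeZero Q] {l r : ℕ}

/-- The family of all sets with at most `l` elements. -/
theorem closed_all : Closed (k := k) (ν := ν) Q l r (Finset.univ.filter fun S => S.card ≤ l) := by
  constructor
  · intro S hS
    exact (Finset.mem_filter.1 hS).2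
  · intro S hS _
    exact Finset.mem_filter.2 ⟨Finset.mem_univ _, hS⟩

/-- The empty family: the probability in the definition is `1 > (1/2)^r`. -/
theorem closed_empty (hr : 1 ≤ r) : Closed (k := k) (ν := ν) Q l r ∅ := by
  constructor
  · intro S hS
    exact absurd hS (Finset.notMem_empty _)
  · intro S hS h
    exfalso
    have h1 : pr (fun h : Ed k ν → Fin Q => ¬ Acc ∅ fun e => hb h e || KS S e) = 1 := by
      have : Nonempty (Ed k ν → Fin Q) := ⟨fun _ => 0⟩
      apply pr_true
      rintro a ⟨T, hT, _⟩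
      exact absurd hT (Finset.notMem_empty _)
    rw [h1] at h
    have h2 : ((1 : ℝ) / 2) ^ r < 1 := pow_lt_one₀ (by norm_num) (by norm_num) (by omega)
    linarith

theorem Closed.inter {A B : Finset (Finset (Vx k ν))} (hA : Closed Q l r A) (hB : Closed Q l r B) :
    Closed Q l r (A ∩ B) := by
  constructor
  · intro S hS
    exact hA.1 S (Finset.mem_inter.1 hS).1
  · intro S hS h
    refine Finset.mem_inter.2 ⟨hA.2 S hS (le_trans (pr_mono ?_) h),
      hB.2 S hS (le_trans (pr_mono ?_) h)⟩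
    · rintro a h1 ⟨T, hT, hT'⟩
      exact h1 ⟨T, (Finset.mem_inter.1 hT).1, hT'⟩
    · rintro a h1 ⟨T, hT, hT'⟩
      exact h1 ⟨T, (Finset.mem_inter.1 hT).2, hT'⟩

lemma Closed_KS_mono {S S' : Finset (Vx k ν)} (h : S ⊆ S') {e : Ed k ν} (he : KS S e = true) :
    KS S' e = true := by
  unfold KS at he ⊢
  rw [Bool.and_eq_true, decide_eq_true_eq, decide_eq_true_eq] at he ⊢
  exact ⟨h he.1, h he.2⟩

/-- PROOF: `Acc A (h ∪ KS S')` always holds (member `S`), so the probability is `0`. -/
theorem Closed.up {A : Finset (Finset (Vx k ν))} (hA : Closed Q l r A) {S S' : Finset (Vx k ν)}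
    (hS : S ∈ A) (h : S ⊆ S') (hc : S'.card ≤ l) : S' ∈ A := by
  refine hA.2 S' hc ?_
  rw [pr_false]
  · positivity
  · intro a hn
    apply hn
    refine ⟨S, hS, fun e he => ?_⟩
    dsimp only
    rw [Closed_KS_mono h he, Bool.or_true]

/-- The number of sets with at most `l` elements. -/
lemma Closed_card_small (l : ℕ) :
    (Finset.univ.filter fun S : Finset (Vx k ν) => S.card ≤ l).card ≤ (2 * k * ν + 1) ^ l := by
  have h1 : Fintype.card (Fin l → Option (Vx k ν)) = (2 * k * ν + 1) ^ l := by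
    simp [Fintype.card_prod]
  rw [← h1, ← Finset.card_univ]
  have h2 : (Finset.univ.filter fun S : Finset (Vx k ν) => S.card ≤ l) ⊆
      Finset.univ.image fun f : Fin l → Option (Vx k ν) =>
        Finset.univ.filter fun v : Vx k ν => ∃ i, f i = some v := by
    intro S hS
    have hS' := (Finset.mem_filter.1 hS).2
    rw [Finset.mem_image]
    refine ⟨fun i => if h : i.1 < S.card then some (S.equivFin.symm ⟨i.1, h⟩).1 else none,
      Finset.mem_univ _, ?_⟩
    ext v
    rw [Finset.mem_filter]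
    constructor
    · rintro ⟨_, i, hi⟩
      dsimp only at hi
      by_cases h : i.1 < S.card
      · rw [dif_pos h, Option.some.injEq] at hi
        rw [← hi]
        exact (S.equivFin.symm ⟨i.1, h⟩).2
      · rw [dif_neg h] at hi
        exact absurd hi (by simp)
    · intro hv
      refine ⟨Finset.mem_univ _, ⟨(S.equivFin ⟨v, hv⟩).1, ?_⟩, ?_⟩
      · exact lt_of_lt_of_le (S.equivFin ⟨v, hv⟩).2 hS'
      · dsimp only
        rw [dif_pos (S.equivFin ⟨v, hv⟩).2]
        simp
  exact (Finset.card_le_card h2).trans Finset.card_image_le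

lemma Closed_or_KS {S : Finset (Vx k ν)} {X : Ed k ν → Bool} (h : Has S X) :
    (fun e => X e || KS S e) = X := by
  funext e
  by_cases he : KS S e = true
  · rw [he, h e he, Bool.or_true]
  · rw [Bool.not_eq_true] at he
    rw [he, Bool.or_false]

lemma Closed_closure_aux (n : ℕ) : ∀ A₀ : Finset (Finset (Vx k ν)), (∀ S ∈ A₀, S.card ≤ l) →
    (Finset.univ.filter fun S : Finset (Vx k ν) => S.card ≤ l ∧ S ∉ A₀).card ≤ n →
    ∃ A : Finset (Finset (Vx k ν)), Closed Q l r A ∧ A₀ ⊆ A ∧
      pr (fun h : Ed k ν → Fin Q => Acc A (hb h) ∧ ¬ Acc A₀ (hb h)) ≤ (n : ℝ) * (1 / 2) ^ r := by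
  induction n with
  | zero =>
    intro A₀ h₀ hn
    rw [Nat.le_zero, Finset.card_eq_zero] at hn
    refine ⟨A₀, ⟨h₀, ?_⟩, Finset.Subset.refl _, ?_⟩
    · intro S hS _
      by_contra hcon
      have : S ∈ (Finset.univ.filter fun S : Finset (Vx k ν) => S.card ≤ l ∧ S ∉ A₀) :=
        Finset.mem_filter.2 ⟨Finset.mem_univ _, hS, hcon⟩
      rw [hn] at this
      exact absurd this (Finset.notMem_empty _)
    · rw [pr_false]
      · positivity
      · rintro a ⟨h1, h2⟩
        exact h2 h1
  | succ n ih =>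
    intro A₀ h₀ hn
    by_cases hc : Closed Q l r A₀
    · refine ⟨A₀, hc, Finset.Subset.refl _, ?_⟩
      rw [pr_false]
      · positivity
      · rintro a ⟨h1, h2⟩
        exact h2 h1
    · have h1 : ∃ S : Finset (Vx k ν), S.card ≤ l ∧
          pr (fun h : Ed k ν → Fin Q => ¬ Acc A₀ fun e => hb h e || KS S e) ≤ (1 / 2) ^ r ∧
          S ∉ A₀ := by
        by_contra hcon
        apply hc
        refine ⟨h₀, fun S hS h => ?_⟩
        by_contra hS'
        exact hcon ⟨S, hS, h, hS'⟩
      obtain ⟨S, hS, hp, hSA⟩ := h1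
      have h2 : (Finset.univ.filter fun T : Finset (Vx k ν) =>
          T.card ≤ l ∧ T ∉ insert S A₀).card ≤ n := by
        have h3 : (Finset.univ.filter fun T : Finset (Vx k ν) =>
            T.card ≤ l ∧ T ∉ insert S A₀) ⊂
            (Finset.univ.filter fun T : Finset (Vx k ν) => T.card ≤ l ∧ T ∉ A₀) := by
          rw [Finset.ssubset_iff_of_subset]
          · refine ⟨S, Finset.mem_filter.2 ⟨Finset.mem_univ _, hS, hSA⟩, ?_⟩
            intro h
            exact (Finset.mem_filter.1 h).2.2 (Finset.mem_insert_self _ _)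
          · intro T hT
            have hT' := (Finset.mem_filter.1 hT).2
            exact Finset.mem_filter.2 ⟨Finset.mem_univ _, hT'.1,
              fun h => hT'.2 (Finset.mem_insert_of_mem h)⟩
        have h4 := Finset.card_lt_card h3
        omega
      have h3 : ∀ T ∈ insert S A₀, T.card ≤ l := by
        intro T hT
        rcases Finset.mem_insert.1 hT with rfl | hT
        · exact hS
        · exact h₀ T hT
      obtain ⟨A, hA, hsub, hpr⟩ := ih (insert S A₀) h3 h2
      refine ⟨A, hA, (Finset.subset_insert _ _).trans hsub, ?_⟩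
      have h5 : pr (fun h : Ed k ν → Fin Q => Acc A (hb h) ∧ ¬ Acc A₀ (hb h)) ≤
          pr (fun h : Ed k ν → Fin Q => Acc A (hb h) ∧ ¬ Acc (insert S A₀) (hb h)) +
          pr (fun h : Ed k ν → Fin Q => ¬ Acc A₀ fun e => hb h e || KS S e) := by
        refine le_trans (pr_mono ?_) (pr_or_le _ _)
        rintro a ⟨h6, h7⟩
        by_cases h8 : Acc (insert S A₀) (hb a)
        · right
          obtain ⟨T, hT, hT'⟩ := h8
          rcases Finset.mem_insert.1 hT with rfl | hT
          · rw [Closed_or_KS hT']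
            exact h7
          · exact absurd ⟨T, hT, hT'⟩ h7
        · exact Or.inl ⟨h6, h8⟩
      refine h5.trans ?_
      push_cast
      linarith

/-- Closure. PROOF: by strong induction on the number `N A₀` of sets `S` with `S.card ≤ l` and `S ∉ A₀`
prove the bound `N A₀ * (1/2)^r`. If `A₀` is closed take `A = A₀` (probability `0`). Otherwise there is
`S ∉ A₀`, `S.card ≤ l`, with `pr (¬ Acc A₀ (h ∪ KS S)) ≤ (1/2)^r`; apply the induction hypothesis to
`A₁ = insert S A₀`. `Acc A (hb h) ∧ ¬ Acc A₀ (hb h)` implies `Acc A ∧ ¬ Acc A₁` or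
`Has S (hb h) ∧ ¬ Acc A₀ (hb h)`, and in the second case `hb h ∪ KS S = hb h`, so
`¬ Acc A₀ (h ∪ KS S)`. Finally the number of sets with at most `l` elements is at most
`(2 k ν + 1)^l`: every such set is the image (`Finset.univ.image` and `eraseNone`/filterMap) of a function
`Fin l → Option (Vx k ν)`; `card (Vx k ν) = 2 * k * ν`. -/
theorem exists_closure (A₀ : Finset (Finset (Vx k ν))) (h₀ : ∀ S ∈ A₀, S.card ≤ l) :
    ∃ A : Finset (Finset (Vx k ν)), Closed Q l r A ∧ A₀ ⊆ A ∧
      pr (fun h : Ed k ν → Fin Q => Acc A (hb h) ∧ ¬ Acc A₀ (hb h)) ≤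
        ((2 * k * ν + 1 : ℕ) : ℝ) ^ l * (1 / 2) ^ r := by
  have h1 : (Finset.univ.filter fun S : Finset (Vx k ν) => S.card ≤ l ∧ S ∉ A₀).card ≤
      (2 * k * ν + 1) ^ l := by
    refine le_trans (Finset.card_le_card ?_) (Closed_card_small l)
    intro S hS
    exact Finset.mem_filter.2 ⟨Finset.mem_univ _, (Finset.mem_filter.1 hS).2.1⟩
  obtain ⟨A, hA, hsub, hpr⟩ := Closed_closure_aux (Q := Q) (r := r) _ A₀ h₀ h1
  refine ⟨A, hA, hsub, hpr.trans_eq ?_⟩
  push_cast
  ring

/-- The number of minimal members of a closed family with `j` elements. PROOF: if it is more than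
`j! * (r-1)^j`, there is a sunflower (`sunflower`) of `r` minimal members with kernel `Y`, `Y.card < j`.
By `pr_petals`, `pr (¬ Acc A (h ∪ KS Y)) ≤ (1/2)^r`, so `Y ∈ A`; but `Y ⊂ S` (strictly) for a member `S`,
which contradicts minimality. And `j! * (r-1)^j ≤ (l * r)^j` for `j ≤ l`
(`Nat.factorial_le_pow`). -/
theorem Closed.min_count (hr : 2 ≤ r) (hQ : 2 * l ^ 2 ≤ Q) {A : Finset (Finset (Vx k ν))}
    (hA : Closed Q l r A) (j : ℕ) (hj : j ≤ l) :
    (A.filter fun S => S.card = j ∧ ∀ S' ∈ A, S' ⊆ S → S' = S).card ≤ (l * r) ^ j := by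
  by_contra hcon
  rw [not_le] at hcon
  have h1 : j.factorial * (r - 1) ^ j ≤ (l * r) ^ j := by
    rw [mul_pow]
    refine Nat.mul_le_mul ?_ (Nat.pow_le_pow_left (Nat.sub_le _ _) _)
    exact (Nat.factorial_le_pow j).trans (Nat.pow_le_pow_left hj _)
  obtain ⟨D, hD, hDr, Y, hY, hYD, hDD⟩ := sunflower r hr j
    (A.filter fun S => S.card = j ∧ ∀ S' ∈ A, S' ⊆ S → S' = S)
    (fun S hS => (Finset.mem_filter.1 hS).2.1) (lt_of_le_of_lt h1 hcon)
  have h2 := pr_petals (Q := Q) l hQ D Y (fun S hS => hA.1 S (Finset.mem_filter.1 (hD hS)).1) hDD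
  rw [hDr] at h2
  have h3 : Y ∈ A := by
    refine hA.2 Y (hY.le.trans hj) (le_trans (pr_mono ?_) h2)
    intro a ha S hS hS'
    exact ha ⟨S, (Finset.mem_filter.1 (hD hS)).1, hS'⟩
  have h4 : D.Nonempty := by
    rw [← Finset.card_pos]; omega
  obtain ⟨S, hS⟩ := h4
  have h5 := (Finset.mem_filter.1 (hD hS)).2
  have h6 := h5.2 Y h3 (hYD S hS)
  rw [h6, h5.1] at hY
  exact absurd hY (lt_irrefl _)

end Pool.Agent.helper81.NL
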