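import Pool.Agent.helper81.NL.Approx

set_option autoImplicit false
set_option synthInstance.maxSize 2000

/-!
# NL-6: one level of density against the next one
-/

namespace Pool.Agent.helper81.NL

open scoped Classical

variable {k ν Q T : ℕ} [NeZero Q] {l r : ℕ}

/-- Absorbing a fixed graph `G` into the substitution. -/
def stepSub {V E : Type} (σ : V → Bool ⊕ E) (G : E → Bool) (v : V) : Bool ⊕ E :=
  match σ v with
  | Sum.inl b => Sum.inl b
  | Sum.inr e => if G e = true then Sum.inl true else Sum.inr e

theorem stepSub_subst {V E : Type} (σ : V → Bool ⊕ E) (G X Y : E → Bool)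
    (hY : ∀ e, Y e = (G e || X e)) : subst σ Y = subst (stepSub σ G) X := by
  funext v
  unfold subst stepSub
  cases hv : σ v with
  | inl b => rfl
  | inr e =>
    simp only
    rw [hY e]
    by_cases hG : G e = true
    · rw [if_pos hG, hG]
      rfl
    · have hG' : G e = false := by
        simpa using hG
      rw [if_neg hG, hG']
      rfl

theorem step_lev (hs : Fin T → Ed k ν → Fin Q) (i : ℕ) (hi : i + 1 < T) (y : Ed k ν → Fin Q)
    (e : Ed k ν) :
    lev (Function.update hs ⟨i + 1, hi⟩ y) (i + 1) e = (lev hs i e || hb y e) := by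
  unfold lev hb
  rw [← Bool.decide_or]
  apply decide_eq_decide.2
  constructor
  · rintro ⟨j, hj, hne⟩
    by_cases hji : j = ⟨i + 1, hi⟩
    · subst hji
      rw [Function.update_self] at hne
      exact Or.inr hne
    · rw [Function.update_of_ne hji] at hne
      refine Or.inl ⟨j, ?_, hne⟩
      have h1 : j.1 ≠ i + 1 := fun h => hji (Fin.ext h)
      omega
  · rintro (⟨j, hj, hne⟩ | hne)
    · have hji : j ≠ ⟨i + 1, hi⟩ := by
        rintro rfl
        simp at hj
      exact ⟨j, by omega, by rw [Function.update_of_ne hji]; exact hne⟩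
    · exact ⟨⟨i + 1, hi⟩, le_refl _, by rw [Function.update_self]; exact hne⟩

/-- PROOF: write the averages over `ω = (hs, P)` as iterated averages (`av_prod`). On the right side
replace the average over `hs` by the average over `hs` and `h` of the function at
`Function.update hs ⟨i + 1, hi⟩ h` (`av_update`). For fixed `hs`, with `G = lev hs i`:
`blk true i (hs, P) e = G e || KP P e` and `blk false (i+1) (update hs _ h, P) e = G e || hb h e`.
So both sides are those of `approx` for the substitution
`σ' v = match σ v with | inl b => inl b | inr e => if G e then inl true else inr e`. -/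
theorem step (hr : 2 ≤ r) (hQ : 2 * l ^ 2 ≤ Q) (hν : 4 * l * r ≤ ν) (hl : 2 ≤ l) {V : Type}
    (σ : V → Bool ⊕ Ed k ν) (C : List (Gate V)) (hC : Mono C) (i : ℕ) (hi : i + 1 < T) :
    av (fun ω : Om k ν Q T => ind (eval C (subst σ (blk true i ω)))) ≤
      av (fun ω : Om k ν Q T => ind (eval C (subst σ (blk false (i + 1) ω)))) +
        C.length * err k ν l r := by
  have hν1 : 0 < ν := by
    have h1 : 1 ≤ l * r := Nat.mul_pos (by omega) (by omega)
    have h2 : 4 * l * r = 4 * (l * r) := by ring
    omega
  have hne : Nonempty (Fin ν) := ⟨⟨0, hν1⟩⟩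
  have hne2 : Nonempty (Tr k ν) := inferInstance
  have hne3 : Nonempty (Fin T → Ed k ν → Fin Q) := inferInstance
  rw [av_prod (fun ω : Om k ν Q T => ind (eval C (subst σ (blk true i ω)))),
    av_prod (fun ω : Om k ν Q T => ind (eval C (subst σ (blk false (i + 1) ω))))]
  -- the right side does not depend on `P`
  have hR : (fun hs : Fin T → Ed k ν → Fin Q => av fun P : Tr k ν =>
      ind (eval C (subst σ (blk false (i + 1) (hs, P))))) =
      fun hs => ind (eval C (subst σ (lev hs (i + 1)))) := by
    funext hs
    have h1 : (fun P : Tr k ν => ind (eval C (subst σ (blk false (i + 1) (hs, P))))) =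
        fun _ => ind (eval C (subst σ (lev hs (i + 1)))) := by
      funext P
      have h2 : blk false (i + 1) (hs, P) = lev hs (i + 1) := by
        funext e
        unfold blk
        simp
      rw [h2]
    rw [h1, av_const]
  rw [hR, av_update (⟨i + 1, hi⟩ : Fin T)
    (fun hs : Fin T → Ed k ν → Fin Q => ind (eval C (subst σ (lev hs (i + 1)))))]
  have hc : ((C.length : ℝ) * err k ν l r) =
      av (fun _ : Fin T → Ed k ν → Fin Q => (C.length : ℝ) * err k ν l r) := (av_const _).symm
  rw [hc, ← av_add]
  refine av_mono fun hs => ?_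
  have h3 := approx (k := k) (ν := ν) (Q := Q) hr hQ hν hl (stepSub σ (lev hs i)) C hC
  refine le_trans (le_of_eq ?_) (h3.trans (le_of_eq ?_))
  · congr 1
    funext P
    rw [stepSub_subst σ (lev hs i) (KP P) (blk true i (hs, P)) (fun e => by unfold blk; simp)]
  · congr 1
    congr 1
    funext y
    rw [stepSub_subst σ (lev hs i) (hb y) (lev (Function.update hs ⟨i + 1, hi⟩ y) (i + 1))
      (fun e => step_lev hs i hi y e)]

end Pool.Agent.helper81.NL
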