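import Pool.Agent.helper81.NL.TribesM

set_option autoImplicit false
set_option synthInstance.maxSize 2000

/-!
# NL-8b: Tribes under random restrictions, the second moment
-/

namespace Pool.Agent.helper81.NL

variable {L w T : ℕ}

theorem TribesV_av_blocks {X : Type*} [Fintype X] (G : (Fin w → X) → ℝ) :
    av (fun x : Bk L w → X => ∏ i : Fin L × Fin L, G fun j => x (i, j)) = av G ^ (L * L) := by
  have h := av_equiv (Equiv.curry (Fin L × Fin L) (Fin w) X)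
    (fun y : Fin L × Fin L → Fin w → X => ∏ i, G (y i))
  rw [av_pi_prod (fun _ : Fin L × Fin L => G), Finset.prod_const, Finset.card_univ,
    Fintype.card_prod, Fintype.card_fin] at h
  exact h

theorem TribesV_av_one_sub {X : Type*} [Fintype X] [Nonempty X] (m : X → ℝ) :
    av (fun z : Fin w → X => 1 - ∏ j, m (z j)) = 1 - av m ^ w := by
  rw [av_sub, av_const, av_pi_prod (fun _ : Fin w => m), Finset.prod_const, Finset.card_univ,
    Fintype.card_fin]

theorem TribesV_av_one_sub_sq {X : Type*} [Fintype X] [Nonempty X] (m : X → ℝ) :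
    av (fun z : Fin w → X => (1 - ∏ j, m (z j)) ^ 2) =
      1 - 2 * av m ^ w + av (fun x => m x ^ 2) ^ w := by
  have e : (fun z : Fin w → X => (1 - ∏ j, m (z j)) ^ 2) =
      fun z => (1 - 2 * ∏ j, m (z j)) + ∏ j, m (z j) ^ 2 := by
    funext z
    rw [Finset.prod_pow]
    ring
  rw [e, av_add, av_sub, av_const, av_mul_left, av_pi_prod (fun _ : Fin w => m),
    av_pi_prod (fun _ : Fin w => fun x => m x ^ 2), Finset.prod_const, Finset.prod_const,
    Finset.card_univ, Fintype.card_fin]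

/-- the factor of one block -/
noncomputable def TribesV_m (T : ℕ) (x : Fin T × Bool) : ℝ :=
  if x.1.1 + 1 ≠ T then (1 / 2 : ℝ) else ind x.2

theorem TribesV_av_m (hT : 1 ≤ T) : av (TribesV_m T) = 1 / 2 := by
  have : Nonempty (Fin T) := ⟨⟨0, hT⟩⟩
  rw [av_prod]
  have e : (fun a : Fin T => av fun b : Bool => TribesV_m T (a, b)) = fun _ => 1 / 2 := by
    funext a
    rw [av_bool]
    unfold TribesV_m ind
    by_cases h : a.1 + 1 = T <;> simp [h]
  rw [e, av_const]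

theorem TribesV_av_m_sq (hT : 1 ≤ T) :
    av (fun x => TribesV_m T x ^ 2) = (1 + 1 / (T : ℝ)) / 4 := by
  have hne : Nonempty (Fin T) := ⟨⟨0, hT⟩⟩
  rw [av_prod]
  have e : (fun a : Fin T => av fun b : Bool => TribesV_m T (a, b) ^ 2) =
      fun a => 1 / 4 + (if a = ⟨T - 1, by omega⟩ then (1 / 4 : ℝ) else 0) := by
    funext a
    rw [av_bool]
    unfold TribesV_m ind
    by_cases h : a.1 + 1 = T
    · have h2 : a = ⟨T - 1, by omega⟩ := Fin.ext (by simp; omega)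
      rw [if_pos h2]
      simp [h]
      norm_num
    · have h2 : a ≠ ⟨T - 1, by omega⟩ := by
        intro h3
        apply h
        have := congrArg Fin.val h3
        simp at this
        omega
      rw [if_neg h2]
      simp [h]
      norm_num
  rw [e, av_add, av_const]
  unfold av
  rw [Finset.sum_ite_eq' Finset.univ, if_pos (Finset.mem_univ _), Fintype.card_fin]
  ring

/-- the complement of the average of tribes over the hidden blocks -/
theorem TribesV_u (ρ : Bk L w → Fin T) (b : Bk L w → Bool) :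
    1 - avJ (hid ρ) (fun b => ind (tribes b)) b =
      ∏ i : Fin L × Fin L, (1 - ∏ j : Fin w, TribesV_m T (ρ (i, j), b (i, j))) := by
  rw [one_sub_avJ_tribes]
  refine Finset.prod_congr rfl fun i _ => ?_
  congr 1
  refine Finset.prod_congr rfl fun j _ => ?_
  unfold TribesV_m hid
  by_cases h : (ρ (i, j)).1 + 1 = T <;> simp [h]

theorem TribesV_av_pair {X Y : Type*} [Fintype X] [Fintype Y]
    (G : (Fin w → X × Y) → ℝ) :
    av (fun ρ : Bk L w → X => av fun b : Bk L w → Y =>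
      ∏ i : Fin L × Fin L, G fun j => (ρ (i, j), b (i, j))) = av G ^ (L * L) := by
  rw [← av_prod (f := fun p : (Bk L w → X) × (Bk L w → Y) =>
    ∏ i : Fin L × Fin L, G fun j => (p.1 (i, j), p.2 (i, j))),
    ← av_equiv (Equiv.arrowProdEquivProdArrow (Bk L w) (fun _ => X) (fun _ => Y))]
  exact TribesV_av_blocks G

theorem TribesV_pow_sub {a c : ℝ} (hc : 0 ≤ c) (hca : c ≤ a) (ha : a ≤ 1) (n : ℕ) :
    a ^ n - c ^ n ≤ n * (a - c) := by
  induction n with
  | zero => simp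
  | succ n ih =>
    have h1 : c ^ n ≤ 1 := pow_le_one₀ hc (hca.trans ha)
    have h2 : 0 ≤ a ^ n - c ^ n := sub_nonneg.2 (pow_le_pow_left₀ hc hca n)
    have h3 : a ^ (n + 1) - c ^ (n + 1) = a * (a ^ n - c ^ n) + c ^ n * (a - c) := by ring
    rw [h3]
    push_cast
    nlinarith [mul_le_mul_of_nonneg_right ha h2,
      mul_le_mul_of_nonneg_right h1 (sub_nonneg.2 hca)]

/-- PROOF: put `u ρ b = 1 - avJ (hid ρ) g b = ∏ i, (1 - ∏ j, m (ρ (i,j)) (b (i,j)))`, where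
`m ρ b = 1/2` if `ρ.1 + 1 ≠ T` and `ind b` if not. The pairs `(ρ (i,j), b (i,j))` are independent, so
`av u² = (av (1 - ∏ j, m)²)^(2^w) = (1 - 2 * 2^(-w) + ((1 + 1/T)/4)^w)^(2^w)` since
`av m = 1/2` and `av m² = (1 - 1/T)/4 + (1/T)/2 = (1 + 1/T)/4`. For every `ρ`, `av_b u = (1 - 2^(-w))^(2^w) =: p`
and `avJ _ g b - av g = p - u`. So `av_ρ av_b (avJ _ g b - av g)² = av u² - p²
≤ 2^w * ((1 - 2 q + s) - (1 - q)²) ≤ 2^w * s`, `q = 2^(-w)`, `s = ((1 + 1/T)/4)^w`, because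
`a^N - c^N ≤ N (a - c)` for `0 ≤ c ≤ a ≤ 1` (here `a = 1 - 2q + s ≤ 1`: `s ≤ 2^(-w)`). And
`2^w * s = ((1 + 1/T)/2)^w`. Finally `av_abs_le_sqrt` (on the product type, `av_prod`). -/
theorem av_abs_avJ (hL : L * L = 2 ^ w) (hT : 1 ≤ T) :
    av (fun ρ : Bk L w → Fin T => av fun b : Bk L w → Bool =>
      |avJ (hid ρ) (fun b => ind (tribes b)) b - av fun b : Bk L w → Bool => ind (tribes b)|) ≤
      Real.sqrt (((1 + 1 / (T : ℝ)) / 2) ^ w) := by
  have hne : Nonempty (Fin T) := ⟨⟨0, hT⟩⟩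
  have hT0 : (1 : ℝ) ≤ T := by exact_mod_cast hT
  have hT1 : 0 ≤ 1 / (T : ℝ) := by positivity
  have hT2 : 1 / (T : ℝ) ≤ 1 := by
    rw [div_le_one (by linarith)]
    exact hT0
  set p : ℝ := (1 - (1 / 2) ^ w) ^ (2 ^ w) with hp
  set u : (Bk L w → Fin T) → (Bk L w → Bool) → ℝ := fun ρ b =>
    ∏ i : Fin L × Fin L, (1 - ∏ j : Fin w, TribesV_m T (ρ (i, j), b (i, j))) with hu
  have hF : ∀ (ρ : Bk L w → Fin T) (b : Bk L w → Bool),
      (avJ (hid ρ) (fun b => ind (tribes b)) b - av fun b : Bk L w → Bool => ind (tribes b)) =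
        p - u ρ b := by
    intro ρ b
    have h1 := TribesV_u ρ b
    have h2 := av_tribes hL
    rw [h2, hu, hp]
    simp only
    rw [← h1]
    ring
  simp only [hF]
  rw [← av_prod (f := fun x : (Bk L w → Fin T) × (Bk L w → Bool) => |p - u x.1 x.2|)]
  refine (av_abs_le_sqrt fun x : (Bk L w → Fin T) × (Bk L w → Bool) => p - u x.1 x.2).trans ?_
  refine Real.sqrt_le_sqrt ?_
  have hsplit : av (fun x : (Bk L w → Fin T) × (Bk L w → Bool) => (p - u x.1 x.2) ^ 2) =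
      p ^ 2 - 2 * p * av (fun x : (Bk L w → Fin T) × (Bk L w → Bool) => u x.1 x.2) +
        av (fun x : (Bk L w → Fin T) × (Bk L w → Bool) => u x.1 x.2 ^ 2) := by
    have e : (fun x : (Bk L w → Fin T) × (Bk L w → Bool) => (p - u x.1 x.2) ^ 2) =
        fun x => (p ^ 2 - 2 * p * u x.1 x.2) + u x.1 x.2 ^ 2 := by
      funext x
      ring
    rw [e, av_add, av_sub, av_const, av_mul_left]
  have hu1 : av (fun x : (Bk L w → Fin T) × (Bk L w → Bool) => u x.1 x.2) = p := by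
    rw [av_prod]
    have h := TribesV_av_pair (L := L) (w := w)
      (fun z : Fin w → Fin T × Bool => 1 - ∏ j, TribesV_m T (z j))
    rw [TribesV_av_one_sub, TribesV_av_m hT, hL] at h
    exact h
  have hu2 : av (fun x : (Bk L w → Fin T) × (Bk L w → Bool) => u x.1 x.2 ^ 2) =
      (1 - 2 * (1 / 2) ^ w + ((1 + 1 / (T : ℝ)) / 4) ^ w) ^ (2 ^ w) := by
    rw [av_prod]
    have h := TribesV_av_pair (L := L) (w := w)
      (fun z : Fin w → Fin T × Bool => (1 - ∏ j, TribesV_m T (z j)) ^ 2)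
    rw [TribesV_av_one_sub_sq, TribesV_av_m hT, TribesV_av_m_sq hT, hL] at h
    rw [← h]
    congr 1
    funext ρ
    congr 1
    funext b
    rw [hu]
    simp only
    rw [Finset.prod_pow]
  rw [hsplit, hu1, hu2]
  set q : ℝ := (1 / 2) ^ w with hq
  set s : ℝ := ((1 + 1 / (T : ℝ)) / 4) ^ w with hs
  have hq0 : 0 ≤ q := by positivity
  have hq1 : q ≤ 1 := pow_le_one₀ (by norm_num) (by norm_num)
  have hsq : s ≤ q := by
    rw [hs, hq]
    exact pow_le_pow_left₀ (by positivity) (by linarith) w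
  have hqs : q ^ 2 ≤ s := by
    rw [hs, hq, ← pow_mul, mul_comm w 2, pow_mul]
    exact pow_le_pow_left₀ (by positivity)
      (by rw [show ((1 : ℝ) / 2) ^ 2 = 1 / 4 by norm_num]; linarith) w
  have h1 := TribesV_pow_sub (a := 1 - 2 * q + s) (c := (1 - q) ^ 2) (by positivity)
    (by nlinarith) (by linarith) (2 ^ w)
  have h2 : p ^ 2 = ((1 - q) ^ 2) ^ (2 ^ w) := by
    rw [hp, ← pow_mul, ← pow_mul, mul_comm]
  have h3 : ((2 ^ w : ℕ) : ℝ) * s = ((1 + 1 / (T : ℝ)) / 2) ^ w := by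
    rw [hs]
    push_cast
    rw [← mul_pow]
    congr 1
    ring
  have h4 : ((2 ^ w : ℕ) : ℝ) * ((1 - 2 * q + s) - (1 - q) ^ 2) ≤ ((2 ^ w : ℕ) : ℝ) * s := by
    refine mul_le_mul_of_nonneg_left ?_ (Nat.cast_nonneg _)
    nlinarith [sq_nonneg q]
  calc p ^ 2 - 2 * p * p + (1 - 2 * q + s) ^ 2 ^ w
      = (1 - 2 * q + s) ^ 2 ^ w - p ^ 2 := by ring
    _ ≤ ((2 ^ w : ℕ) : ℝ) * ((1 - 2 * q + s) - (1 - q) ^ 2) := by rw [h2]; exact h1
    _ ≤ ((2 ^ w : ℕ) : ℝ) * s := h4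
    _ = ((1 + 1 / (T : ℝ)) / 2) ^ w := h3

/-- PROOF: with `N = 2^w ≥ 2`, `1/4 ≤ (1 - 1/N)^N ≤ 1/2`: the upper bound from
`(1 - 1/N)^N ≤ exp (-1) ≤ 1/2`; the lower bound: `(1 - 1/N)^N = ((1 - 1/N)^(N/2))^2 ≥ (1 - 1/2)^2`
by Bernoulli (`one_add_mul_le_pow`), `N` even. Then `p (1 - p) ≥ 1/8` for `p ∈ [1/4, 1/2]`. -/
theorem tribes_var (w : ℕ) (hw : 1 ≤ w) :
    1 / 8 ≤ (1 - (1 - (1 - (1 / 2 : ℝ) ^ w) ^ (2 ^ w))) * (1 - (1 - (1 / 2 : ℝ) ^ w) ^ (2 ^ w)) := by
  set x : ℝ := (1 - (1 / 2 : ℝ) ^ w) ^ (2 ^ w) with hx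
  have hup : x ≤ 1 / 2 := by
    have h1 := Real.one_sub_div_pow_le_exp_neg (n := 2 ^ w) (t := 1) (by
      exact_mod_cast Nat.one_le_two_pow)
    have h2 : (1 - 1 / ((2 ^ w : ℕ) : ℝ)) ^ (2 ^ w) = x := by
      rw [hx]
      congr 2
      push_cast
      rw [one_div_pow]
    rw [h2] at h1
    refine h1.trans ?_
    rw [Real.exp_neg, inv_eq_one_div]
    refine one_div_le_one_div_of_le (by norm_num) ?_
    have := Real.add_one_le_exp (1 : ℝ)
    linarith
  have hlo : 1 / 4 ≤ x := by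
    obtain ⟨v, rfl⟩ : ∃ v, w = v + 1 := ⟨w - 1, by omega⟩
    have h1 := one_add_mul_le_pow (a := -(1 / 2 : ℝ) ^ (v + 1)) (by
      have : (1 / 2 : ℝ) ^ (v + 1) ≤ 1 := pow_le_one₀ (by norm_num) (by norm_num)
      linarith) (2 ^ v)
    have h2 : (1 : ℝ) + ((2 ^ v : ℕ) : ℝ) * -(1 / 2 : ℝ) ^ (v + 1) = 1 / 2 := by
      push_cast
      rw [pow_succ, mul_neg, ← mul_assoc, ← mul_pow]
      norm_num
    rw [h2, ← sub_eq_add_neg] at h1
    have h3 : x = ((1 - (1 / 2 : ℝ) ^ (v + 1)) ^ (2 ^ v)) ^ 2 := by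
      rw [hx, ← pow_mul, ← pow_succ]
    rw [h3]
    nlinarith
  nlinarith

end Pool.Agent.helper81.NL
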