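import Pool.Agent.helper81.NL.Cov
import Pool.Agent.helper81.NL.Step
import Pool.Agent.helper81.NL.Tele
import Pool.Agent.helper81.NL.TribesV

set_option autoImplicit false
set_option synthInstance.maxSize 2000

/-!
# NL-11a: upper bound for the covariance with a monotone circuit
-/

namespace Pool.Agent.helper81.NL

open scoped Classical

variable {k ν Q T L w : ℕ} [NeZero Q] {l r : ℕ}

theorem CoreA_err_nonneg (k ν l r : ℕ) : 0 ≤ err k ν l r := by
  unfold err
  positivity

/-- The substitution for the block `j`, the other blocks being fixed. -/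
noncomputable def CoreA_sub {V : Type} (σ : V → Bool ⊕ (Bk L w × Ed k ν)) (ρ : Bk L w → Fin T)
    (j : Bk L w) (b : Bk L w → Bool) (ω : Bk L w → Om k ν Q T) (v : V) : Bool ⊕ Ed k ν :=
  match σ v with
  | Sum.inl c => Sum.inl c
  | Sum.inr p => if p.1 = j then Sum.inr p.2
      else Sum.inl (blk (b p.1) (shf (b p.1) (ρ p.1)) (ω p.1) p.2)

theorem CoreA_subst {V : Type} (σ : V → Bool ⊕ (Bk L w × Ed k ν)) (ρ : Bk L w → Fin T)
    (j : Bk L w) (b : Bk L w → Bool) (ω : Bk L w → Om k ν Q T) (β : Bool) (y : Om k ν Q T) :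
    subst σ (inp (Function.update b j β) ρ (Function.update ω j y)) =
      subst (CoreA_sub σ ρ j b ω) (blk β (shf β (ρ j)) y) := by
  funext v
  unfold subst CoreA_sub
  cases hv : σ v with
  | inl c => rfl
  | inr p =>
    by_cases hp : p.1 = j
    · simp only [hp, if_true, inp, Function.update_self]
    · simp only [if_neg hp, inp, Function.update_of_ne hp]

theorem CoreA_nonempty (hν : 1 ≤ ν) : Nonempty (Bk L w → Om k ν Q T) :=
  ⟨fun _ => (fun _ _ => ⟨0, Nat.pos_of_neZero Q⟩, fun _ => ⟨0, hν⟩)⟩

/-- The derivative of the average of a monotone circuit in a hidden block. PROOF: for `j ∈ hid ρ`,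
`i = (ρ j).1` has `i + 1 < T`. Write the average over `ω` with `av_update` at `j` as the average over `ω` and
`y : Om k ν Q T` of the function at `Function.update ω j y`. For fixed `ω`, the circuit with all other blocks
fixed is a circuit in block `j`: `subst σ (inp b ρ (update ω j y)) = subst σ' (blk (b j) (shf (b j) (ρ j)) y)` with
`σ' v = inl c` for `σ v = inl c`, `σ' v = inr e` for `σ v = inr (j, e)` and `σ' v = inl (blk …)` for other blocks; here
`b` is `update b j true` or `update b j false`. `shf true (ρ j) = i`, `shf false (ρ j) = i + 1`. Now `step`. -/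
theorem dd_circuit (hr : 2 ≤ r) (hQ : 2 * l ^ 2 ≤ Q) (hν : 4 * l * r ≤ ν) (hl : 2 ≤ l) {V : Type}
    (σ : V → Bool ⊕ (Bk L w × Ed k ν)) (C : List (Gate V)) (hC : Mono C) (ρ : Bk L w → Fin T)
    (j : Bk L w) (hj : j ∈ hid ρ) (b : Bk L w → Bool) :
    dd j (fun b => av fun ω : Bk L w → Om k ν Q T => ind (eval C (subst σ (inp b ρ ω)))) b ≤
      C.length * err k ν l r := by
  have hν1 : 1 ≤ ν := by
    have h1 : 0 < l * r := Nat.mul_pos (by omega) (by omega)
    have h2 : 4 * l * r = 4 * (l * r) := by ring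
    omega
  have hne : Nonempty (Bk L w → Om k ν Q T) := CoreA_nonempty hν1
  have hjT : (ρ j).1 + 1 ≠ T := by
    have := hj
    unfold hid at this
    rw [Finset.mem_filter] at this
    exact this.2
  have hi : (ρ j).1 + 1 < T := lt_of_le_of_ne (ρ j).2 hjT
  have hs1 : shf true (ρ j) = (ρ j).1 := rfl
  have hs0 : shf false (ρ j) = (ρ j).1 + 1 := by
    unfold shf
    simp only [Bool.false_eq_true, if_false]
    exact Nat.mod_eq_of_lt hi
  have key : ∀ β : Bool, av (fun ω : Bk L w → Om k ν Q T =>
      ind (eval C (subst σ (inp (Function.update b j β) ρ ω)))) =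
      av fun ω : Bk L w → Om k ν Q T => av fun y : Om k ν Q T =>
        ind (eval C (subst (CoreA_sub σ ρ j b ω) (blk β (shf β (ρ j)) y))) := by
    intro β
    rw [av_update j]
    simp only [CoreA_subst]
  unfold dd
  beta_reduce
  rw [key true, key false, ← av_sub]
  refine av_le fun ω => ?_
  have h := step (T := T) hr hQ hν hl (CoreA_sub σ ρ j b ω) C hC (ρ j).1 hi
  rw [hs1, hs0]
  linarith

/-- PROOF: for fixed `ρ` exchange the averages over `ω` and `b`; with `φ b = av_ω ind (…)` (values in `[0, 1]`),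
`g = ind (tribes ·)`, `J = hid ρ`: `av_b (g - av g) φ = av_b (g - avJ J g) φ + av_b (avJ J g - av g) φ
≤ J.card * (δ/4) + av_b |avJ J g - av g|` by `tele` with `δ = C.length * err` and `dd_circuit`
(`J.card ≤ L * L * w`); then average over `ρ`: `av_abs_avJ`. -/
theorem cov_mono_le (hL : L * L = 2 ^ w) (hT : 1 ≤ T)
    (hr : 2 ≤ r) (hQ : 2 * l ^ 2 ≤ Q) (hν : 4 * l * r ≤ ν) (hl : 2 ≤ l) {V : Type}
    (σ : V → Bool ⊕ (Bk L w × Ed k ν)) (C : List (Gate V)) (hC : Mono C) :
    cov (T := T) (Q := Q) (fun x => ind (eval C (subst σ x))) ≤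
      Real.sqrt (((1 + 1 / (T : ℝ)) / 2) ^ w) +
        (L * L * w : ℕ) * (C.length * err k ν l r / 4) := by
  have hν1 : 1 ≤ ν := by
    have h1 : 0 < l * r := Nat.mul_pos (by omega) (by omega)
    have h2 : 4 * l * r = 4 * (l * r) := by ring
    omega
  have hne : Nonempty (Bk L w → Om k ν Q T) := CoreA_nonempty hν1
  have hneT : Nonempty (Bk L w → Fin T) := ⟨fun _ => ⟨0, hT⟩⟩
  have hδ : 0 ≤ (C.length : ℝ) * err k ν l r :=
    mul_nonneg (Nat.cast_nonneg _) (CoreA_err_nonneg k ν l r)
  set g : (Bk L w → Bool) → ℝ := fun b => ind (tribes b) with hg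
  have hmain : ∀ ρ : Bk L w → Fin T,
      (av fun ω : Bk L w → Om k ν Q T => av fun b : Bk L w → Bool =>
        (g b - av g) * ind (eval C (subst σ (inp b ρ ω)))) ≤
      (av fun b : Bk L w → Bool => |avJ (hid ρ) g b - av g|) +
        (L * L * w : ℕ) * (C.length * err k ν l r / 4) := by
    intro ρ
    set φ : (Bk L w → Bool) → ℝ := fun b => av fun ω : Bk L w → Om k ν Q T =>
      ind (eval C (subst σ (inp b ρ ω))) with hφ
    have hφ0 : ∀ b, 0 ≤ φ b := fun b => av_nonneg fun ω => ind_nonneg _
    have hφ1 : ∀ b, φ b ≤ 1 := fun b => av_le fun ω => ind_le_one _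
    have h1 : (av fun ω : Bk L w → Om k ν Q T => av fun b : Bk L w → Bool =>
        (g b - av g) * ind (eval C (subst σ (inp b ρ ω)))) =
        av fun b : Bk L w → Bool => (g b - av g) * φ b := by
      rw [av_comm]
      simp only [av_mul_left, hφ]
    have h2 : (av fun b : Bk L w → Bool => (g b - av g) * φ b) =
        (av fun b => (g b - avJ (hid ρ) g b) * φ b) +
          av fun b => (avJ (hid ρ) g b - av g) * φ b := by
      rw [← av_add]
      congr 1
      funext b
      ring
    have h3 := tele g φ (hid ρ) (C.length * err k ν l r) hδ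
      (fun j b => dd_tribes_nonneg j b) (fun j b => dd_tribes_le_one j b)
      (fun j hj b => dd_circuit hr hQ hν hl σ C hC ρ j hj b)
    have h4 : (av fun b => (avJ (hid ρ) g b - av g) * φ b) ≤
        av fun b : Bk L w → Bool => |avJ (hid ρ) g b - av g| := by
      refine av_mono fun b => ?_
      have h5 := le_abs_self (avJ (hid ρ) g b - av g)
      have h6 := abs_nonneg (avJ (hid ρ) g b - av g)
      have h7 := mul_le_mul_of_nonneg_right h5 (hφ0 b)
      have h8 := mul_le_mul_of_nonneg_left (hφ1 b) h6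
      linarith
    have h9 : ((hid ρ).card : ℝ) ≤ (L * L * w : ℕ) := by
      have h10 : (hid ρ).card ≤ L * L * w := by
        refine (Finset.card_le_univ _).trans_eq ?_
        simp only [Fintype.card_prod, Fintype.card_fin]
      exact_mod_cast h10
    have h11 := mul_le_mul_of_nonneg_right h9 (div_nonneg hδ (by norm_num : (0 : ℝ) ≤ 4))
    rw [h1, h2]
    linarith
  unfold cov
  refine (av_mono hmain).trans ?_
  rw [av_add, av_const]
  have := av_abs_avJ (L := L) (w := w) (T := T) hL hT
  linarith

end Pool.Agent.helper81.NL
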