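import Pool.Agent.helper81.NL.Avg

set_option autoImplicit false
set_option synthInstance.maxSize 2000

/-!
# NL-11: the covariance (definition)
-/

namespace Pool.Agent.helper81.NL

open scoped Classical

variable {k ν Q T L w : ℕ} [NeZero Q] {l r : ℕ}

/-- The covariance of `tribes b` with a function of the input. -/
noncomputable def cov (F : (Bk L w × Ed k ν → Bool) → ℝ) : ℝ :=
  av fun ρ : Bk L w → Fin T => av fun ω : Bk L w → Om k ν Q T => av fun b : Bk L w → Bool =>
    (ind (tribes b) - av fun b : Bk L w → Bool => ind (tribes b)) * F (inp b ρ ω)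

end Pool.Agent.helper81.NL
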