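import Mathlib

set_option autoImplicit false

/-!
# Boolean circuits with few negations: definitions
-/

namespace Pool.Agent.helper81.NL

/-- A gate of a Boolean circuit with variables `V`. A circuit is a list of gates, the last gate first.
The arguments of a gate are earlier gates: `0` is the gate just before, `1` the gate before that one,
and so on (positions in the rest of the list). -/
inductive Gate (V : Type)
  | var (v : V)
  | const (b : Bool)
  | and (a b : ℕ)
  | or (a b : ℕ)
  | not (a : ℕ)

/-- The value of a gate at the input `x`; `l` is the list of the values of the earlier gates. -/
def Gate.val {V : Type} (x : V → Bool) (l : List Bool) : Gate V → Bool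
  | Gate.var v => x v
  | Gate.const b => b
  | Gate.and a b => l.getD a false && l.getD b false
  | Gate.or a b => l.getD a false || l.getD b false
  | Gate.not a => !(l.getD a false)

/-- The values of all gates of a circuit (last gate first) at the input `x`. -/
def run {V : Type} (x : V → Bool) : List (Gate V) → List Bool
  | [] => []
  | g :: C => g.val x (run x C) :: run x C

/-- The output of a circuit: the value of its last gate. -/
def eval {V : Type} (C : List (Gate V)) (x : V → Bool) : Bool := (run x C).getD 0 false

/-- Is the gate a NOT gate? -/
def Gate.isNot {V : Type} : Gate V → Bool
  | Gate.not _ => true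
  | _ => false

/-- The number of NOT gates of a circuit. -/
def negations {V : Type} (C : List (Gate V)) : ℕ := C.countP Gate.isNot

/-- The circuit `C`, whose variables are the pairs of vertices, decides whether a graph on `n` vertices
has a clique with `k` vertices. -/
def DecidesClique (n k : ℕ) (C : List (Gate (Fin n × Fin n))) : Prop :=
  ∀ (G : SimpleGraph (Fin n)) [DecidableRel G.Adj],
    eval C (fun e => decide (G.Adj e.1 e.2)) = true ↔ ¬ G.CliqueFree k

end Pool.Agent.helper81.NL
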