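import Pool.Agent.helper81.NL.Graph

set_option autoImplicit false

/-!
# NL-12b: the blocks inside the clique problem on `Fin n`
-/

namespace Pool.Agent.helper81.NL

open scoped Classical

/-- The substitution for a pair of vertices of the structured graph. -/
noncomputable def embedTau {L w k ν u : ℕ} :
    Fin u ⊕ St L w k ν → Fin u ⊕ St L w k ν → Bool ⊕ (Bk L w × Ed k ν)
  | Sum.inl a, Sum.inl b => Sum.inl (decide (a ≠ b))
  | Sum.inl _, Sum.inr _ => Sum.inl true
  | Sum.inr _, Sum.inl _ => Sum.inl true
  | Sum.inr (false, α, j, i, _), Sum.inr (false, α', j', i', _) =>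
      Sum.inl (decide (α = α' ∧ (j, i) ≠ (j', i')))
  | Sum.inr (true, α, j, i, _), Sum.inr (true, α', j', i', _) =>
      Sum.inl (decide (α = α' ∧ (j, i) ≠ (j', i')))
  | Sum.inr (false, α, j, i, a), Sum.inr (true, β, j', i', a') =>
      if j ≠ j' then Sum.inl true else Sum.inr (((α, β), j), ((i, a), (i', a')))
  | Sum.inr (true, β, j', i', a'), Sum.inr (false, α, j, i, a) =>
      if j ≠ j' then Sum.inl true else Sum.inr (((α, β), j), ((i, a), (i', a')))

theorem embedTau_iff {L w k ν u : ℕ} (x : Bk L w × Ed k ν → Bool) (p q : Fin u ⊕ St L w k ν) :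
    subst (fun _ : Unit => embedTau p q) x () = true ↔ bigAdj x p q := by
  unfold subst
  rcases p with a | ⟨s, α, j, i, a⟩ <;> rcases q with b | ⟨s', α', j', i', b⟩
  · simp [embedTau, bigAdj]
  · simp [embedTau, bigAdj]
  · simp [embedTau, bigAdj]
  · cases s <;> cases s'
    · simp only [embedTau, bigAdj, decide_eq_true_iff]
    · by_cases h : j = j'
      · simp [embedTau, bigAdj, h]
      · simp [embedTau, bigAdj, h]
    · by_cases h : j' = j
      · simp [embedTau, bigAdj, h]
      · simp [embedTau, bigAdj, h]
    · simp only [embedTau, bigAdj, decide_eq_true_iff]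

/-- The substitution on `Fin n`, for an embedding `f` of the structured graph. -/
noncomputable def embedSig {n L w k ν u : ℕ} (f : (Fin u ⊕ St L w k ν) ↪ Fin n)
    (e : Fin n × Fin n) : Bool ⊕ (Bk L w × Ed k ν) :=
  if h : ∃ pq : (Fin u ⊕ St L w k ν) × (Fin u ⊕ St L w k ν), f pq.1 = e.1 ∧ f pq.2 = e.2 then
    embedTau h.choose.1 h.choose.2
  else Sum.inl false

theorem embed_subst {n L w k ν u : ℕ} (f : (Fin u ⊕ St L w k ν) ↪ Fin n)
    (x : Bk L w × Ed k ν → Bool) (e : Fin n × Fin n) :
    subst (embedSig f) x e = true ↔ ((bigGraph u x).map f).Adj e.1 e.2 := by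
  rw [SimpleGraph.map_adj]
  by_cases h : ∃ pq : (Fin u ⊕ St L w k ν) × (Fin u ⊕ St L w k ν), f pq.1 = e.1 ∧ f pq.2 = e.2
  · have hsig : embedSig f e = embedTau h.choose.1 h.choose.2 := dif_pos h
    have hsub : subst (embedSig f) x e =
        subst (fun _ : Unit => embedTau h.choose.1 h.choose.2) x () := by
      unfold subst
      rw [hsig]
    rw [hsub, embedTau_iff]
    have hs := h.choose_spec
    constructor
    · intro hb
      exact ⟨_, _, hb, hs.1, hs.2⟩
    · rintro ⟨a, b, hab, ha, hb⟩
      have h1 : h.choose.1 = a := f.injective (hs.1.trans ha.symm)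
      have h2 : h.choose.2 = b := f.injective (hs.2.trans hb.symm)
      rw [h1, h2]
      exact hab
  · have hsig : embedSig f e = Sum.inl false := dif_neg h
    have hsub : subst (embedSig f) x e = false := by
      unfold subst
      rw [hsig]
    rw [hsub]
    constructor
    · intro hf
      exact absurd hf (by simp)
    · rintro ⟨a, b, _, ha, hb⟩
      exact absurd ⟨(a, b), ha, hb⟩ h

/-- PROOF. Since `card (Fin u ⊕ St) = u + 2 * L * w * k * ν ≤ n` there is an injection `f` of the vertices
into `Fin n`. Let `G x` be the graph on `Fin n` with `f`-images adjacent as in `bigGraph` and no other edges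
(`SimpleGraph.map`). As `u + 2 * w * k ≥ 2`, the graph `G x` has a clique of this size iff `bigGraph` has
(`SimpleGraph.map`: cliques with at least two vertices are images). Define `σ (p, q)`: `inl false` if `p` or `q` is not in
the range of `f`; if both are structured vertices of different sides with the same group, `inr` of the
block variable; otherwise `inl (decide …)` of the constant adjacency. Then
`subst σ x (p, q) = decide ((G x).Adj p q)`; use `hC`. -/
theorem embed {n K L w k ν u : ℕ} (hw : 1 ≤ w) (hk : 1 ≤ k) (hK : K = u + 2 * w * k)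
    (hn : u + 2 * L * w * k * ν ≤ n) (C : List (Gate (Fin n × Fin n))) (hC : DecidesClique n K C) :
    ∃ σ : Fin n × Fin n → Bool ⊕ (Bk L w × Ed k ν), ∀ x : Bk L w × Ed k ν → Bool,
      eval C (subst σ x) = true ↔ ∃ i, ∀ j, Bic fun e => x ((i, j), e) := by
  have hcard : Fintype.card (Fin u ⊕ St L w k ν) ≤ Fintype.card (Fin n) := by
    simp only [Fintype.card_sum, Fintype.card_prod, Fintype.card_fin, Fintype.card_bool]
    calc u + 2 * (L * (w * (k * ν))) = u + 2 * L * w * k * ν := by ring
      _ ≤ n := hn
  obtain ⟨f⟩ := Function.Embedding.nonempty_of_card_le hcard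
  refine ⟨embedSig f, fun x => ?_⟩
  have hfun : subst (embedSig f) x =
      fun e : Fin n × Fin n => decide (((bigGraph u x).map f).Adj e.1 e.2) := by
    funext e
    rw [Bool.eq_iff_iff, decide_eq_true_iff]
    exact embed_subst f x e
  have h2 : 1 < K := by
    have : 1 ≤ w * k := Nat.mul_pos hw hk
    rw [hK]
    nlinarith
  rw [hfun, hC ((bigGraph u x).map f), ← big_clique hw hk u x, ← hK]
  simp only [SimpleGraph.CliqueFree, SimpleGraph.isNClique_map_iff h2]
  simp

end Pool.Agent.helper81.NL
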