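import Pool.Agent.helper81.NL.Base

set_option autoImplicit false

/-!
# NL-13a: the small terms
-/

namespace Pool.Agent.helper81.NL

theorem paramA_log {x : ℝ} (hx : 64 ≤ x) : 6 * Real.log (2 * x) + 1 ≤ x := by
  have h1 := Real.log_le_sub_one_of_pos (by positivity : 0 < 2 * x / 64)
  rw [Real.log_div (by positivity) (by norm_num)] at h1
  have h2 : Real.log 64 = 6 * Real.log 2 := by
    rw [show (64 : ℝ) = 2 ^ 6 by norm_num, Real.log_pow]; norm_num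
  have h3 := Real.log_two_lt_d9
  rw [h2] at h1
  linarith

/-- The last term. PROOF: with `k = 2^T l^(2T+1)`, `(1/(2 l²))^T * k = l`, so
`(1 - (1/(2l²))^T)^(k²) ≤ exp (- (1/(2 l²))^T k²) = exp (- l k)`, and `(8 l³)^(2k) = exp (2 k log (8 l³))`.
For `l ≥ l₀`: `2 log (8 l³) + 1 ≤ l`, so the product is at most `exp (-k) ≤ exp (-l)`. -/
theorem bic_small : ∃ l₀ : ℕ, ∀ T l : ℕ, l₀ ≤ l →
    ((8 * l ^ 3 : ℕ) : ℝ) ^ (2 * (2 ^ T * l ^ (2 * T + 1))) *
        (1 - (1 / ((2 * l ^ 2 : ℕ) : ℝ)) ^ T) ^ ((2 ^ T * l ^ (2 * T + 1)) ^ 2) ≤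
      Real.exp (-(l : ℝ)) := by
  refine ⟨64, fun T l hl => ?_⟩
  have hl64 : (64 : ℝ) ≤ l := by exact_mod_cast hl
  have hl0 : (0 : ℝ) < l := by linarith
  have hl1 : 1 ≤ l := by omega
  set k : ℕ := 2 ^ T * l ^ (2 * T + 1) with hk
  set p : ℝ := (1 / ((2 * l ^ 2 : ℕ) : ℝ)) ^ T with hp
  have hpk : p * (k : ℝ) = l := by
    rw [hp, hk]
    push_cast
    have e1 : (l : ℝ) ^ (2 * T + 1) = ((l : ℝ) ^ 2) ^ T * l := by rw [← pow_mul, pow_succ]
    rw [one_div, inv_pow, mul_pow, e1]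
    field_simp
  have hp0 : 0 ≤ p := by positivity
  have hp1 : p ≤ 1 := by
    apply pow_le_one₀ (by positivity)
    rw [div_le_one (by positivity)]
    have : 1 ≤ 2 * l ^ 2 := by nlinarith
    exact_mod_cast this
  have hkl : (l : ℝ) ≤ k := by
    have : l ≤ k := by
      rw [hk]
      calc l = 1 * l ^ 1 := by ring
        _ ≤ 2 ^ T * l ^ (2 * T + 1) :=
          Nat.mul_le_mul (Nat.one_le_two_pow) (Nat.pow_le_pow_right hl1 (by omega))
    exact_mod_cast this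
  have h1 : (1 - p) ^ (k ^ 2) ≤ Real.exp (-(l * k)) := by
    calc (1 - p) ^ (k ^ 2) ≤ Real.exp (-p) ^ (k ^ 2) := by
          apply pow_le_pow_left₀ (by linarith)
          have := Real.add_one_le_exp (-p)
          linarith
      _ = Real.exp (-(l * k)) := by
          rw [← Real.exp_nat_mul]
          congr 1
          push_cast
          rw [← hpk]
          ring
  have h2 : ((8 * l ^ 3 : ℕ) : ℝ) ^ (2 * k) = Real.exp (k * (6 * Real.log (2 * l))) := by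
    have h3 : ((8 * l ^ 3 : ℕ) : ℝ) = (2 * l : ℝ) ^ 3 := by push_cast; ring
    rw [h3, ← pow_mul, ← Real.exp_log (by positivity : (0 : ℝ) < (2 * l) ^ (3 * (2 * k))),
      Real.log_pow]
    congr 1
    push_cast
    ring
  rw [h2]
  calc Real.exp (k * (6 * Real.log (2 * l))) * (1 - p) ^ (k ^ 2)
      ≤ Real.exp (k * (6 * Real.log (2 * l))) * Real.exp (-(l * k)) :=
        mul_le_mul_of_nonneg_left h1 (Real.exp_pos _).le
    _ = Real.exp (k * (6 * Real.log (2 * l) - l)) := by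
        rw [← Real.exp_add]
        congr 1
        ring
    _ ≤ Real.exp (-(l : ℝ)) := by
        apply Real.exp_le_exp.2
        have h4 := paramA_log hl64
        have h5 : (k : ℝ) * (6 * Real.log (2 * l) - l) ≤ k * (-1) :=
          mul_le_mul_of_nonneg_left (by linarith) (Nat.cast_nonneg _)
        linarith

/-- The error per gate. PROOF: `2 k ν + 1 = 2 * 2^T l^(2T+1) * 8 l³ + 1 ≤ 2^(T+5) l^(2T+4) ≤ 2^l` for `l` large
(depending on `T`), so `(2kν+1)^l ≤ 2^(l²)` and `(2kν+1)^l (1/2)^(2 l²) ≤ (1/2)^(l²) ≤ (1/2)^l`. -/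
theorem err_small (T : ℕ) : ∃ l₀ : ℕ, ∀ l : ℕ, l₀ ≤ l →
    err (2 ^ T * l ^ (2 * T + 1)) (8 * l ^ 3) l (2 * l ^ 2) ≤ 5 * (1 / 2) ^ l := by
  have h1 := tendsto_pow_const_div_const_pow_of_one_lt (2 * T + 4) (r := (2 : ℝ)) (by norm_num)
  have h2 := h1.eventually (gt_mem_nhds (show (0 : ℝ) < 1 / 2 ^ (T + 5) by positivity))
  obtain ⟨l₀, hl₀⟩ := Filter.eventually_atTop.1 h2
  refine ⟨max l₀ 1, fun l hl => ?_⟩
  have h3 := hl₀ l (le_trans (le_max_left _ _) hl)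
  have hl1 : 1 ≤ l := le_trans (le_max_right _ _) hl
  have hl1' : (1 : ℝ) ≤ l := by exact_mod_cast hl1
  have h4 : (2 : ℝ) ^ (T + 5) * (l : ℝ) ^ (2 * T + 4) ≤ 2 ^ l := by
    rw [div_lt_div_iff₀ (by positivity) (by positivity)] at h3
    linarith
  have h5 : ((2 * (2 ^ T * l ^ (2 * T + 1)) * (8 * l ^ 3) + 1 : ℕ) : ℝ) ≤ 2 ^ l := by
    refine le_trans ?_ h4
    push_cast
    have h6 : (1 : ℝ) ≤ 2 ^ (T + 4) * (l : ℝ) ^ (2 * T + 4) := by
      have a1 : (1 : ℝ) ≤ 2 ^ (T + 4) := one_le_pow₀ (by norm_num)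
      have a2 : (1 : ℝ) ≤ (l : ℝ) ^ (2 * T + 4) := one_le_pow₀ hl1'
      nlinarith
    have h7 : (2 : ℝ) * (2 ^ T * (l : ℝ) ^ (2 * T + 1)) * (8 * (l : ℝ) ^ 3) =
        2 ^ (T + 4) * (l : ℝ) ^ (2 * T + 4) := by ring
    have h8 : (2 : ℝ) ^ (T + 5) * (l : ℝ) ^ (2 * T + 4) =
        2 * (2 ^ (T + 4) * (l : ℝ) ^ (2 * T + 4)) := by ring
    rw [h7, h8]
    linarith
  have h9 : ((2 * (2 ^ T * l ^ (2 * T + 1)) * (8 * l ^ 3) + 1 : ℕ) : ℝ) ^ l *
      (1 / 2) ^ (2 * l ^ 2) ≤ (1 / 2) ^ l := by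
    calc ((2 * (2 ^ T * l ^ (2 * T + 1)) * (8 * l ^ 3) + 1 : ℕ) : ℝ) ^ l * (1 / 2) ^ (2 * l ^ 2)
        ≤ ((2 : ℝ) ^ l) ^ l * (1 / 2) ^ (2 * l ^ 2) := by
          apply mul_le_mul_of_nonneg_right _ (by positivity)
          exact pow_le_pow_left₀ (Nat.cast_nonneg _) h5 l
      _ = (1 / 2) ^ (l ^ 2) := by
          rw [← pow_mul, two_mul, pow_add, ← mul_assoc, ← pow_two, ← mul_pow]
          norm_num
      _ ≤ (1 / 2) ^ l := by
          apply pow_le_pow_of_le_one (by norm_num) (by norm_num)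
          nlinarith
  unfold err
  linarith

end Pool.Agent.helper81.NL
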