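import Pool.Agent.helper81.NL.FiniteG
import Pool.Agent.helper81.NL.ParamA

set_option autoImplicit false

/-!
# NG-4: explicit bounds
-/

namespace Pool.Agent.helper81.NL

theorem Explicit_ne {n k g : ℕ} (h : k ≤ n)
    (C : List (Gate ((Fin n × Fin n) ⊕ (Fin g × Bool)))) (hC : GuessClique n k g C) :
    1 ≤ C.length := by
  rw [Nat.one_le_iff_ne_zero]
  intro h0
  rw [List.length_eq_zero_iff] at h0
  subst h0
  have h1 : ¬ (⊤ : SimpleGraph (Fin n)).CliqueFree k :=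
    SimpleGraph.IsContained.not_cliqueFree
      ⟨(SimpleGraph.Embedding.completeGraph (Fin.castLEEmb h)).toCopy⟩
  obtain ⟨y, hy⟩ := (hC ⊤).2 h1
  simp [eval, run] at hy

theorem Explicit_exp (l : ℕ) : Real.exp (-(l : ℝ)) ≤ (1 / 2) ^ l := by
  have h1 : Real.exp (-(l : ℝ)) = (Real.exp (-1)) ^ l := by
    rw [← Real.exp_nat_mul]
    congr 1
    ring
  rw [h1]
  refine pow_le_pow_left₀ (Real.exp_pos _).le ?_ l
  have h2 := Real.add_one_le_exp (1 : ℝ)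
  rw [Real.exp_neg, one_div]
  exact inv_anti₀ (by norm_num) (by linarith)

theorem Explicit_params {l₀ l₁ l : ℕ}
    (h0 : ∀ T l : ℕ, l₀ ≤ l →
      ((8 * l ^ 3 : ℕ) : ℝ) ^ (2 * (2 ^ T * l ^ (2 * T + 1))) *
        (1 - (1 / ((2 * l ^ 2 : ℕ) : ℝ)) ^ T) ^ ((2 ^ T * l ^ (2 * T + 1)) ^ 2) ≤
      Real.exp (-(l : ℝ)))
    (h1 : ∀ l : ℕ, l₁ ≤ l →
      err (2 ^ 1 * l ^ (2 * 1 + 1)) (8 * l ^ 3) l (2 * l ^ 2) ≤ 5 * (1 / 2) ^ l)
    (hl0 : l₀ ≤ l) (hl1 : l₁ ≤ l) :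
    ((8 * l ^ 3 : ℕ) : ℝ) ^ (2 * (2 * l ^ 3)) *
        (1 - 1 / ((2 * l ^ 2 : ℕ) : ℝ)) ^ ((2 * l ^ 3) ^ 2) ≤ (1 / 2) ^ l ∧
      err (2 * l ^ 3) (8 * l ^ 3) l (2 * l ^ 2) ≤ 5 * (1 / 2) ^ l := by
  have h2 := h0 1 l hl0
  have h3 := h1 l hl1
  simp only [pow_one, mul_one, Nat.reduceAdd] at h2 h3
  exact ⟨h2.trans (Explicit_exp l), h3⟩

theorem Explicit_arith {B n len P P' s e η u : ℝ} (hB : 0 < B) (hBn : B ≤ n ^ 2) (hn : 1 ≤ n)
    (hlen : 1 ≤ len) (hs : s ≤ 8 * len) (hs0 : 0 ≤ s) (he : e ≤ 5 * u) (hη : η ≤ u) (hu : 0 < u)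
    (hP0 : 0 ≤ P) (hPP : P ≤ P') (hP' : 4 * P' ≤ B)
    (h : B ≤ P' * (1 + B * (s * e)) + P * (B * (B * η))) : 3 ≤ 41 * n ^ 4 * len * u := by
  have hn2 : 1 ≤ n ^ 2 := one_le_pow₀ hn
  have h1 : s * e ≤ 40 * len * u := by
    have a1 : s * e ≤ s * (5 * u) := mul_le_mul_of_nonneg_left he hs0
    have a2 : s * (5 * u) ≤ 8 * len * (5 * u) := mul_le_mul_of_nonneg_right hs (by positivity)
    linarith
  have h2 : B * (s * e) ≤ 40 * n ^ 2 * len * u := by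
    calc B * (s * e) ≤ B * (40 * len * u) := mul_le_mul_of_nonneg_left h1 hB.le
      _ ≤ n ^ 2 * (40 * len * u) := mul_le_mul_of_nonneg_right hBn (by positivity)
      _ = 40 * n ^ 2 * len * u := by ring
  have h3 : B * (B * η) ≤ B * (B * u) :=
    mul_le_mul_of_nonneg_left (mul_le_mul_of_nonneg_left hη hB.le) hB.le
  have h4 : B * u ≤ n ^ 2 * u := mul_le_mul_of_nonneg_right hBn hu.le
  have hP'0 : 0 ≤ P' := hP0.trans hPP
  have h5 : P * (B * (B * η)) ≤ (B / 4) * (B * (n ^ 2 * u)) := by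
    calc P * (B * (B * η)) ≤ P * (B * (B * u)) := mul_le_mul_of_nonneg_left h3 hP0
      _ ≤ (B / 4) * (B * (B * u)) := mul_le_mul_of_nonneg_right (by linarith) (by positivity)
      _ ≤ (B / 4) * (B * (n ^ 2 * u)) :=
        mul_le_mul_of_nonneg_left (mul_le_mul_of_nonneg_left h4 hB.le) (by positivity)
  have h6 : P' * (1 + B * (s * e)) ≤ (B / 4) * (1 + 40 * n ^ 2 * len * u) := by
    calc P' * (1 + B * (s * e)) ≤ P' * (1 + 40 * n ^ 2 * len * u) :=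
          mul_le_mul_of_nonneg_left (by linarith) hP'0
      _ ≤ (B / 4) * (1 + 40 * n ^ 2 * len * u) :=
        mul_le_mul_of_nonneg_right (by linarith) (by positivity)
  have h7 : B ≤ (B / 4) * (1 + 40 * n ^ 2 * len * u + B * (n ^ 2 * u)) := by
    calc B ≤ _ := h
      _ ≤ (B / 4) * (1 + 40 * n ^ 2 * len * u) + (B / 4) * (B * (n ^ 2 * u)) := add_le_add h6 h5
      _ = _ := by ring
  have h8 : 4 ≤ 1 + 40 * n ^ 2 * len * u + B * (n ^ 2 * u) := by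
    by_contra hc
    push Not at hc
    have : (B / 4) * (1 + 40 * n ^ 2 * len * u + B * (n ^ 2 * u)) < (B / 4) * 4 :=
      mul_lt_mul_of_pos_left hc (by positivity)
    linarith
  have h9 : B * (n ^ 2 * u) ≤ n ^ 4 * len * u := by
    calc B * (n ^ 2 * u) ≤ n ^ 2 * (n ^ 2 * u) := mul_le_mul_of_nonneg_right hBn (by positivity)
      _ = n ^ 4 * u := by ring
      _ ≤ n ^ 4 * u * len := le_mul_of_one_le_right (by positivity) hlen
      _ = n ^ 4 * len * u := by ring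
  have h10 : 40 * n ^ 2 * len * u ≤ 40 * n ^ 4 * len * u := by
    have : n ^ 2 ≤ n ^ 4 := pow_le_pow_right₀ hn (by norm_num)
    have h11 : 0 ≤ 40 * len * u := by positivity
    calc 40 * n ^ 2 * len * u = n ^ 2 * (40 * len * u) := by ring
      _ ≤ n ^ 4 * (40 * len * u) := mul_le_mul_of_nonneg_right this h11
      _ = 40 * n ^ 4 * len * u := by ring
  linarith

/-- PROOF. Let `l₀` be at least `64`, the `l₀` of `bic_small` and of `err_small 1` (with `T = 1`: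
`2 ^ 1 * l ^ (2 * 1 + 1) = 2 * l ^ 3`). `C ≠ []`, since the complete graph has a `k`-clique. Put `L = n / (64 * l ^ 6)`
(natural division) and `B = L * L`. Then `k + 32 * L * l ^ 6 ≤ n` (as `2 k ≤ n`), and `n ≥ 2 ^ 8 * l ^ 6` gives
`L ≥ n / (128 l^6)` as real numbers, so `B ≥ n² / (2^14 l^12) ≥ 4 * 2 ^ (g + negations C)`; also `B ≤ n²`.
By `finite_guess`, with `s = C.length + 2 * negations C + 5 ≤ 8 * C.length` (`negations C ≤ C.length`) and
`2 ^ g ≤ 2 ^ (g + negations C) ≤ B / 4`: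
`B ≤ B / 4 + (B / 4) * B * s * err + (B / 4) * B² * η`, hence `3 ≤ B * s * err + B² * η`, with `err ≤ 5 * 2^(-l)` and
`η ≤ exp (-l) ≤ 2^(-l)`. So `3 * 2^l ≤ 40 n² C.length + n⁴ ≤ 41 n⁴ C.length`. -/
theorem explicit_guess : ∃ l₀ : ℕ, ∀ l ≥ l₀, ∀ n k g : ℕ, 4 * l ^ 3 ≤ k → 2 * k ≤ n →
    ∀ C : List (Gate ((Fin n × Fin n) ⊕ (Fin g × Bool))), GuessClique n k g C →
      2 ^ (g + negations C) * (2 ^ 16 * l ^ 12) ≤ n ^ 2 → 2 ^ l ≤ 14 * n ^ 4 * C.length := by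
  obtain ⟨l₀, h0⟩ := bic_small
  obtain ⟨l₁, h1⟩ := err_small 1
  refine ⟨max (max l₀ l₁) 2, fun l hl n k g hk hkn C hC hN => ?_⟩
  have hl0 : l₀ ≤ l := le_trans (le_trans (le_max_left _ _) (le_max_left _ _)) hl
  have hl1 : l₁ ≤ l := le_trans (le_trans (le_max_right _ _) (le_max_left _ _)) hl
  have hl2 : 2 ≤ l := le_trans (le_max_right _ _) hl
  obtain ⟨hη, he⟩ := Explicit_params h0 h1 hl0 hl1
  have hlen := Explicit_ne (by omega : k ≤ n) C hC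
  have hneg : negations C ≤ C.length := List.countP_le_length
  have hl6 : 0 < l ^ 6 := by positivity
  have hn8 : 2 ^ 8 * l ^ 6 ≤ n := by
    have h2 : (2 ^ 8 * l ^ 6) ^ 2 ≤ n ^ 2 := by
      calc (2 ^ 8 * l ^ 6) ^ 2 = 1 * (2 ^ 16 * l ^ 12) := by ring
        _ ≤ 2 ^ (g + negations C) * (2 ^ 16 * l ^ 12) :=
          Nat.mul_le_mul_right _ Nat.one_le_two_pow
        _ ≤ n ^ 2 := hN
    exact (Nat.pow_le_pow_iff_left (by norm_num)).1 h2
  set L := n / (64 * l ^ 6) with hLdef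
  have hL64 : L * (64 * l ^ 6) ≤ n := Nat.div_mul_le_self _ _
  have hL1 : 1 ≤ L := by
    rw [hLdef, Nat.one_le_div_iff (by positivity)]
    omega
  have hLn : n < (L + 1) * (64 * l ^ 6) := by
    rw [hLdef]
    exact (Nat.div_lt_iff_lt_mul (by positivity)).1 (Nat.lt_succ_self _)
  have hL128 : n ≤ L * (128 * l ^ 6) := by
    have h2 : (L + 1) * (64 * l ^ 6) ≤ L * (128 * l ^ 6) := by nlinarith
    omega
  have hLle : L ≤ n := Nat.div_le_self _ _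
  have hfg := finite_guess l L n k g hl2 hL1 hk (by nlinarith) C hC
  have hB4 : 4 * 2 ^ (g + negations C) ≤ L * L := by
    have h2 : n ^ 2 ≤ (L * (128 * l ^ 6)) ^ 2 := Nat.pow_le_pow_left hL128 2
    have h3 : 2 ^ (g + negations C) * (2 ^ 16 * l ^ 12) ≤ (L * L) * (2 ^ 14 * l ^ 12) := by
      calc _ ≤ n ^ 2 := hN
        _ ≤ (L * (128 * l ^ 6)) ^ 2 := h2
        _ = (L * L) * (2 ^ 14 * l ^ 12) := by ring
    have h4 : (4 * 2 ^ (g + negations C)) * (2 ^ 14 * l ^ 12) ≤ (L * L) * (2 ^ 14 * l ^ 12) := by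
      calc _ = 2 ^ (g + negations C) * (2 ^ 16 * l ^ 12) := by ring
        _ ≤ _ := h3
    exact Nat.le_of_mul_le_mul_right h4 (by positivity)
  have hu : (0 : ℝ) < (1 / 2) ^ l := by positivity
  have hmain := Explicit_arith (B := ((L * L : ℕ) : ℝ)) (n := (n : ℝ)) (len := (C.length : ℝ))
    (P := 2 ^ g) (P' := 2 ^ g * 2 ^ negations C)
    (s := ((C.length + 2 * negations C + 5 : ℕ) : ℝ))
    (e := err (2 * l ^ 3) (8 * l ^ 3) l (2 * l ^ 2))
    (η := ((8 * l ^ 3 : ℕ) : ℝ) ^ (2 * (2 * l ^ 3)) *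
        (1 - 1 / ((2 * l ^ 2 : ℕ) : ℝ)) ^ ((2 * l ^ 3) ^ 2)) (u := (1 / 2) ^ l)
    (by exact_mod_cast Nat.mul_pos hL1 hL1)
    (by
      have : L * L ≤ n ^ 2 := by nlinarith
      exact_mod_cast this)
    (by
      have : 1 ≤ n := le_trans hL1 hLle
      exact_mod_cast this)
    (by exact_mod_cast hlen)
    (by
      have : C.length + 2 * negations C + 5 ≤ 8 * C.length := by omega
      exact_mod_cast this)
    (Nat.cast_nonneg _) he hη hu (by positivity)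
    (le_mul_of_one_le_right (by positivity) (one_le_pow₀ (by norm_num)))
    (by
      have h5 : ((4 * 2 ^ (g + negations C) : ℕ) : ℝ) ≤ ((L * L : ℕ) : ℝ) := by exact_mod_cast hB4
      rw [← pow_add]
      push_cast at h5 ⊢
      exact h5)
    (by
      refine hfg.trans (le_of_eq ?_)
      ring)
  have h6 : (3 : ℝ) * 2 ^ l ≤ 41 * n ^ 4 * C.length := by
    have h7 : (1 / 2 : ℝ) ^ l * 2 ^ l = 1 := by
      rw [← mul_pow]
      norm_num
    calc (3 : ℝ) * 2 ^ l ≤ (41 * n ^ 4 * C.length * (1 / 2) ^ l) * 2 ^ l :=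
          mul_le_mul_of_nonneg_right hmain (by positivity)
      _ = 41 * n ^ 4 * C.length * ((1 / 2) ^ l * 2 ^ l) := by ring
      _ = 41 * n ^ 4 * C.length := by rw [h7, mul_one]
  have h8 : 3 * 2 ^ l ≤ 41 * n ^ 4 * C.length := by exact_mod_cast h6
  nlinarith [Nat.zero_le (n ^ 4 * C.length)]

/-- PROOF. As above with `finite_mono`: `2 ^ l ≤ 2 ^ g * (1 + 5 * C.length) ≤ 6 * 2 ^ g * C.length`
(`C ≠ []`). -/
theorem explicit_mono : ∃ l₀ : ℕ, ∀ l ≥ l₀, ∀ n k g : ℕ, 4 * l ^ 3 ≤ k → k + 32 * l ^ 6 ≤ n →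
    ∀ C : List (Gate ((Fin n × Fin n) ⊕ (Fin g × Bool))), GuessClique n k g C → negations C = 0 →
      2 ^ l ≤ 6 * 2 ^ g * C.length := by
  obtain ⟨l₀, h0⟩ := bic_small
  obtain ⟨l₁, h1⟩ := err_small 1
  refine ⟨max (max l₀ l₁) 2, fun l hl n k g hk hkn C hC hM => ?_⟩
  have hl0 : l₀ ≤ l := le_trans (le_trans (le_max_left _ _) (le_max_left _ _)) hl
  have hl1 : l₁ ≤ l := le_trans (le_trans (le_max_right _ _) (le_max_left _ _)) hl
  have hl2 : 2 ≤ l := le_trans (le_max_right _ _) hl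
  obtain ⟨hη, he⟩ := Explicit_params h0 h1 hl0 hl1
  have hlen := Explicit_ne (by omega : k ≤ n) C hC
  have hfm := finite_mono l n k g hl2 hk hkn C hC hM
  have hlen' : (1 : ℝ) ≤ C.length := by exact_mod_cast hlen
  have hu : (0 : ℝ) < (1 / 2) ^ l := by positivity
  have h2 : (1 : ℝ) ≤ 2 ^ g * (6 * C.length * (1 / 2) ^ l) := by
    refine hfm.trans (mul_le_mul_of_nonneg_left ?_ (by positivity))
    have h3 : (C.length : ℝ) * err (2 * l ^ 3) (8 * l ^ 3) l (2 * l ^ 2) ≤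
        C.length * (5 * (1 / 2) ^ l) := mul_le_mul_of_nonneg_left he (by positivity)
    have h4 : (1 / 2 : ℝ) ^ l ≤ C.length * (1 / 2) ^ l := le_mul_of_one_le_left hu.le hlen'
    linarith
  have h5 : (2 : ℝ) ^ l ≤ 6 * 2 ^ g * C.length := by
    have h7 : (1 / 2 : ℝ) ^ l * 2 ^ l = 1 := by
      rw [← mul_pow]
      norm_num
    calc (2 : ℝ) ^ l = 1 * 2 ^ l := (one_mul _).symm
      _ ≤ (2 ^ g * (6 * C.length * (1 / 2) ^ l)) * 2 ^ l :=
          mul_le_mul_of_nonneg_right h2 (by positivity)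
      _ = 6 * 2 ^ g * C.length * ((1 / 2) ^ l * 2 ^ l) := by ring
      _ = 6 * 2 ^ g * C.length := by rw [h7, mul_one]
  exact_mod_cast h5

end Pool.Agent.helper81.NL
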