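import Pool.Agent.helper81.NL.Defs

set_option autoImplicit false

/-!
# Circuits with guess bits: definitions
-/

namespace Pool.Agent.helper81.NL

/-- The input of a circuit with `g` guess bits: the variables `x` and both literals of every guess bit
(`(i, true)` is `y i`, and `(i, false)` is its negation). -/
def guessInput {V : Type} {g : ℕ} (x : V → Bool) (y : Fin g → Bool) : V ⊕ (Fin g × Bool) → Bool
  | Sum.inl v => x v
  | Sum.inr p => y p.1 == p.2

/-- A circuit with `g` guess bits accepts `x` if some guess makes it output `true`. -/
def Accepts {V : Type} {g : ℕ} (C : List (Gate (V ⊕ (Fin g × Bool)))) (x : V → Bool) : Prop :=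
  ∃ y : Fin g → Bool, eval C (guessInput x y) = true

/-- The circuit `C` with `g` guess bits, whose variables are the pairs of vertices, decides whether a
graph on `n` vertices has a clique with `k` vertices. -/
def GuessClique (n k g : ℕ) (C : List (Gate ((Fin n × Fin n) ⊕ (Fin g × Bool)))) : Prop :=
  ∀ (G : SimpleGraph (Fin n)) [DecidableRel G.Adj],
    Accepts C (fun e => decide (G.Adj e.1 e.2)) ↔ ¬ G.CliqueFree k

end Pool.Agent.helper81.NL
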