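import Pool.Agent.helper81.NL.Chain
import Pool.Agent.helper81.NL.Embed
import Pool.Agent.helper81.NL.Guess

set_option autoImplicit false
set_option synthInstance.maxSize 2000

/-!
# NG-3: the inequalities for cliques (owner helper81)
-/

namespace Pool.Agent.helper81.NL

open scoped Classical

/-- substitution of a guess and of the structured graph -/
noncomputable def gSig {V E : Type} {g : ℕ} (σ : V → Bool ⊕ E) (y : Fin g → Bool) :
    V ⊕ (Fin g × Bool) → Bool ⊕ E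
  | Sum.inl v => σ v
  | Sum.inr p => Sum.inl (y p.1 == p.2)

theorem gSig_subst {V E : Type} {g : ℕ} (σ : V → Bool ⊕ E) (y : Fin g → Bool) (x : E → Bool) :
    subst (gSig σ y) x = guessInput (subst σ x) y := by
  funext v
  cases v with
  | inl v => rfl
  | inr p => rfl

/-- The blocks inside the clique problem on `Fin n`, for circuits with guesses. -/
theorem embed_guess {n K L w k ν u g : ℕ} (hw : 1 ≤ w) (hk : 1 ≤ k) (hK : K = u + 2 * w * k)
    (hn : u + 2 * L * w * k * ν ≤ n) (C : List (Gate ((Fin n × Fin n) ⊕ (Fin g × Bool))))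
    (hC : GuessClique n K g C) :
    ∃ σ : (Fin g → Bool) → (Fin n × Fin n) ⊕ (Fin g × Bool) → Bool ⊕ (Bk L w × Ed k ν),
      ∀ x : Bk L w × Ed k ν → Bool,
        (∃ y, eval C (subst (σ y) x) = true) ↔ ∃ i, ∀ j, Bic fun e => x ((i, j), e) := by
  have hcard : Fintype.card (Fin u ⊕ St L w k ν) ≤ Fintype.card (Fin n) := by
    simp only [Fintype.card_sum, Fintype.card_prod, Fintype.card_fin, Fintype.card_bool]
    calc u + 2 * (L * (w * (k * ν))) = u + 2 * L * w * k * ν := by ring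
      _ ≤ n := hn
  obtain ⟨f⟩ := Function.Embedding.nonempty_of_card_le hcard
  refine ⟨fun y => gSig (embedSig f) y, fun x => ?_⟩
  have hfun : subst (embedSig f) x =
      fun e : Fin n × Fin n => decide (((bigGraph u x).map f).Adj e.1 e.2) := by
    funext e
    rw [Bool.eq_iff_iff, decide_eq_true_iff]
    exact embed_subst f x e
  have h2 : 1 < K := by
    have : 1 ≤ w * k := Nat.mul_pos hw hk
    rw [hK]
    nlinarith
  simp only [gSig_subst, hfun]
  have h3 := hC ((bigGraph u x).map f)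
  unfold Accepts at h3
  rw [h3, ← big_clique hw hk u x, ← hK]
  simp only [SimpleGraph.CliqueFree, SimpleGraph.isNClique_map_iff h2]
  simp

theorem finite_guess (l L n k g : ℕ) (hl : 2 ≤ l) (hL : 1 ≤ L) (hk : 4 * l ^ 3 ≤ k)
    (hn : k + 32 * L * l ^ 6 ≤ n)
    (C : List (Gate ((Fin n × Fin n) ⊕ (Fin g × Bool)))) (hC : GuessClique n k g C) :
    ((L * L : ℕ) : ℝ) ≤ 2 ^ g * (2 ^ negations C * (1 + (L * L : ℕ) *
        ((C.length + 2 * negations C + 5 : ℕ) * err (2 * l ^ 3) (8 * l ^ 3) l (2 * l ^ 2))) +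
      (L * L : ℕ) * ((L * L : ℕ) * (((8 * l ^ 3 : ℕ) : ℝ) ^ (2 * (2 * l ^ 3)) *
        (1 - 1 / ((2 * l ^ 2 : ℕ) : ℝ)) ^ ((2 * l ^ 3) ^ 2)))) := by
  have hQ : NeZero (2 * l ^ 2) := ⟨by positivity⟩
  have hk1 : 1 ≤ 2 * l ^ 3 := by
    have : 0 < l ^ 3 := by positivity
    omega
  obtain ⟨σ, hσ⟩ := embed_guess (n := n) (K := k) (L := L) (w := 1) (k := 2 * l ^ 3)
    (ν := 8 * l ^ 3) (u := k - 4 * l ^ 3) (g := g) le_rfl hk1 (by omega) (by
      have h1 : 2 * L * 1 * (2 * l ^ 3) * (8 * l ^ 3) = 32 * L * l ^ 6 := by ring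
      rw [h1]
      omega) C hC
  have hr : 2 ≤ 2 * l ^ 2 := by
    have : 0 < l ^ 2 := by positivity
    omega
  have h := chain_ineq (Q := 2 * l ^ 2) (l := l) (r := 2 * l ^ 2) σ C hσ hr le_rfl
    (by ring_nf; exact le_rfl) hl
  rw [Fintype.card_fun, Fintype.card_bool, Fintype.card_fin] at h
  rw [Nat.cast_pow, Nat.cast_ofNat] at h
  exact h

theorem finite_mono (l n k g : ℕ) (hl : 2 ≤ l) (hk : 4 * l ^ 3 ≤ k) (hn : k + 32 * l ^ 6 ≤ n)
    (C : List (Gate ((Fin n × Fin n) ⊕ (Fin g × Bool)))) (hC : GuessClique n k g C)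
    (hM : negations C = 0) :
    1 ≤ (2 : ℝ) ^ g * (((8 * l ^ 3 : ℕ) : ℝ) ^ (2 * (2 * l ^ 3)) *
        (1 - 1 / ((2 * l ^ 2 : ℕ) : ℝ)) ^ ((2 * l ^ 3) ^ 2) +
      C.length * err (2 * l ^ 3) (8 * l ^ 3) l (2 * l ^ 2)) := by
  have hQ : NeZero (2 * l ^ 2) := ⟨by positivity⟩
  have hk1 : 1 ≤ 2 * l ^ 3 := by
    have : 0 < l ^ 3 := by positivity
    omega
  obtain ⟨σ, hσ⟩ := embed_guess (n := n) (K := k) (L := 1) (w := 1) (k := 2 * l ^ 3)
    (ν := 8 * l ^ 3) (u := k - 4 * l ^ 3) (g := g) le_rfl hk1 (by omega) (by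
      have h1 : 2 * 1 * 1 * (2 * l ^ 3) * (8 * l ^ 3) = 32 * l ^ 6 := by ring
      rw [h1]
      omega) C hC
  have hr : 2 ≤ 2 * l ^ 2 := by
    have : 0 < l ^ 2 := by positivity
    omega
  have h := chain_mono (Q := 2 * l ^ 2) (l := l) (r := 2 * l ^ 2) hr le_rfl
    (by ring_nf; exact le_rfl) hl σ C hM hσ
  rw [Fintype.card_fun, Fintype.card_bool, Fintype.card_fin] at h
  rw [Nat.cast_pow, Nat.cast_ofNat] at h
  exact h

end Pool.Agent.helper81.NL
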