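import Pool.Agent.helper81.NL.Base

set_option autoImplicit false

/-!
# NL-12: the blocks inside the clique problem
-/

namespace Pool.Agent.helper81.NL

open scoped Classical

/-- The vertices of the structured graph: side (`false` left, `true` right), class, group, part, point. -/
abbrev St (L w k ν : ℕ) : Type := Bool × Fin L × Fin w × Fin k × Fin ν

/-- The graph on `u` universal vertices and the structured vertices. Two structured vertices of the same
side are adjacent iff they have the same class and different (group, part). A left vertex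
`(α, j, i, a)` and a right vertex `(β, j', i', a')` are adjacent iff `j ≠ j'` or the block
`((α, β), j)` has the edge `((i, a), (i', a'))`. A universal vertex is adjacent to all other vertices. -/
def bigAdj {L w k ν u : ℕ} (x : Bk L w × Ed k ν → Bool) :
    Fin u ⊕ St L w k ν → Fin u ⊕ St L w k ν → Prop
  | Sum.inl a, Sum.inl b => a ≠ b
  | Sum.inl _, Sum.inr _ => True
  | Sum.inr _, Sum.inl _ => True
  | Sum.inr (false, α, j, i, _), Sum.inr (false, α', j', i', _) => α = α' ∧ (j, i) ≠ (j', i')
  | Sum.inr (true, α, j, i, _), Sum.inr (true, α', j', i', _) => α = α' ∧ (j, i) ≠ (j', i')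
  | Sum.inr (false, α, j, i, a), Sum.inr (true, β, j', i', a') =>
      j ≠ j' ∨ x (((α, β), j), ((i, a), (i', a'))) = true
  | Sum.inr (true, β, j', i', a'), Sum.inr (false, α, j, i, a) =>
      j ≠ j' ∨ x (((α, β), j), ((i, a), (i', a'))) = true

/-- The big graph as a simple graph. -/
def bigGraph {L w k ν : ℕ} (u : ℕ) (x : Bk L w × Ed k ν → Bool) :
    SimpleGraph (Fin u ⊕ St L w k ν) where
  Adj := bigAdj x
  symm := ⟨by
    rintro (a | ⟨s, α, j, i, a⟩) (b | ⟨s', α', j', i', b⟩) h
    · exact Ne.symm h
    · cases s' <;> trivial
    · cases s <;> trivial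
    · cases s <;> cases s'
      · exact ⟨h.1.symm, Ne.symm h.2⟩
      · rcases h with h | h
        · exact Or.inl h
        · exact Or.inr h
      · rcases h with h | h
        · exact Or.inl h
        · exact Or.inr h
      · exact ⟨h.1.symm, Ne.symm h.2⟩⟩
  loopless := ⟨by
    rintro (a | ⟨s, α, j, i, a⟩) h
    · exact h rfl
    · cases s
      · exact h.2 rfl
      · exact h.2 rfl⟩

/-- the vertices of the clique of a tribe -/
def graphF {L w k ν u : ℕ} (α β : Fin L) (P : Fin w → Tr k ν) :
    Fin u ⊕ (Bool × Fin w × Fin k) → Fin u ⊕ St L w k ν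
  | Sum.inl a => Sum.inl a
  | Sum.inr (false, j, i) => Sum.inr (false, α, j, i, P j (false, i))
  | Sum.inr (true, j, i) => Sum.inr (true, β, j, i, P j (true, i))

/-- the projection of a vertex -/
def graphP {L w k ν u : ℕ} : Fin u ⊕ St L w k ν → Fin u ⊕ (Bool × Fin w × Fin k)
  | Sum.inl a => Sum.inl a
  | Sum.inr (s, _, j, i, _) => Sum.inr (s, j, i)

lemma graphP_F {L w k ν u : ℕ} (α β : Fin L) (P : Fin w → Tr k ν)
    (z : Fin u ⊕ (Bool × Fin w × Fin k)) : graphP (graphF α β P z) = z := by
  rcases z with a | ⟨s, j, i⟩
  · rfl
  · cases s <;> rfl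

lemma graph_card (u w k : ℕ) :
    Fintype.card (Fin u ⊕ (Bool × Fin w × Fin k)) = u + 2 * w * k := by
  simp only [Fintype.card_sum, Fintype.card_prod, Fintype.card_fin, Fintype.card_bool]
  ring

/-- A clique with `u + 2 w k` vertices exists iff some tribe has a biclique in each of its blocks.
PROOF. (⇐) Given `(α, β)` and transversals `P j : Tr k ν` for the blocks `((α, β), j)`: take all universal vertices,
the left vertices `(α, j, i, P j (false, i))` and the right vertices `(β, j, i, P j (true, i))`; all pairs
are adjacent, and there are `u + w k + w k` of them. (⇒) Let `S` be a clique with `u + 2 w k` vertices. At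
most `u` of them are universal. The left vertices of `S` all have the same class `α` and pairwise
different (group, part), so there are at most `w k` of them; the same for the right ones. Hence
equality everywhere: since `1 ≤ w`, `1 ≤ k` there is a left and a right vertex, `α` and `β` are defined, and
for every (j, i) there is exactly one left vertex `(α, j, i, a)` in `S`, and one right vertex: this defines
`P j`; adjacency of `(α, j, i, a)` and `(β, j, i', a')` gives the edge of the block `((α, β), j)`. -/
theorem big_clique {L w k ν : ℕ} (hw : 1 ≤ w) (hk : 1 ≤ k) (u : ℕ) (x : Bk L w × Ed k ν → Bool) :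
    ¬ (bigGraph u x).CliqueFree (u + 2 * w * k) ↔ ∃ i, ∀ j, Bic fun e => x ((i, j), e) := by
  constructor
  · intro h
    rw [SimpleGraph.CliqueFree] at h
    push Not at h
    obtain ⟨S, hS⟩ := h
    have hcl := hS.isClique
    have hcard := hS.card_eq
    -- the projection is injective on `S`
    have hinj : Set.InjOn graphP (S : Set (Fin u ⊕ St L w k ν)) := by
      intro z hz z' hz' hzz
      by_contra hne
      have hadj : bigAdj x z z' := hcl hz hz' hne
      rcases z with a | ⟨s, α, j, i, a⟩ <;> rcases z' with b | ⟨s', α', j', i', b⟩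
      · simp only [graphP, Sum.inl.injEq] at hzz
        exact hadj hzz
      · simp [graphP] at hzz
      · simp [graphP] at hzz
      · simp only [graphP, Sum.inr.injEq, Prod.mk.injEq] at hzz
        obtain ⟨rfl, rfl, rfl⟩ := hzz
        cases s
        · exact hadj.2 rfl
        · exact hadj.2 rfl
    have himg : S.image graphP = Finset.univ := by
      apply Finset.eq_univ_of_card
      rw [Finset.card_image_of_injOn hinj, hcard, graph_card]
    have hex : ∀ (s : Bool) (j : Fin w) (i : Fin k), ∃ (α : Fin L) (a : Fin ν),
        (Sum.inr (s, α, j, i, a) : Fin u ⊕ St L w k ν) ∈ S := by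
      intro s j i
      have h1 : (Sum.inr (s, j, i) : Fin u ⊕ (Bool × Fin w × Fin k)) ∈ S.image graphP := by
        rw [himg]; exact Finset.mem_univ _
      obtain ⟨z, hz, hz2⟩ := Finset.mem_image.1 h1
      rcases z with a | ⟨s', α, j', i', a⟩
      · simp [graphP] at hz2
      · simp only [graphP, Sum.inr.injEq, Prod.mk.injEq] at hz2
        obtain ⟨rfl, rfl, rfl⟩ := hz2
        exact ⟨α, a, hz⟩
    choose cl pt hmem using hex
    let j0 : Fin w := ⟨0, hw⟩
    let i0 : Fin k := ⟨0, hk⟩
    have hclass : ∀ (s : Bool) (j : Fin w) (i : Fin k), cl s j i = cl s j0 i0 := by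
      intro s j i
      by_cases hji : (j, i) = (j0, i0)
      · simp only [Prod.mk.injEq] at hji
        rw [hji.1, hji.2]
      · have h1 := hmem s j i
        have h2 := hmem s j0 i0
        have hne : (Sum.inr (s, cl s j i, j, i, pt s j i) : Fin u ⊕ St L w k ν) ≠
            Sum.inr (s, cl s j0 i0, j0, i0, pt s j0 i0) := by
          intro h
          simp only [Sum.inr.injEq, Prod.mk.injEq] at h
          exact hji (by rw [h.2.2.1, h.2.2.2.1])
        have hadj : bigAdj x _ _ := hcl h1 h2 hne
        cases s
        · exact hadj.1
        · exact hadj.1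
    refine ⟨(cl false j0 i0, cl true j0 i0), fun j => ⟨fun p => pt p.1 j p.2, ?_⟩⟩
    rintro ⟨⟨i, a⟩, ⟨i', a'⟩⟩ he
    simp only [KP, Bool.and_eq_true, decide_eq_true_eq] at he
    have h1 := hmem false j i
    have h2 := hmem true j i'
    rw [hclass false j i, he.1] at h1
    rw [hclass true j i', he.2] at h2
    have hadj : bigAdj x _ _ := hcl h1 h2 (by simp)
    rcases hadj with h | h
    · exact absurd rfl h
    · exact h
  · rintro ⟨⟨α, β⟩, h⟩
    choose P hP using h
    have hF : Function.Injective (graphF (u := u) α β P) :=
      Function.LeftInverse.injective (graphP_F α β P)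
    intro hfree
    refine hfree (Finset.univ.map ⟨graphF α β P, hF⟩) ⟨?_, ?_⟩
    · rw [Finset.coe_map, Finset.coe_univ, Set.image_univ]
      rintro _ ⟨z, rfl⟩ _ ⟨z', rfl⟩ hne
      have hne' : z ≠ z' := fun h => hne (by rw [h])
      change bigAdj x (graphF α β P z) (graphF α β P z')
      rcases z with a | ⟨s, j, i⟩ <;> rcases z' with b | ⟨s', j', i'⟩
      · exact fun h => hne' (by rw [h])
      · cases s' <;> trivial
      · cases s <;> trivial
      · cases s <;> cases s'
        · refine ⟨rfl, fun h => hne' ?_⟩
          simp only [Prod.mk.injEq] at h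
          rw [h.1, h.2]
        · by_cases hj : j = j'
          · subst hj
            right
            exact hP j ((i, P j (false, i)), (i', P j (true, i'))) (by simp [KP])
          · exact Or.inl hj
        · by_cases hj : j' = j
          · subst hj
            right
            exact hP j' ((i', P j' (false, i')), (i, P j' (true, i))) (by simp [KP])
          · exact Or.inl hj
        · refine ⟨rfl, fun h => hne' ?_⟩
          simp only [Prod.mk.injEq] at h
          rw [h.1, h.2]
    · rw [Finset.card_map, Finset.card_univ, graph_card]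

end Pool.Agent.helper81.NL
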