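import Pool.Agent.helper81.NL.Explicit

set_option autoImplicit false

/-!
# NG-5: the lower bounds
-/

namespace Pool.Agent.helper81.NL

open Filter in
theorem Lower_ev (ε γ A B : ℝ) (hε : 0 < ε) (hγ : 0 < γ) :
    ∀ᶠ x : ℝ in atTop, A ≤ x ^ (ε / 16) ∧ x ≤ (2:ℝ) ^ (x ^ γ / 16) ∧
      x ^ (γ / 2) ≤ x ^ γ / 16 ∧ (100000 : ℝ) ≤ (2:ℝ) ^ (x ^ γ / 16) ∧ B ≤ x ^ γ ∧ 4 ≤ x := by
  have hl2 : 0 < Real.log 2 := Real.log_pos (by norm_num)
  have h3 := (isLittleO_log_rpow_atTop hγ).bound (show (0:ℝ) < Real.log 2 / 16 by positivity)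
  have t1 := (tendsto_rpow_atTop (show 0 < ε / 16 by positivity)).eventually_ge_atTop A
  have t2 := (tendsto_rpow_atTop hγ).eventually_ge_atTop (max B 272)
  have t3 := (tendsto_rpow_atTop (show 0 < γ / 2 by positivity)).eventually_ge_atTop 16
  filter_upwards [h3, t1, t2, t3, eventually_ge_atTop (4:ℝ)] with x h3 t1 t2 t3 h4
  have hx0 : 0 < x := by linarith
  have hlx : 0 ≤ Real.log x := Real.log_nonneg (by linarith)
  rw [Real.norm_of_nonneg hlx, Real.norm_of_nonneg (Real.rpow_nonneg hx0.le _)] at h3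
  have hB : B ≤ x ^ γ := le_trans (le_max_left _ _) t2
  have h272 : 272 ≤ x ^ γ := le_trans (le_max_right _ _) t2
  refine ⟨t1, ?_, ?_, ?_, hB, h4⟩
  · rw [Real.rpow_def_of_pos (by norm_num : (0:ℝ) < 2)]
    calc x = Real.exp (Real.log x) := (Real.exp_log hx0).symm
      _ ≤ _ := Real.exp_le_exp.2 (by linarith)
  · have : x ^ γ = x ^ (γ / 2) * x ^ (γ / 2) := by
      rw [← Real.rpow_add hx0]; congr 1; ring
    rw [this]
    have h0 : 0 ≤ x ^ (γ / 2) := by positivity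
    nlinarith
  · calc (100000 : ℝ) ≤ (2:ℝ) ^ (17 : ℕ) := by norm_num
      _ = (2:ℝ) ^ (17 : ℝ) := by rw [← Real.rpow_natCast]; norm_num
      _ ≤ _ := Real.rpow_le_rpow_of_exponent_le (by norm_num) (by linarith)

/-- PROOF. If `ε > 1` there is no such `k` (for `n ≥ 1`). Let `ε ≤ 1`, `γ = ε / 24`, `c = γ / 2` and, for `n`
large, `l = ⌊n ^ γ⌋₊`. Then `l → ∞`, so `l ≥ l₀`; `4 * l ^ 3 ≤ 4 * n ^ (ε/8) ≤ n ^ ε ≤ k`. First case
`g + negations C ≤ (2 - ε) * logb 2 n`: `2 ^ (g + negations C) ≤ n ^ (2 - ε)` and `2 ^ 16 * l ^ 12 ≤ 2 ^ 16 * n ^ (ε / 2) ≤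
n ^ ε` for `n` large, so `explicit_guess` gives `C.length ≥ 2 ^ l / (14 n⁴) ≥ 2 ^ (n ^ γ - 1) / (14 n⁴) ≥ 2 ^ (n ^ c)` for
`n` large. Second case `negations C = 0`, `g ≤ n ^ c`: `k + 32 * l ^ 6 ≤ n / 2 + 32 n ^ (ε/4) ≤ n`, and `explicit_mono` gives
`C.length ≥ 2 ^ (n ^ γ - 1 - n ^ c) / 6 ≥ 2 ^ (n ^ c)`. -/
theorem lower_exp (ε : ℝ) (hε : 0 < ε) : ∃ c : ℝ, 0 < c ∧ ∃ n₀ : ℕ, ∀ n ≥ n₀, ∀ k g : ℕ,
    (n : ℝ) ^ ε ≤ k → 2 * k ≤ n →
    ∀ C : List (Gate ((Fin n × Fin n) ⊕ (Fin g × Bool))), GuessClique n k g C →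
      ((g : ℝ) + negations C ≤ (2 - ε) * Real.logb 2 n ∨
        (negations C = 0 ∧ (g : ℝ) ≤ (n : ℝ) ^ c)) →
      (2 : ℝ) ^ ((n : ℝ) ^ c) ≤ C.length := by
  by_cases hε1 : 1 < ε
  · refine ⟨1, one_pos, 1, fun n hn k g hk1 hk2 => ?_⟩
    exfalso
    have hn1 : (1 : ℝ) ≤ n := by exact_mod_cast hn
    have h1 : (n : ℝ) ≤ (n : ℝ) ^ ε := by
      calc (n : ℝ) = (n : ℝ) ^ (1 : ℝ) := (Real.rpow_one _).symm
        _ ≤ _ := Real.rpow_le_rpow_of_exponent_le hn1 hε1.le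
    have h2 : (2 : ℝ) * k ≤ n := by exact_mod_cast hk2
    linarith
  push Not at hε1
  obtain ⟨γ, hγdef⟩ : ∃ γ : ℝ, γ = ε / 24 := ⟨_, rfl⟩
  have hγ : 0 < γ := by rw [hγdef]; positivity
  obtain ⟨l1, hl1⟩ := explicit_guess
  obtain ⟨l2, hl2⟩ := explicit_mono
  obtain ⟨X, hX⟩ := (Lower_ev ε γ (2 ^ 16) ((l1 + l2 + 3 : ℕ) : ℝ) hε hγ).exists_forall_of_atTop
  refine ⟨γ / 2, by positivity, ⌈X⌉₊, fun n hn k g hk1 hk2 C hC hN => ?_⟩
  obtain ⟨x, hxdef⟩ : ∃ x : ℝ, x = (n : ℝ) := ⟨_, rfl⟩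
  rw [← hxdef] at hk1 hN ⊢
  have hxX : X ≤ x := by
    rw [hxdef]; exact le_trans (Nat.le_ceil X) (by exact_mod_cast hn)
  obtain ⟨H2, H3, H4, H5, H6, H7⟩ := hX x hxX
  have hx0 : 0 < x := by linarith
  have hx1 : 1 ≤ x := by linarith
  obtain ⟨l, hldef⟩ : ∃ l : ℕ, l = ⌊x ^ γ⌋₊ := ⟨_, rfl⟩
  have hxγ : 0 ≤ x ^ γ := Real.rpow_nonneg hx0.le _
  have hlle : (l : ℝ) ≤ x ^ γ := by rw [hldef]; exact Nat.floor_le hxγ
  have hllt : x ^ γ < l + 1 := by rw [hldef]; exact Nat.lt_floor_add_one _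
  have hlbig : l1 + l2 + 2 ≤ l := by
    have : ((l1 + l2 + 3 : ℕ) : ℝ) < ((l + 1 : ℕ) : ℝ) := by push_cast at *; linarith
    have := Nat.cast_lt.1 this
    omega
  have hlp : ∀ j : ℕ, (l : ℝ) ^ j ≤ x ^ (γ * j) := by
    intro j
    calc (l : ℝ) ^ j ≤ (x ^ γ) ^ j := by gcongr
      _ = x ^ (γ * j) := by rw [← Real.rpow_natCast, ← Real.rpow_mul hx0.le]
  have h16 : (0 : ℝ) ≤ x ^ (ε / 16) := Real.rpow_nonneg hx0.le _
  have hA : ∀ (a t : ℝ), 0 ≤ a → a ≤ 2 ^ 16 → a * x ^ t ≤ x ^ (ε / 16 + t) := by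
    intro a t _ ha2
    rw [Real.rpow_add hx0]
    exact mul_le_mul_of_nonneg_right (ha2.trans H2) (Real.rpow_nonneg hx0.le _)
  have h4l : 4 * l ^ 3 ≤ k := by
    have : ((4 * l ^ 3 : ℕ) : ℝ) ≤ k := by
      push_cast
      calc 4 * (l : ℝ) ^ 3 ≤ 4 * x ^ (γ * (3 : ℕ)) := by
            have := hlp 3
            linarith
        _ ≤ x ^ (ε / 16 + γ * (3 : ℕ)) := hA 4 _ (by norm_num) (by norm_num)
        _ ≤ x ^ ε := by
            apply Real.rpow_le_rpow_of_exponent_le hx1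
            rw [hγdef]
            push_cast
            linarith
        _ ≤ k := hk1
    exact_mod_cast this
  have h2l : (2:ℝ) ^ (x ^ γ) ≤ 2 * 2 ^ l := by
    have h1 : (2:ℝ) ^ (x ^ γ) ≤ (2:ℝ) ^ ((l : ℝ) + 1) :=
      Real.rpow_le_rpow_of_exponent_le (by norm_num) hllt.le
    rw [Real.rpow_add (by norm_num), Real.rpow_natCast, Real.rpow_one] at h1
    linarith
  obtain ⟨z, hzdef⟩ : ∃ z : ℝ, z = (2:ℝ) ^ (x ^ γ / 16) := ⟨_, rfl⟩
  rw [← hzdef] at H3 H5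
  have hz0 : 0 < z := by linarith
  have hz16 : z ^ 16 = (2:ℝ) ^ (x ^ γ) := by
    rw [hzdef, ← Real.rpow_natCast, ← Real.rpow_mul (by norm_num)]
    congr 1
    push_cast
    ring
  have hzc : (2:ℝ) ^ (x ^ (γ / 2)) ≤ z := by
    rw [hzdef]
    exact Real.rpow_le_rpow_of_exponent_le (by norm_num) H4
  refine hzc.trans ?_
  rw [← hz16] at h2l
  have hlen0 : (0 : ℝ) ≤ C.length := Nat.cast_nonneg _
  rcases hN with hN | ⟨hN0, hNg⟩
  · -- few guesses and negations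
    have hpow : 2 ^ (g + negations C) * (2 ^ 16 * l ^ 12) ≤ n ^ 2 := by
      have : ((2 ^ (g + negations C) * (2 ^ 16 * l ^ 12) : ℕ) : ℝ) ≤ ((n ^ 2 : ℕ) : ℝ) := by
        push_cast
        rw [← hxdef]
        have e1 : (2 : ℝ) ^ (g + negations C) ≤ x ^ (2 - ε) := by
          calc (2 : ℝ) ^ (g + negations C) = (2 : ℝ) ^ ((g : ℝ) + negations C) := by
                rw [← Nat.cast_add, Real.rpow_natCast]
            _ ≤ (2 : ℝ) ^ (Real.logb 2 x * (2 - ε)) :=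
                Real.rpow_le_rpow_of_exponent_le (by norm_num) (by linarith)
            _ = x ^ (2 - ε) := by
                rw [Real.rpow_mul (by norm_num), Real.rpow_logb (by norm_num) (by norm_num) hx0]
        have e2 : (65536 : ℝ) * (l : ℝ) ^ 12 ≤ x ^ ε := by
          calc (65536 : ℝ) * (l : ℝ) ^ 12 ≤ 65536 * x ^ (γ * (12 : ℕ)) := by
                have := hlp 12
                linarith
            _ ≤ x ^ (ε / 16 + γ * (12 : ℕ)) := hA _ _ (by norm_num) (by norm_num)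
            _ ≤ x ^ ε := by
                apply Real.rpow_le_rpow_of_exponent_le hx1
                rw [hγdef]
                push_cast
                linarith
        calc (2 : ℝ) ^ (g + negations C) * (65536 * (l : ℝ) ^ 12) ≤ x ^ (2 - ε) * x ^ ε := by
              gcongr
          _ = x ^ 2 := by
              rw [← Real.rpow_add hx0, ← Real.rpow_natCast]
              congr 1
              push_cast
              ring
      exact_mod_cast this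
    have key := hl1 l (by omega) n k g h4l hk2 C hC hpow
    have key' : (2 : ℝ) ^ l ≤ 14 * x ^ 4 * C.length := by
      rw [hxdef]
      exact_mod_cast key
    have hx4 : x ^ 4 ≤ z ^ 4 := by gcongr
    have h1 : z ^ 16 ≤ 28 * z ^ 4 * C.length := by
      calc z ^ 16 ≤ 2 * (14 * x ^ 4 * C.length) := by linarith
        _ ≤ 2 * (14 * z ^ 4 * C.length) := by gcongr
        _ = 28 * z ^ 4 * C.length := by ring
    by_contra hcon
    push Not at hcon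
    have h2 : 28 * z ^ 4 * (C.length : ℝ) < 28 * z ^ 4 * z := by gcongr
    have h3 : z ^ 5 * z ^ 11 = z ^ 16 := by ring
    have h4 : z ^ 5 * 28 ≤ z ^ 5 * z ^ 11 := by
      gcongr
      calc (28 : ℝ) ≤ z := by linarith
        _ = z ^ 1 := (pow_one z).symm
        _ ≤ z ^ 11 := pow_le_pow_right₀ (by linarith) (by norm_num)
    nlinarith
  · -- no negation
    have hkn : k + 32 * l ^ 6 ≤ n := by
      have h1 : ((32 * l ^ 6 : ℕ) : ℝ) ≤ x / 2 := by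
        push_cast
        have e1 : 64 * (l : ℝ) ^ 6 ≤ x := by
          calc 64 * (l : ℝ) ^ 6 ≤ 64 * x ^ (γ * (6 : ℕ)) := by
                have := hlp 6
                linarith
            _ ≤ x ^ (ε / 16 + γ * (6 : ℕ)) := hA _ _ (by norm_num) (by norm_num)
            _ ≤ x ^ (1 : ℝ) := by
                apply Real.rpow_le_rpow_of_exponent_le hx1
                rw [hγdef]
                push_cast
                linarith
            _ = x := Real.rpow_one x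
        linarith
      have h2 : (2 : ℝ) * k ≤ x := by rw [hxdef]; exact_mod_cast hk2
      have h3 : ((k + 32 * l ^ 6 : ℕ) : ℝ) ≤ n := by
        rw [Nat.cast_add, ← hxdef]
        linarith
      exact_mod_cast h3
    have key := hl2 l (by omega) n k g h4l hkn C hC hN0
    have key' : (2 : ℝ) ^ l ≤ 6 * 2 ^ g * C.length := by
      exact_mod_cast key
    have hg : (2 : ℝ) ^ g ≤ z := by
      calc (2 : ℝ) ^ g = (2 : ℝ) ^ (g : ℝ) := (Real.rpow_natCast _ _).symm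
        _ ≤ (2 : ℝ) ^ (x ^ (γ / 2)) := Real.rpow_le_rpow_of_exponent_le (by norm_num) hNg
        _ ≤ z := hzc
    have h1 : z ^ 16 ≤ 12 * z * C.length := by
      calc z ^ 16 ≤ 2 * (6 * 2 ^ g * C.length) := by linarith
        _ ≤ 2 * (6 * z * C.length) := by gcongr
        _ = 12 * z * C.length := by ring
    by_contra hcon
    push Not at hcon
    have h2 : 12 * z * (C.length : ℝ) < 12 * z * z := by gcongr
    have h3 : z ^ 2 * z ^ 14 = z ^ 16 := by ring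
    have h4 : z ^ 2 * 12 ≤ z ^ 2 * z ^ 14 := by
      gcongr
      calc (12 : ℝ) ≤ z := by linarith
        _ = z ^ 1 := (pow_one z).symm
        _ ≤ z ^ 14 := pow_le_pow_right₀ (by linarith) (by norm_num)
    nlinarith

/-- PROOF. `m = Nat.log 2 n` tends to infinity with `n`; `l = m ^ 2`: `4 * l ^ 3 = 4 * m ^ 6 ≤ m ^ 7`,
`2 ^ 16 * l ^ 12 = 2 ^ 16 * m ^ 24 ≤ m ^ 28` for `m ≥ 16`. So `2 ^ (m ^ 2) ≤ 14 * n ^ 4 * C.length`, and `n < 2 ^ (m + 1)`, hence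
`14 * n ^ 4 ≤ 2 ^ (4 * m + 8)` and `n ^ (m / 2) ≤ 2 ^ ((m + 1) * (m / 2)) ≤ 2 ^ (m ^ 2 - 4 * m - 8) ≤ C.length` for `m` large. -/
theorem lower_log : ∃ n₀ : ℕ, ∀ n ≥ n₀, ∀ k g : ℕ, Nat.log 2 n ^ 7 ≤ k → 2 * k ≤ n →
    ∀ C : List (Gate ((Fin n × Fin n) ⊕ (Fin g × Bool))), GuessClique n k g C →
      2 ^ (g + negations C) * Nat.log 2 n ^ 28 ≤ n ^ 2 → n ^ (Nat.log 2 n / 2) ≤ C.length := by
  obtain ⟨l0, hl0⟩ := explicit_guess
  refine ⟨2 ^ (l0 + 16), fun n hn k g hk1 hk2 C hC hN => ?_⟩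
  have hn0 : n ≠ 0 := by
    rintro rfl
    have : 0 < 2 ^ (l0 + 16) := by positivity
    omega
  obtain ⟨m, hm⟩ : ∃ m, m = Nat.log 2 n := ⟨_, rfl⟩
  rw [← hm] at hk1 hN ⊢
  have hm1 : l0 + 16 ≤ m := by
    rw [hm]
    exact (Nat.le_log_iff_pow_le (by norm_num) hn0).2 hn
  have hnm : n < 2 ^ (m + 1) := by
    rw [hm]
    exact Nat.lt_pow_succ_log_self (by norm_num) n
  have hm16 : 16 ≤ m := by omega
  have h4l : 4 * (m ^ 2) ^ 3 ≤ k := by
    refine le_trans ?_ hk1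
    have : m ^ 7 = m * (m ^ 2) ^ 3 := by ring
    rw [this]
    exact Nat.mul_le_mul_right _ (by omega)
  have h12 : 2 ^ (g + negations C) * (2 ^ 16 * (m ^ 2) ^ 12) ≤ n ^ 2 := by
    refine le_trans (Nat.mul_le_mul_left _ ?_) hN
    have e1 : m ^ 28 = m ^ 4 * (m ^ 2) ^ 12 := by ring
    have e2 : 2 ^ 16 = 16 ^ 4 := by norm_num
    rw [e1, e2]
    exact Nat.mul_le_mul_right _ (Nat.pow_le_pow_left hm16 4)
  have key := hl0 (m ^ 2) (by nlinarith) n k g h4l hk2 C hC h12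
  have h14 : 14 * n ^ 4 ≤ 2 ^ (4 * m + 8) := by
    calc 14 * n ^ 4 ≤ 2 ^ 4 * (2 ^ (m + 1)) ^ 4 := by
          gcongr
          norm_num
      _ = 2 ^ (4 * m + 8) := by
          rw [← pow_mul, ← pow_add]
          congr 1
          ring
  have h1 : 2 ^ (m ^ 2) ≤ 2 ^ (4 * m + 8) * C.length := key.trans (Nat.mul_le_mul_right _ h14)
  have h2 : n ^ (m / 2) * 2 ^ (4 * m + 8) ≤ 2 ^ (m ^ 2) := by
    calc n ^ (m / 2) * 2 ^ (4 * m + 8) ≤ (2 ^ (m + 1)) ^ (m / 2) * 2 ^ (4 * m + 8) := by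
          gcongr
      _ = 2 ^ ((m + 1) * (m / 2) + (4 * m + 8)) := by
          rw [← pow_mul, ← pow_add]
      _ ≤ 2 ^ (m ^ 2) := by
          apply Nat.pow_le_pow_right (by norm_num)
          have h3 : 2 * (m / 2) ≤ m := Nat.mul_div_le m 2
          nlinarith
  have h5 : 2 ^ (4 * m + 8) * n ^ (m / 2) ≤ 2 ^ (4 * m + 8) * C.length := by
    rw [mul_comm]
    exact h2.trans h1
  exact Nat.le_of_mul_le_mul_left h5 (by positivity)

end Pool.Agent.helper81.NL
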