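import Pool.Agent.helper81.NL.Closed

set_option autoImplicit false

/-!
# NL-4: planted transversals against closed families
-/

namespace Pool.Agent.helper81.NL

open scoped Classical

variable {k ν Q : ℕ} [NeZero Q] {l r : ℕ}

private theorem mem_setP {P : Tr k ν} {s : Vx k ν} : s ∈ setP P ↔ P s.1 = s.2 := by
  unfold setP
  rw [Finset.mem_image]
  constructor
  · rintro ⟨i, -, rfl⟩
    rfl
  · intro h
    exact ⟨s.1, Finset.mem_univ _, Prod.ext rfl h⟩

/-- PROOF: `S ⊆ setP P` iff `P s.1 = s.2` for all `s ∈ S`. The set of such `P` is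
`Fintype.piFinset fun i => {a | ∀ s ∈ S, s.1 = i → s.2 = a}`; with `c i` the number of `s ∈ S` with
`s.1 = i`, the `i`-th factor times `ν ^ (c i)` is at most `ν` (`c i = 0`: `ν * 1`; `c i = 1`: `1 * ν`;
`c i ≥ 2`: `0`, since two elements `s, s'` of `S` with the same part have `s.2 ≠ s'.2`). The product over
`i` gives `card * ν ^ S.card ≤ ν ^ (2 k) = card (Tr k ν)`. -/
theorem pr_subset_setP (hν : 1 ≤ ν) (S : Finset (Vx k ν)) :
    pr (fun P : Tr k ν => S ⊆ setP P) ≤ (1 / (ν : ℝ)) ^ S.card := by
  have hne : Nonempty (Fin ν) := ⟨⟨0, hν⟩⟩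
  have hν0 : (0 : ℝ) < ν := by exact_mod_cast hν
  set f : Pt k → Fin ν → ℝ := fun i a => if ∀ s ∈ S, s.1 = i → s.2 = a then 1 else 0 with hf
  have h1 : pr (fun P : Tr k ν => S ⊆ setP P) = ∏ i, av (f i) := by
    rw [← av_pi_prod]
    unfold pr
    congr 1
    funext P
    rw [hf]
    simp only
    rw [Finset.prod_ite_zero]
    simp only [Finset.prod_const_one]
    congr 1
    apply propext
    constructor
    · rintro h i - s hs rfl
      exact (mem_setP.1 (h hs)).symm
    · intro h s hs
      exact mem_setP.2 (h s.1 (Finset.mem_univ _) s hs rfl).symm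
  have h2 : ∀ i, av (f i) ≤ (1 / (ν : ℝ)) ^ (S.filter fun s => s.1 = i).card := by
    intro i
    have hf1 : ∀ a, f i a ≤ 1 := by
      intro a
      rw [hf]
      simp only
      split_ifs <;> norm_num
    rcases Nat.lt_or_ge (S.filter fun s => s.1 = i).card 2 with hc | hc
    · rcases Nat.lt_or_ge (S.filter fun s => s.1 = i).card 1 with hc' | hc'
      · have h0 : (S.filter fun s => s.1 = i).card = 0 := by omega
        rw [h0, pow_zero]
        exact av_le hf1
      · have h0 : (S.filter fun s => s.1 = i).card = 1 := by omega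
        rw [h0, pow_one]
        obtain ⟨s, hs⟩ := Finset.card_pos.1 hc'
        rw [Finset.mem_filter] at hs
        have h3 : av (f i) ≤ pr (fun a : Fin ν => a = s.2) := by
          refine av_mono fun a => ?_
          rw [hf]
          simp only
          split_ifs with h4 h5 h5
          · exact le_rfl
          · exact absurd (h4 s hs.1 hs.2).symm h5
          · norm_num
          · exact le_rfl
        refine h3.trans_eq ?_
        rw [pr_eq_card, Fintype.card_fin]
        congr 1
        rw [Nat.cast_eq_one, Finset.card_eq_one]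
        exact ⟨s.2, by ext a; simp⟩
    · obtain ⟨s, hs, s', hs', hss⟩ := Finset.one_lt_card.1 (show 1 < _ from hc)
      rw [Finset.mem_filter] at hs hs'
      have h3 : av (f i) ≤ 0 := by
        refine av_le fun a => ?_
        rw [hf]
        simp only
        rw [if_neg]
        intro h4
        apply hss
        exact Prod.ext (hs.2.trans hs'.2.symm) ((h4 s hs.1 hs.2).trans (h4 s' hs'.1 hs'.2).symm)
      exact h3.trans (by positivity)
  rw [h1]
  calc ∏ i, av (f i) ≤ ∏ i, (1 / (ν : ℝ)) ^ (S.filter fun s => s.1 = i).card := by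
        refine Finset.prod_le_prod (fun i _ => av_nonneg fun a => ?_) fun i _ => h2 i
        rw [hf]
        simp only
        split_ifs <;> norm_num
    _ = (1 / (ν : ℝ)) ^ S.card := by
        rw [Finset.prod_pow_eq_pow_sum]
        congr 1
        exact (Finset.card_eq_sum_card_fiberwise fun s _ => Finset.mem_univ _).symm

/-- If `S ⊆ setP P` then `KP P` contains `KS S`. -/
theorem has_of_subset_setP {S : Finset (Vx k ν)} {P : Tr k ν} (h : S ⊆ setP P) : Has S (KP P) := by
  intro e he
  unfold KS at he
  rw [Bool.and_eq_true, decide_eq_true_eq, decide_eq_true_eq] at he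
  unfold KP
  rw [Bool.and_eq_true, decide_eq_true_eq, decide_eq_true_eq]
  exact ⟨mem_setP.1 (h he.1), mem_setP.1 (h he.2)⟩

/-- PROOF: take `S ∈ A` with `Has S (KP P)`. If `S` has no left vertex `((false, _), _)` or no right
vertex, then `KS S e` is false for all `e`, so `Acc A X` holds for all `X` and closedness gives `∅ ∈ A`
(probability `0`); take `∅`. Otherwise every vertex of `S` is an end of an edge `e` with `KS S e`, hence
`KP P e`, so it is in `setP P`; take a minimal member below `S`
(`Finset.exists_minimal`-like, or strong induction on the cardinality). -/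
theorem Closed.exists_min {A : Finset (Finset (Vx k ν))} (hA : Closed Q l r A) {P : Tr k ν}
    (h : Acc A (KP P)) : ∃ S ∈ A, (∀ S' ∈ A, S' ⊆ S → S' = S) ∧ S ⊆ setP P := by
  obtain ⟨S, hS, hP⟩ := h
  -- the case of an accepting member
  have hall : (∀ e, KS S e = false) → ∃ S ∈ A, (∀ S' ∈ A, S' ⊆ S → S' = S) ∧ S ⊆ setP P := by
    intro h0
    refine ⟨∅, ?_, fun S' _ h' => Finset.subset_empty.1 h', Finset.empty_subset _⟩
    refine hA.2 ∅ (by simp) ?_
    rw [pr_false]
    · positivity
    · intro h hn
      refine hn ⟨S, hS, fun e he => ?_⟩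
      rw [h0 e] at he
      exact absurd he (by simp)
  by_cases hl : ∃ u : Fin k × Fin ν, ((false, u.1), u.2) ∈ S
  · by_cases hr : ∃ u : Fin k × Fin ν, ((true, u.1), u.2) ∈ S
    · obtain ⟨u, hu⟩ := hl
      obtain ⟨w, hw⟩ := hr
      have hsub : S ⊆ setP P := by
        intro s hs
        rw [mem_setP]
        obtain ⟨⟨b, i⟩, a⟩ := s
        cases b with
        | false =>
          have h1 := hP ((i, a), w) (by
            unfold KS
            rw [Bool.and_eq_true, decide_eq_true_eq, decide_eq_true_eq]
            exact ⟨hs, hw⟩)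
          unfold KP at h1
          rw [Bool.and_eq_true, decide_eq_true_eq, decide_eq_true_eq] at h1
          exact h1.1
        | true =>
          have h1 := hP (u, (i, a)) (by
            unfold KS
            rw [Bool.and_eq_true, decide_eq_true_eq, decide_eq_true_eq]
            exact ⟨hu, hs⟩)
          unfold KP at h1
          rw [Bool.and_eq_true, decide_eq_true_eq, decide_eq_true_eq] at h1
          exact h1.2
      obtain ⟨S₀, hS₀, hmin⟩ := Finset.exists_min_image (A.filter fun S' => S' ⊆ S) Finset.card
        ⟨S, Finset.mem_filter.2 ⟨hS, Finset.Subset.refl _⟩⟩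
      rw [Finset.mem_filter] at hS₀
      refine ⟨S₀, hS₀.1, fun S' hS' h' => ?_, hS₀.2.trans hsub⟩
      exact Finset.eq_of_subset_of_card_le h'
        (hmin S' (Finset.mem_filter.2 ⟨hS', h'.trans hS₀.2⟩))
    · refine hall fun e => ?_
      unfold KS
      rw [Bool.and_eq_false_iff]
      right
      rw [decide_eq_false_iff_not]
      exact fun h => hr ⟨e.2, h⟩
  · refine hall fun e => ?_
    unfold KS
    rw [Bool.and_eq_false_iff]
    left
    rw [decide_eq_false_iff_not]
    exact fun h => hl ⟨e.1, h⟩

end Pool.Agent.helper81.NL
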