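import Pool.Agent.helper81.NL.Planted

set_option autoImplicit false

/-!
# NL-4b: planted transversals against closed families, probabilities
-/

namespace Pool.Agent.helper81.NL

open scoped Classical

variable {k ν Q : ℕ} [NeZero Q] {l r : ℕ}

theorem PlantedB_sum (hr : 2 ≤ r) (hQ : 2 * l ^ 2 ≤ Q) (hν : 4 * l * r ≤ ν) (hl : 1 ≤ l)
    {A : Finset (Finset (Vx k ν))} (hA : Closed Q l r A) (m : ℕ)
    (M : Finset (Finset (Vx k ν)))
    (hM : ∀ S ∈ M, S ∈ A ∧ (∀ S' ∈ A, S' ⊆ S → S' = S) ∧ m ≤ S.card) :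
    pr (fun P : Tr k ν => ∃ S ∈ M, S ⊆ setP P) ≤ (1 / 4) ^ m / (1 - 1 / 4) := by
  have hν1 : 1 ≤ ν := by
    have : 1 ≤ 4 * l * r := Nat.one_le_iff_ne_zero.2 (by positivity)
    exact this.trans hν
  have hν0 : (0 : ℝ) < ν := by exact_mod_cast hν1
  refine (pr_exists_le M _).trans ?_
  have h1 : ∑ S ∈ M, pr (fun P : Tr k ν => S ⊆ setP P) ≤ ∑ S ∈ M, (1 / (ν : ℝ)) ^ S.card :=
    Finset.sum_le_sum fun S _ => pr_subset_setP hν1 S
  refine h1.trans ?_
  have h2 : ∀ S ∈ M, S.card ∈ Finset.Ico m (l + 1) := by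
    intro S hS
    rw [Finset.mem_Ico]
    exact ⟨(hM S hS).2.2, Nat.lt_succ_of_le (hA.1 S (hM S hS).1)⟩
  rw [← Finset.sum_fiberwise_of_maps_to h2]
  refine le_trans ?_ (geom_sum_Ico_le_of_lt_one (by norm_num : (0 : ℝ) ≤ 1 / 4)
    (by norm_num : (1 / 4 : ℝ) < 1) (m := m) (n := l + 1))
  refine Finset.sum_le_sum fun j hj => ?_
  rw [Finset.mem_Ico] at hj
  have h3 : ∑ S ∈ M.filter (fun S => S.card = j), (1 / (ν : ℝ)) ^ S.card =
      ((M.filter (fun S => S.card = j)).card : ℝ) * (1 / (ν : ℝ)) ^ j := by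
    rw [← nsmul_eq_mul, ← Finset.sum_const]
    refine Finset.sum_congr rfl fun S hS => ?_
    rw [(Finset.mem_filter.1 hS).2]
  rw [h3]
  have h4 : ((M.filter (fun S => S.card = j)).card : ℝ) ≤ ((l * r : ℕ) : ℝ) ^ j := by
    have h5 : (M.filter (fun S => S.card = j)).card ≤ (l * r) ^ j := by
      refine le_trans (Finset.card_le_card ?_)
        (hA.min_count hr hQ j (Nat.lt_succ_iff.1 hj.2))
      intro S hS
      rw [Finset.mem_filter] at hS ⊢
      exact ⟨(hM S hS.1).1, hS.2, (hM S hS.1).2.1⟩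
    exact_mod_cast h5
  calc ((M.filter (fun S => S.card = j)).card : ℝ) * (1 / (ν : ℝ)) ^ j
      ≤ ((l * r : ℕ) : ℝ) ^ j * (1 / (ν : ℝ)) ^ j :=
        mul_le_mul_of_nonneg_right h4 (by positivity)
    _ = (((l * r : ℕ) : ℝ) * (1 / (ν : ℝ))) ^ j := by rw [mul_pow]
    _ ≤ (1 / 4) ^ j := by
        refine pow_le_pow_left₀ (by positivity) ?_ j
        rw [mul_one_div, div_le_iff₀ hν0]
        have h6 : ((4 * l * r : ℕ) : ℝ) ≤ ν := by exact_mod_cast hν
        push_cast at h6 ⊢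
        linarith

/-- PROOF: union bound over the minimal members of each cardinality `j` with `l < 2 j`, `j ≤ l`:
`∑ (l r)^j (1/ν)^j ≤ ∑_{2 j > l} (1/4)^j ≤ (4/3) * (1/4)^j₀`, where `j₀` is the least such `j`,
`2 j₀ ≥ l + 1`, so `(1/4)^j₀ ≤ (1/2)^(l+1)`. Use `Closed.min_count` and `pr_subset_setP`. -/
theorem Closed.pr_big (hr : 2 ≤ r) (hQ : 2 * l ^ 2 ≤ Q) (hν : 4 * l * r ≤ ν) (hl : 1 ≤ l)
    {A : Finset (Finset (Vx k ν))} (hA : Closed Q l r A) :
    pr (fun P : Tr k ν => ∃ S ∈ A, (∀ S' ∈ A, S' ⊆ S → S' = S) ∧ l < 2 * S.card ∧ S ⊆ setP P) ≤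
      2 * (1 / 2) ^ l := by
  have h1 := PlantedB_sum (k := k) hr hQ hν hl hA (l / 2 + 1)
    (A.filter fun S => (∀ S' ∈ A, S' ⊆ S → S' = S) ∧ l < 2 * S.card) (by
      intro S hS
      rw [Finset.mem_filter] at hS
      exact ⟨hS.1, hS.2.1, by omega⟩)
  refine le_trans (pr_mono ?_) (h1.trans ?_)
  · rintro P ⟨S, hS, h2, h3, h4⟩
    exact ⟨S, Finset.mem_filter.2 ⟨hS, h2, h3⟩, h4⟩
  · have h2 : ((1 : ℝ) / 4) ^ (l / 2 + 1) ≤ (1 / 2) ^ (l + 1) := by
      have h3 : ((1 : ℝ) / 4) ^ (l / 2 + 1) = (1 / 2) ^ (2 * (l / 2 + 1)) := by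
        rw [pow_mul]
        norm_num
      rw [h3]
      exact pow_le_pow_of_le_one (by norm_num) (by norm_num) (by omega)
    have h4 : (0 : ℝ) < (1 / 2) ^ l := by positivity
    rw [pow_succ (1 / 2 : ℝ) l] at h2
    rw [div_le_iff₀ (by norm_num)]
    linarith

/-- Planted transversals are accepted with at most the probability of layers. PROOF: if `A = ∅` the
left side is `0`. If `∅ ∈ A` the right side is `1` (`Has ∅ X` always holds). Otherwise the right side is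
at least `1/2` (`half_le_pr_has` for any member of `A`) and the left side is, by `Closed.exists_min` and the
union bound over minimal members of cardinality `1 ≤ j ≤ l`, at most `∑_{j ≥ 1} (1/4)^j ≤ 1/3`. -/
theorem Closed.pr_planted_le (hr : 2 ≤ r) (hQ : 2 * l ^ 2 ≤ Q) (hν : 4 * l * r ≤ ν) (hl : 1 ≤ l)
    {A : Finset (Finset (Vx k ν))} (hA : Closed Q l r A) :
    pr (fun P : Tr k ν => Acc A (KP P)) ≤ pr (fun h : Ed k ν → Fin Q => Acc A (hb h)) := by
  rcases A.eq_empty_or_nonempty with rfl | ⟨S₀, hS₀⟩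
  · rw [pr_false]
    · exact pr_nonneg _
    · rintro P ⟨S, hS, -⟩
      exact absurd hS (Finset.notMem_empty S)
  · by_cases h0 : (∅ : Finset (Vx k ν)) ∈ A
    · rw [pr_true (p := fun h : Ed k ν → Fin Q => Acc A (hb h))]
      · exact pr_le_one _
      · intro h
        refine ⟨∅, h0, fun e he => ?_⟩
        simp [KS] at he
    · have h1 : 1 / 2 ≤ pr (fun h : Ed k ν → Fin Q => Acc A (hb h)) :=
        (half_le_pr_has l hQ S₀ (hA.1 S₀ hS₀)).trans (pr_mono fun h hh => ⟨S₀, hS₀, hh⟩)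
      have h2 := PlantedB_sum (k := k) hr hQ hν hl hA 1
        (A.filter fun S => ∀ S' ∈ A, S' ⊆ S → S' = S) (by
          intro S hS
          rw [Finset.mem_filter] at hS
          refine ⟨hS.1, hS.2, ?_⟩
          rw [Nat.one_le_iff_ne_zero, Finset.card_ne_zero, Finset.nonempty_iff_ne_empty]
          rintro rfl
          exact h0 hS.1)
      have h3 : pr (fun P : Tr k ν => Acc A (KP P)) ≤ (1 / 4) ^ 1 / (1 - 1 / 4) := by
        refine le_trans (pr_mono ?_) h2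
        intro P hP
        obtain ⟨S, hS, h4, h5⟩ := hA.exists_min hP
        exact ⟨S, Finset.mem_filter.2 ⟨hS, h4⟩, h5⟩
      norm_num at h3
      linarith

end Pool.Agent.helper81.NL
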