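import Pool.Agent.helper81.NL.Guess

set_option autoImplicit false

/-!
# NG-7a: straight-line programs and threshold functions
-/

namespace Pool.Agent.helper81.NL

/-- Some gate of the circuit computes the function `f`. -/
def Has1 {V : Type} (C : List (Gate V)) (f : (V → Bool) → Bool) : Prop :=
  ∃ a < C.length, ∀ x, (run x C).getD a false = f x

theorem Seq_run_append {V : Type} (E C : List (Gate V)) (x : V → Bool) (a : ℕ) :
    (run x (E ++ C)).getD (E.length + a) false = (run x C).getD a false := by
  induction E with
  | nil => simp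
  | cons e E ih =>
    rw [List.cons_append, run, List.length_cons, show E.length + 1 + a = (E.length + a) + 1 by omega,
      List.getD_cons_succ, ih]

/-- More gates do not hurt. PROOF: `run x (E ++ C)` ends with `run x C`, so position `a` becomes
`E.length + a`. -/
theorem Has1.append {V : Type} {C : List (Gate V)} {f : (V → Bool) → Bool} (h : Has1 C f)
    (E : List (Gate V)) : Has1 (E ++ C) f := by
  obtain ⟨a, ha, h⟩ := h
  refine ⟨E.length + a, ?_, fun x => ?_⟩
  · rw [List.length_append]
    omega
  · rw [Seq_run_append, h]

theorem has1_var {V : Type} (C : List (Gate V)) (v : V) : Has1 (Gate.var v :: C) fun x => x v := by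
  refine ⟨0, by simp, fun x => ?_⟩
  rw [run, List.getD_cons_zero, Gate.val]

theorem has1_const {V : Type} (C : List (Gate V)) (b : Bool) :
    Has1 (Gate.const b :: C) fun _ => b := by
  refine ⟨0, by simp, fun x => ?_⟩
  rw [run, List.getD_cons_zero, Gate.val]

/-- PROOF: one AND gate with the positions of `f` and `g` as arguments. -/
theorem Has1.and {V : Type} {C : List (Gate V)} {f g : (V → Bool) → Bool} (hf : Has1 C f)
    (hg : Has1 C g) : ∃ e : Gate V, e.isNot = false ∧ Has1 (e :: C) fun x => f x && g x := by
  obtain ⟨a, -, ha⟩ := hf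
  obtain ⟨b, -, hb⟩ := hg
  refine ⟨Gate.and a b, rfl, 0, by simp, fun x => ?_⟩
  rw [run, List.getD_cons_zero, Gate.val, ha, hb]

theorem Has1.or {V : Type} {C : List (Gate V)} {f g : (V → Bool) → Bool} (hf : Has1 C f)
    (hg : Has1 C g) : ∃ e : Gate V, e.isNot = false ∧ Has1 (e :: C) fun x => f x || g x := by
  obtain ⟨a, -, ha⟩ := hf
  obtain ⟨b, -, hb⟩ := hg
  refine ⟨Gate.or a b, rfl, 0, by simp, fun x => ?_⟩
  rw [run, List.getD_cons_zero, Gate.val, ha, hb]

theorem Has1.not {V : Type} {C : List (Gate V)} {f : (V → Bool) → Bool} (hf : Has1 C f) :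
    ∃ e : Gate V, Has1 (e :: C) fun x => !(f x) := by
  obtain ⟨a, -, ha⟩ := hf
  refine ⟨Gate.not a, 0, by simp, fun x => ?_⟩
  rw [run, List.getD_cons_zero, Gate.val, ha]

/-- the last gate can be made the output (one more AND gate with equal arguments) -/
theorem Has1.output {V : Type} {C : List (Gate V)} {f : (V → Bool) → Bool} (hf : Has1 C f) :
    ∃ e : Gate V, e.isNot = false ∧ ∀ x, eval (e :: C) x = f x := by
  obtain ⟨a, -, ha⟩ := hf
  refine ⟨Gate.and a a, rfl, fun x => ?_⟩
  rw [eval, run, List.getD_cons_zero, Gate.val, ha, Bool.and_self]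

/-- All threshold functions of a list of variables. `thr vs w x` is true iff at least `w` of the variables
`vs` are true. -/
def thr {V : Type} (vs : List V) (w : ℕ) (x : V → Bool) : Bool := decide (w ≤ vs.countP fun v => x v)

theorem Seq_thr_zero {V : Type} (vs : List V) (x : V → Bool) : thr vs 0 x = true := by
  simp [thr]

theorem Seq_thr_succ {V : Type} (v : V) (vs : List V) (w : ℕ) (x : V → Bool) :
    thr (v :: vs) (w + 1) x = (thr vs (w + 1) x || (x v && thr vs w x)) := by
  unfold thr
  cases h : x v
  · rw [List.countP_cons_of_neg (by simp [h])]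
    simp
  · rw [List.countP_cons_of_pos (by simp [h])]
    rw [Bool.true_and, Bool.eq_iff_iff]
    simp only [decide_eq_true_eq, Bool.or_eq_true]
    omega

theorem Seq_negations_cons {V : Type} (e : Gate V) (he : e.isNot = false) (E : List (Gate V)) :
    negations (e :: E) = negations E := by
  unfold negations
  rw [List.countP_cons_of_neg (by simp [he])]

theorem Seq_negations_append {V : Type} (E E' : List (Gate V)) :
    negations (E ++ E') = negations E + negations E' := by
  unfold negations
  rw [List.countP_append]

theorem Seq_step {V : Type} (C : List (Gate V)) (v : V) (vs : List V) (W : ℕ)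
    (h : ∀ w ≤ W, Has1 C (thr vs w)) (W' : ℕ) (hW : W' ≤ W) :
    ∃ E : List (Gate V), negations E = 0 ∧ E.length ≤ 1 + 2 * W' ∧
      Has1 (E ++ C) (fun x => x v) ∧ ∀ w ≤ W', Has1 (E ++ C) (thr (v :: vs) w) := by
  induction W' with
  | zero =>
    refine ⟨[Gate.var v], rfl, by simp, has1_var C v, fun w hw => ?_⟩
    obtain rfl : w = 0 := by omega
    have h1 : thr (v :: vs) 0 = thr vs 0 := by
      funext x
      rw [Seq_thr_zero, Seq_thr_zero]
    rw [h1]
    exact (h 0 (Nat.zero_le _)).append [Gate.var v]
  | succ W' ih =>
    obtain ⟨E, hn, hl, hv, hE⟩ := ih (by omega)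
    obtain ⟨e1, he1, h1⟩ := Has1.and hv ((h W' (by omega)).append E)
    obtain ⟨e2, he2, h2⟩ := Has1.or (((h (W' + 1) hW).append E).append [e1]) h1
    refine ⟨e2 :: e1 :: E, ?_, ?_, ?_, ?_⟩
    · rw [Seq_negations_cons _ he2, Seq_negations_cons _ he1, hn]
    · simp only [List.length_cons]
      omega
    · exact hv.append [e2, e1]
    · intro w hw
      rcases Nat.lt_or_ge w (W' + 1) with hlt | hge
      · exact (hE w (by omega)).append [e2, e1]
      · obtain rfl : w = W' + 1 := by omega
        have h3 : thr (v :: vs) (W' + 1) =
            fun x => (thr vs (W' + 1) x || (x v && thr vs W' x)) := by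
          funext x
          exact Seq_thr_succ v vs W' x
        rw [h3]
        exact h2

/-- PROOF: by induction on `vs`: for the empty list the functions are constants (`w = 0`: `true`, otherwise `false`);
`thr (v :: vs) w x = thr vs w x || (x v && thr vs (w - 1) x)` for `w ≥ 1` (two gates for each `w ≤ W`) and `thr (v :: vs) 0 = true`.
So at most `2 + vs.length * (2 * W + 3)` new gates. The statement: there is an extension `E ++ C` without new NOT
gates which computes all `thr vs w`, `w ≤ W`. -/
theorem exists_thr {V : Type} (C : List (Gate V)) (vs : List V) (W : ℕ) :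
    ∃ E : List (Gate V), negations E = 0 ∧ E.length ≤ 2 + vs.length * (2 * W + 3) ∧
      ∀ w ≤ W, Has1 (E ++ C) (thr vs w) := by
  induction vs with
  | nil =>
    refine ⟨[Gate.const false, Gate.const true], rfl, by simp, fun w _ => ?_⟩
    cases w with
    | zero =>
      have h1 : thr ([] : List V) 0 = fun _ => true := by
        funext x
        exact Seq_thr_zero _ x
      rw [h1]
      exact (has1_const C true).append [Gate.const false]
    | succ w =>
      have h1 : thr ([] : List V) (w + 1) = fun _ => false := by
        funext x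
        simp [thr]
      rw [h1]
      exact has1_const (Gate.const true :: C) false
  | cons v vs ih =>
    obtain ⟨E, hn, hl, hE⟩ := ih
    obtain ⟨E', hn', hl', -, hE'⟩ := Seq_step (E ++ C) v vs W hE W le_rfl
    refine ⟨E' ++ E, ?_, ?_, ?_⟩
    · rw [Seq_negations_append, hn, hn']
    · rw [List.length_append, List.length_cons, Nat.add_mul]
      omega
    · intro w hw
      rw [List.append_assoc]
      exact hE' w hw

end Pool.Agent.helper81.NL
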